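import Pool.Agent.Work.MP_2b9663_nt.Mo.Defs

set_option autoImplicit false

/-! The sum over `Γ₀(N)` of the function of the strip, as Epstein zeta functions. -/

namespace Pool.Agent.Work.MP_2b9663_nt.Mo

open UpperHalfPlane ModularGroup MeasureTheory CongruenceSubgroup Set
open scoped MatrixGroups Modular

/-! ### The quadratic form -/

theorem qf_pos {x y : ℝ} (hy : 0 < y) {v : ℤ × ℤ} (hv : v ≠ 0) : 0 < qf x y v := by
  unfold qf
  apply div_pos _ hy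
  by_cases h : v.1 = 0
  · have h2 : v.2 ≠ 0 := fun h2 => hv (Prod.ext h h2)
    have h3 : (v.2 : ℝ) ≠ 0 := by exact_mod_cast h2
    rw [h]
    simp only [Int.cast_zero, zero_mul, zero_add]
    positivity
  · have h3 : (v.1 : ℝ) ≠ 0 := by exact_mod_cast h
    positivity

theorem qf_zero (x y : ℝ) : qf x y 0 = 0 := by simp [qf]

theorem qf_nonneg {x y : ℝ} (hy : 0 < y) (v : ℤ × ℤ) : 0 ≤ qf x y v := by
  unfold qf
  positivity

theorem im_smul_qf (g : SL(2, ℤ)) (w : ℍ) :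
    (g • w).im = (qf w.re w.im (g 1 0, g 1 1))⁻¹ := by
  rw [ModularGroup.im_smul_eq_div_normSq, denom_apply]
  unfold qf
  rw [inv_div, Complex.normSq_apply]
  congr 1
  simp
  ring

theorem coprime_ne_zero {v : ℤ × ℤ} (h : IsCoprime v.1 v.2) : v ≠ 0 := by
  rintro rfl
  exact not_isCoprime_zero_zero h

/-! ### The sum over the group -/

theorem mem_Gamma0_iff' {N : ℕ} (g : SL(2, ℤ)) : g ∈ Gamma0 N ↔ (N : ℤ) ∣ g 1 0 := by
  rw [Gamma0_mem]
  exact ZMod.intCast_zmod_eq_zero_iff_dvd _ _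

theorem eq_of_bottom_row {w : ℍ} {g h : SL(2, ℤ)} (h0 : g 1 0 = h 1 0) (h1 : g 1 1 = h 1 1)
    (hg : g • w ∈ strip) (hh : h • w ∈ strip) : g = h := by
  obtain ⟨n, hn⟩ : ∃ n : ℤ, g = T ^ n * h := by
    refine ⟨g 0 1 * h 0 0 - g 0 0 * h 0 1, ?_⟩
    have hgd := g.det_coe
    have hhd := h.det_coe
    rw [Matrix.det_fin_two] at hgd hhd
    ext i j
    rw [Matrix.SpecialLinearGroup.coe_mul, coe_T_zpow]
    fin_cases i <;> fin_cases j
    · simp [Matrix.mul_apply, Fin.sum_univ_two]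
      rw [h0, h1] at hgd
      linear_combination (h 0 0) * hgd - (g 0 0) * hhd
    · simp [Matrix.mul_apply, Fin.sum_univ_two]
      rw [h0, h1] at hgd
      linear_combination (h 0 1) * hgd - (g 0 1) * hhd
    · simp [Matrix.mul_apply, Fin.sum_univ_two, h0]
    · simp [Matrix.mul_apply, Fin.sum_univ_two, h1]
  rw [hn, mul_smul] at hg
  obtain ⟨hg1, hg2⟩ := hg
  obtain ⟨hh1, hh2⟩ := hh
  rw [re_T_zpow_smul] at hg1 hg2
  have h3 : (n : ℝ) < 1 := by linarith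
  have h4 : (-1 : ℝ) < n := by linarith
  have h5 : n < 1 := by exact_mod_cast h3
  have h6 : -1 < n := by exact_mod_cast h4
  have h7 : n = 0 := by omega
  rw [hn, h7]
  simp

theorem exists_bottom_row (w : ℍ) {c d : ℤ} (h : IsCoprime c d) :
    ∃ g : SL(2, ℤ), g 1 0 = c ∧ g 1 1 = d ∧ g • w ∈ strip := by
  obtain ⟨g, -, hg⟩ := bottom_row_surj (R := ℤ) (show ![c, d] ∈ {cd : Fin 2 → ℤ | IsCoprime (cd 0) (cd 1)} by
    simpa using h)
  have hg0 : g 1 0 = c := by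
    have := congrFun hg 0
    simpa using this
  have hg1 : g 1 1 = d := by
    have := congrFun hg 1
    simpa using this
  refine ⟨T ^ (-⌊(g • w).re⌋) * g, ?_, ?_, ?_⟩
  · rw [Matrix.SpecialLinearGroup.coe_mul, coe_T_zpow]
    simp [Matrix.mul_apply, Fin.sum_univ_two, hg0]
  · rw [Matrix.SpecialLinearGroup.coe_mul, coe_T_zpow]
    simp [Matrix.mul_apply, Fin.sum_univ_two, hg1]
  · rw [mul_smul]
    refine ⟨?_, ?_⟩
    · rw [re_T_zpow_smul]
      push_cast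
      linarith [Int.floor_le (g • w).re]
    · rw [re_T_zpow_smul]
      push_cast
      linarith [Int.lt_floor_add_one (g • w).re]

/-- The elements of `Γ₀(N)` which send `w` to the strip are given by their bottom rows. -/
noncomputable def rowEquiv (N : ℕ) (w : ℍ) :
    {δ : Gamma0 N // (δ : SL(2, ℤ)) • w ∈ strip} ≃
      {v : ℤ × ℤ // IsCoprime v.1 v.2 ∧ (N : ℤ) ∣ v.1} :=
  Equiv.ofBijective
    (fun δ => ⟨((δ.1 : SL(2, ℤ)) 1 0, (δ.1 : SL(2, ℤ)) 1 1),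
      bottom_row_coprime _, (mem_Gamma0_iff' _).1 δ.1.2⟩) (by
    constructor
    · rintro ⟨⟨g, hg⟩, hgs⟩ ⟨⟨h, hh⟩, hhs⟩ e
      simp only [Subtype.mk.injEq, Prod.mk.injEq] at e
      apply Subtype.ext
      apply Subtype.ext
      exact eq_of_bottom_row e.1 e.2 hgs hhs
    · rintro ⟨⟨c, d⟩, h1, h2⟩
      obtain ⟨g, hg0, hg1, hgs⟩ := exists_bottom_row w h1
      refine ⟨⟨⟨g, (mem_Gamma0_iff' _).2 (by rw [hg0]; exact h2)⟩, hgs⟩, ?_⟩
      apply Subtype.ext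
      exact Prod.ext hg0 hg1)

theorem tsum_if_eq {ι : Type*} (p : ι → Prop) [DecidablePred p] (f : ι → ℂ) :
    ∑' i, (if p i then f i else 0) = ∑' i : {i // p i}, f i := by
  have h : (fun i => if p i then f i else 0) = ({i | p i} : Set ι).indicator f := by
    funext i
    simp [Set.indicator_apply]
  rw [h]
  exact (tsum_subtype {i | p i} f).symm

theorem strip_sum {N : ℕ} [NeZero N] {s : ℂ} (_hs : 1 < s.re) (w : ℍ) :
    ∑' δ : Gamma0 N, (strip.indicator (fun z : ℍ => (z.im : ℂ) ^ s)) ((δ : SL(2, ℤ)) • w) =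
    ∑' v : ℤ × ℤ, if IsCoprime v.1 v.2 ∧ (N : ℤ) ∣ v.1 then (qf w.re w.im v : ℂ) ^ (-s) else 0 := by
  classical
  rw [tsum_if_eq, ← (rowEquiv N w).tsum_eq]
  have h1 : ∀ δ : Gamma0 N,
      (strip.indicator (fun z : ℍ => (z.im : ℂ) ^ s)) ((δ : SL(2, ℤ)) • w) =
      if ((δ : SL(2, ℤ)) • w ∈ strip) then ((((δ : SL(2, ℤ)) • w).im : ℝ) : ℂ) ^ s else 0 := by
    intro δ
    rw [Set.indicator_apply]
  rw [tsum_congr h1, tsum_if_eq]
  apply tsum_congr
  intro δ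
  have h2 : (rowEquiv N w δ).1 = ((δ.1 : SL(2, ℤ)) 1 0, (δ.1 : SL(2, ℤ)) 1 1) := rfl
  rw [h2, im_smul_qf]
  have h3 := qf_pos (x := w.re) w.im_pos (coprime_ne_zero
    (v := ((δ.1 : SL(2, ℤ)) 1 0, (δ.1 : SL(2, ℤ)) 1 1)) (bottom_row_coprime _))
  rw [Complex.ofReal_inv, Complex.inv_cpow _ _ (by
    rw [Complex.arg_ofReal_of_nonneg h3.le]
    exact Real.pi_ne_zero.symm), Complex.cpow_neg]

/-! ### Summability -/

theorem qf_eq_norm (w : ℍ) (v : ℤ × ℤ) : qf w.re w.im v = ‖(v.1 : ℂ) * w + v.2‖ ^ 2 / w.im := by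
  unfold qf
  congr 1
  rw [← Complex.normSq_eq_norm_sq, Complex.normSq_apply]
  simp
  ring

theorem norm_qf_cpow {w : ℍ} {v : ℤ × ℤ} (hv : v ≠ 0) (s : ℂ) :
    ‖(qf w.re w.im v : ℂ) ^ (-s)‖ = qf w.re w.im v ^ (-s.re) := by
  rw [Complex.norm_cpow_eq_rpow_re_of_pos (qf_pos w.im_pos hv), Complex.neg_re]

theorem qf_summable {s : ℂ} (hs : 1 < s.re) (w : ℍ) :
    Summable fun v : ℤ × ℤ => ‖(qf w.re w.im v : ℂ) ^ (-s)‖ := by
  have h1 : Summable fun v : ℤ × ℤ => ‖![v.1, v.2]‖ ^ (-(2 * s.re)) :=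
    (finTwoArrowEquiv ℤ).symm.summable_iff.2
      (EisensteinSeries.summable_one_div_norm_rpow (k := 2 * s.re) (by linarith))
  have h2 := h1.mul_left (w.im ^ s.re * EisensteinSeries.r w ^ (-(2 * s.re)))
  refine h2.of_nonneg_of_le (fun v => norm_nonneg _) (fun v => ?_)
  by_cases hv : v = 0
  · rw [hv, qf_zero]
    rw [Complex.ofReal_zero, Complex.zero_cpow (by
      intro h
      rw [neg_eq_zero] at h
      rw [h] at hs
      simp at hs
      linarith), norm_zero]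
    have h3 := EisensteinSeries.r_pos w
    have h4 := w.im_pos
    positivity
  · rw [norm_qf_cpow hv]
    have hx : (![v.1, v.2] : Fin 2 → ℤ) ≠ 0 := by
      intro h
      apply hv
      have h5 := congrFun h 0
      have h6 := congrFun h 1
      simp at h5 h6
      exact Prod.ext h5 h6
    have h3 := EisensteinSeries.r_mul_max_le w hx
    have h4 := EisensteinSeries.summand_bound w (k := 2 * s.re) (by linarith) ![v.1, v.2]
    simp only [Matrix.cons_val_zero, Matrix.cons_val_one] at h4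
    rw [qf_eq_norm, div_eq_mul_inv, Real.mul_rpow (by positivity) (by have := w.im_pos; positivity),
      Real.inv_rpow w.im_pos.le, Real.rpow_neg w.im_pos.le, inv_inv, ← Real.rpow_natCast,
      ← Real.rpow_mul (norm_nonneg _)]
    have h5 : ((2 : ℕ) : ℝ) * -s.re = -(2 * s.re) := by push_cast; ring
    rw [h5]
    have h6 : 0 ≤ w.im ^ s.re := Real.rpow_nonneg w.im_pos.le _
    calc _ ≤ (EisensteinSeries.r w ^ (-(2 * s.re)) * ‖![v.1, v.2]‖ ^ (-(2 * s.re))) * w.im ^ s.re :=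
          mul_le_mul_of_nonneg_right h4 h6
      _ = _ := by ring

/-! ### Multiples of primitive vectors -/

theorem qf_mul (x y : ℝ) (e : ℤ) (v : ℤ × ℤ) :
    qf x y (e * v.1, e * v.2) = (e : ℝ) ^ 2 * qf x y v := by
  unfold qf
  push_cast
  ring

theorem qf_dilate {x y : ℝ} (hy : 0 < y) {N e : ℕ} (hN : 0 < N) (he : e ∣ N) (v : ℤ × ℤ) :
    qf x y ((N : ℤ) * v.1, (e : ℤ) * v.2) =
      ((e : ℝ) * N) * qf (((N / e : ℕ) : ℝ) * x) (((N / e : ℕ) : ℝ) * y) v := by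
  obtain ⟨l, rfl⟩ := he
  have he : 0 < e := Nat.pos_of_mul_pos_right hN
  have hl : 0 < l := Nat.pos_of_mul_pos_left hN
  have he' : (0 : ℝ) < e := by exact_mod_cast he
  have hl' : (0 : ℝ) < l := by exact_mod_cast hl
  rw [Nat.mul_div_cancel_left _ he]
  unfold qf
  push_cast
  field_simp

/-- Multiples, prime to `N`, of primitive vectors. -/
noncomputable def multEquiv (N : ℕ) :
    {p : ℕ × (ℤ × ℤ) // p.1 ≠ 0 ∧ p.1.Coprime N ∧ IsCoprime p.2.1 p.2.2 ∧ (N : ℤ) ∣ p.2.1} ≃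
      {u : ℤ × ℤ // u ≠ 0 ∧ (N : ℤ) ∣ u.1 ∧ IsCoprime u.2 (N : ℤ)} :=
  Equiv.ofBijective
    (fun p => ⟨((p.1.1 : ℤ) * p.1.2.1, (p.1.1 : ℤ) * p.1.2.2), by
      obtain ⟨⟨e, v⟩, h1, h2, h3, h4⟩ := p
      have h1' : (e : ℤ) ≠ 0 := by exact_mod_cast h1
      refine ⟨?_, ?_, ?_⟩
      · intro h
        have h5 := congrArg Prod.fst h
        have h6 := congrArg Prod.snd h
        simp only [Prod.fst_zero, Prod.snd_zero, mul_eq_zero] at h5 h6
        exact coprime_ne_zero h3 (Prod.ext (h5.resolve_left h1') (h6.resolve_left h1'))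
      · exact Dvd.dvd.mul_left h4 _
      · exact IsCoprime.mul_left (Nat.isCoprime_iff_coprime.2 h2)
          (IsCoprime.of_isCoprime_of_dvd_right h3.symm h4)⟩) (by
    constructor
    · rintro ⟨⟨e, v⟩, h1, h2, h3, h4⟩ ⟨⟨e', v'⟩, h1', h2', h3', h4'⟩ h
      simp only [Subtype.mk.injEq, Prod.mk.injEq] at h h1 h1' h3 h3'
      have h5 : e = e' := by
        have h6 := Int.gcd_mul_left (e : ℤ) v.1 v.2
        have h7 := Int.gcd_mul_left (e' : ℤ) v'.1 v'.2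
        rw [Int.isCoprime_iff_gcd_eq_one.1 h3] at h6
        rw [Int.isCoprime_iff_gcd_eq_one.1 h3'] at h7
        rw [h.1, h.2, h7] at h6
        simpa using h6.symm
      subst h5
      have h1'' : (e : ℤ) ≠ 0 := by exact_mod_cast h1
      have h8 : v = v' := Prod.ext (mul_left_cancel₀ h1'' h.1) (mul_left_cancel₀ h1'' h.2)
      subst h8
      rfl
    · rintro ⟨⟨a, b⟩, h1, h2, h3⟩
      simp only at h2 h3
      have hg : Int.gcd a b ≠ 0 := by
        intro h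
        rw [Int.gcd_eq_zero_iff] at h
        exact h1 (Prod.ext h.1 h.2)
      have hg' : (Int.gcd a b : ℤ) ≠ 0 := by exact_mod_cast hg
      obtain ⟨a', ha'⟩ : (Int.gcd a b : ℤ) ∣ a := Int.gcd_dvd_left ..
      obtain ⟨b', hb'⟩ : (Int.gcd a b : ℤ) ∣ b := Int.gcd_dvd_right ..
      have hcop : IsCoprime a' b' := by
        rw [Int.isCoprime_iff_gcd_eq_one]
        have h6 := Int.gcd_mul_left (Int.gcd a b : ℤ) a' b'
        rw [← ha', ← hb', Int.natAbs_natCast] at h6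
        exact Nat.eq_of_mul_eq_mul_left (Nat.pos_of_ne_zero hg) (by rw [mul_one]; exact h6.symm)
      have hgN : IsCoprime (Int.gcd a b : ℤ) (N : ℤ) :=
        IsCoprime.of_isCoprime_of_dvd_left h3 ⟨b', hb'⟩
      refine ⟨⟨(Int.gcd a b, (a', b')), hg, Nat.isCoprime_iff_coprime.1 hgN, hcop, ?_⟩, ?_⟩
      · apply hgN.symm.dvd_of_dvd_mul_left
        rw [← ha']
        exact h2
      · apply Subtype.ext
        exact Prod.ext ha'.symm hb'.symm)

/-! ### The Möbius function -/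

theorem moebius_sum {N : ℕ} (hN : N ≠ 0) (b : ℤ) [Decidable (IsCoprime b (N : ℤ))] :
    ∑ e ∈ N.divisors, (if (e : ℤ) ∣ b then (ArithmeticFunction.moebius e : ℂ) else 0) =
      if IsCoprime b (N : ℤ) then 1 else 0 := by
  classical
  have h0 : Nat.gcd b.natAbs N ≠ 0 := fun h => hN (Nat.gcd_eq_zero_iff.1 h).2
  have h1 : N.divisors.filter (fun e : ℕ => (e : ℤ) ∣ b) = (Nat.gcd b.natAbs N).divisors := by
    ext e
    rw [Finset.mem_filter, Nat.mem_divisors, Nat.mem_divisors, Nat.dvd_gcd_iff, ← Int.natCast_dvd]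
    tauto
  rw [← Finset.sum_filter, h1]
  have h2 := congrFun (congrArg (fun f : ArithmeticFunction ℤ => (f : ℕ → ℤ))
    ArithmeticFunction.coe_zeta_mul_moebius) (Nat.gcd b.natAbs N)
  simp only [ArithmeticFunction.coe_zeta_mul_apply, ArithmeticFunction.one_apply] at h2
  have h3 := congrArg (fun n : ℤ => (n : ℂ)) h2
  simp only [Int.cast_sum] at h3
  rw [h3]
  have h4 : IsCoprime b (N : ℤ) ↔ Nat.gcd b.natAbs N = 1 := by
    rw [Int.isCoprime_iff_gcd_eq_one]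
    rfl
  by_cases h : Nat.gcd b.natAbs N = 1
  · rw [if_pos h, if_pos (h4.2 h), Int.cast_one]
  · rw [if_neg h, if_neg (fun h5 => h (h4.1 h5)), Int.cast_zero]

/-! ### The lattice sum -/

theorem zetaN_summable (N : ℕ) {s : ℂ} (hs : 1 < s.re) :
    Summable fun e : ℕ => ‖(if e.Coprime N then (e : ℂ) ^ (-(2 * s)) else 0 : ℂ)‖ := by
  have h1 : Summable fun e : ℕ => ‖1 / (e : ℂ) ^ (2 * s)‖ :=
    (Complex.summable_one_div_nat_cpow.2 (by simp; linarith)).norm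
  refine h1.of_nonneg_of_le (fun v => norm_nonneg _) (fun e => ?_)
  split_ifs
  · rw [Complex.cpow_neg, one_div]
  · rw [norm_zero]
    exact norm_nonneg _

theorem cpow_ne_aux {s : ℂ} (hs : 1 < s.re) : s ≠ 0 := by
  rintro rfl
  simp at hs
  linarith

theorem ofReal_qf_zero_cpow (x y : ℝ) {s : ℂ} (hs : 1 < s.re) :
    (qf x y 0 : ℂ) ^ (-s) = 0 := by
  rw [qf_zero, Complex.ofReal_zero, Complex.zero_cpow (neg_ne_zero.2 (cpow_ne_aux hs))]

theorem qf_mul_cpow {x y : ℝ} (hy : 0 < y) {e : ℕ} (he : e ≠ 0) (v : ℤ × ℤ) (s : ℂ) :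
    (e : ℂ) ^ (-(2 * s)) * (qf x y v : ℂ) ^ (-s) =
      (qf x y ((e : ℤ) * v.1, (e : ℤ) * v.2) : ℂ) ^ (-s) := by
  rw [qf_mul]
  have h1 : ((((e : ℤ) : ℝ) ^ 2 : ℝ) : ℂ) = (e : ℂ) * (e : ℂ) := by push_cast; ring
  rw [Complex.ofReal_mul, Complex.mul_cpow_ofReal_nonneg (by positivity) (qf_nonneg hy v), h1,
    Complex.natCast_mul_natCast_cpow, ← Complex.cpow_add _ _ (by exact_mod_cast he)]
  congr 2
  ring

theorem coprime_lattice {N : ℕ} [NeZero N] {s : ℂ} (hs : 1 < s.re) (w : ℍ) :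
    zetaN N (2 * s) *
      ∑' v : ℤ × ℤ, (if IsCoprime v.1 v.2 ∧ (N : ℤ) ∣ v.1 then (qf w.re w.im v : ℂ) ^ (-s) else 0) =
    ∑' u : ℤ × ℤ, (if u ≠ 0 ∧ (N : ℤ) ∣ u.1 ∧ IsCoprime u.2 (N : ℤ) then
      (qf w.re w.im u : ℂ) ^ (-s) else 0) := by
  classical
  have hsum2 : Summable fun v : ℤ × ℤ =>
      ‖(if IsCoprime v.1 v.2 ∧ (N : ℤ) ∣ v.1 then (qf w.re w.im v : ℂ) ^ (-s) else 0 : ℂ)‖ := by
    refine (qf_summable hs w).of_nonneg_of_le (fun v => norm_nonneg _) (fun v => ?_)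
    split_ifs
    · exact le_rfl
    · rw [norm_zero]
      exact norm_nonneg _
  rw [zetaN, tsum_mul_tsum_of_summable_norm (zetaN_summable N hs) hsum2]
  have h1 : ∀ p : ℕ × (ℤ × ℤ),
      (if p.1.Coprime N then ((p.1 : ℕ) : ℂ) ^ (-(2 * s)) else 0 : ℂ) *
        (if IsCoprime p.2.1 p.2.2 ∧ (N : ℤ) ∣ p.2.1 then (qf w.re w.im p.2 : ℂ) ^ (-s) else 0) =
      if p.1 ≠ 0 ∧ p.1.Coprime N ∧ IsCoprime p.2.1 p.2.2 ∧ (N : ℤ) ∣ p.2.1 then
        (qf w.re w.im ((p.1 : ℤ) * p.2.1, (p.1 : ℤ) * p.2.2) : ℂ) ^ (-s) else 0 := by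
    intro p
    by_cases h0 : p.1 = 0
    · have h2 : ((p.1 : ℕ) : ℂ) ^ (-(2 * s)) = 0 := by
        rw [h0, Nat.cast_zero, Complex.zero_cpow]
        exact neg_ne_zero.2 (mul_ne_zero two_ne_zero (cpow_ne_aux hs))
      have h5 : ¬ (p.1 ≠ 0 ∧ p.1.Coprime N ∧ IsCoprime p.2.1 p.2.2 ∧ (N : ℤ) ∣ p.2.1) :=
        fun h => h.1 h0
      rw [h2, if_neg h5]
      simp
    · rw [← qf_mul_cpow w.im_pos h0]
      by_cases h3 : p.1.Coprime N
      · by_cases h4 : IsCoprime p.2.1 p.2.2 ∧ (N : ℤ) ∣ p.2.1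
        · rw [if_pos h3, if_pos h4, if_pos ⟨h0, h3, h4⟩]
        · have h5 : ¬ (p.1 ≠ 0 ∧ p.1.Coprime N ∧ IsCoprime p.2.1 p.2.2 ∧ (N : ℤ) ∣ p.2.1) :=
            fun h => h4 h.2.2
          rw [if_neg h4, if_neg h5, mul_zero]
      · have h5 : ¬ (p.1 ≠ 0 ∧ p.1.Coprime N ∧ IsCoprime p.2.1 p.2.2 ∧ (N : ℤ) ∣ p.2.1) :=
          fun h => h3 h.2.1
        rw [if_neg h3, if_neg h5, zero_mul]
  rw [tsum_congr h1, tsum_if_eq, tsum_if_eq, ← (multEquiv N).tsum_eq]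
  rfl

theorem dilate_tsum {N e : ℕ} (hN : 0 < N) (he : e ∣ N) {s : ℂ} (hs : 1 < s.re) (w : ℍ) :
    ∑' u : ℤ × ℤ, (if (N : ℤ) ∣ u.1 ∧ (e : ℤ) ∣ u.2 then (qf w.re w.im u : ℂ) ^ (-s) else 0) =
      ((e : ℂ) * N) ^ (-s) * Ep (((N / e : ℕ) : ℝ) * w.re) (((N / e : ℕ) : ℝ) * w.im) s := by
  have he0 : 0 < e := Nat.pos_of_dvd_of_pos he hN
  have hNz : (N : ℤ) ≠ 0 := by exact_mod_cast hN.ne'
  have hez : (e : ℤ) ≠ 0 := by exact_mod_cast he0.ne'
  have hinj : Function.Injective (fun v : ℤ × ℤ => ((N : ℤ) * v.1, (e : ℤ) * v.2)) := by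
    intro v v' h
    simp only [Prod.mk.injEq] at h
    exact Prod.ext (mul_left_cancel₀ hNz h.1) (mul_left_cancel₀ hez h.2)
  have hsupp : Function.support (fun u : ℤ × ℤ =>
      (if (N : ℤ) ∣ u.1 ∧ (e : ℤ) ∣ u.2 then (qf w.re w.im u : ℂ) ^ (-s) else 0)) ⊆
      Set.range (fun v : ℤ × ℤ => ((N : ℤ) * v.1, (e : ℤ) * v.2)) := by
    intro u hu
    rw [Function.mem_support] at hu
    by_cases h : (N : ℤ) ∣ u.1 ∧ (e : ℤ) ∣ u.2
    · obtain ⟨⟨a, ha⟩, ⟨b, hb⟩⟩ := h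
      exact ⟨(a, b), Prod.ext ha.symm hb.symm⟩
    · rw [if_neg h] at hu
      exact absurd rfl hu
  rw [← hinj.tsum_eq hsupp, Ep, ← tsum_mul_left]
  apply tsum_congr
  intro v
  rw [if_pos ⟨dvd_mul_right _ _, dvd_mul_right _ _⟩, qf_dilate w.im_pos hN he, Complex.ofReal_mul,
    Complex.mul_cpow_ofReal_nonneg (by positivity)]
  · push_cast
    rfl
  · apply qf_nonneg
    have h1 : 0 < N / e := Nat.div_pos (Nat.le_of_dvd hN he) he0
    have h2 : (0 : ℝ) < ((N / e : ℕ) : ℝ) := by exact_mod_cast h1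
    exact mul_pos h2 w.im_pos

theorem lattice_sum {N : ℕ} [NeZero N] {s : ℂ} (hs : 1 < s.re) (w : ℍ) :
    zetaN N (2 * s) *
      ∑' v : ℤ × ℤ, (if IsCoprime v.1 v.2 ∧ (N : ℤ) ∣ v.1 then (qf w.re w.im v : ℂ) ^ (-s) else 0) =
    ∑ e ∈ N.divisors, (ArithmeticFunction.moebius e : ℂ) * ((e : ℂ) * N) ^ (-s) *
      Ep (((N / e : ℕ) : ℝ) * w.re) (((N / e : ℕ) : ℝ) * w.im) s := by
  classical
  have hN : 0 < N := Nat.pos_of_ne_zero (NeZero.ne N)
  rw [coprime_lattice hs w]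
  have h1 : ∀ u : ℤ × ℤ,
      (if u ≠ 0 ∧ (N : ℤ) ∣ u.1 ∧ IsCoprime u.2 (N : ℤ) then
        (qf w.re w.im u : ℂ) ^ (-s) else 0) =
      ∑ e ∈ N.divisors, (ArithmeticFunction.moebius e : ℂ) *
        (if (N : ℤ) ∣ u.1 ∧ (e : ℤ) ∣ u.2 then (qf w.re w.im u : ℂ) ^ (-s) else 0) := by
    intro u
    by_cases h0 : u = 0
    · rw [if_neg (fun h => h.1 h0)]
      symm
      apply Finset.sum_eq_zero
      intro e _
      have h2 : (qf w.re w.im u : ℂ) ^ (-s) = 0 := by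
        rw [h0, ofReal_qf_zero_cpow _ _ hs]
      rw [h2]
      simp
    · by_cases h3 : (N : ℤ) ∣ u.1
      · have h4 := moebius_sum hN.ne' u.2
        have h5 : ∀ e ∈ N.divisors, (ArithmeticFunction.moebius e : ℂ) *
            (if (N : ℤ) ∣ u.1 ∧ (e : ℤ) ∣ u.2 then (qf w.re w.im u : ℂ) ^ (-s) else 0) =
            (if (e : ℤ) ∣ u.2 then (ArithmeticFunction.moebius e : ℂ) else 0) *
              (qf w.re w.im u : ℂ) ^ (-s) := by
          intro e _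
          by_cases h6 : (e : ℤ) ∣ u.2
          · rw [if_pos h6, if_pos ⟨h3, h6⟩]
          · rw [if_neg h6, if_neg (fun h => h6 h.2), mul_zero, zero_mul]
        rw [Finset.sum_congr rfl h5, ← Finset.sum_mul, h4]
        by_cases h7 : IsCoprime u.2 (N : ℤ)
        · rw [if_pos h7, if_pos ⟨h0, h3, h7⟩, one_mul]
        · rw [if_neg h7, if_neg (fun h => h7 h.2.2), zero_mul]
      · rw [if_neg (fun h => h3 h.2.1)]
        symm
        apply Finset.sum_eq_zero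
        intro e _
        rw [if_neg (fun h => h3 h.1), mul_zero]
  have hsum : ∀ e ∈ N.divisors, Summable fun u : ℤ × ℤ => (ArithmeticFunction.moebius e : ℂ) *
      (if (N : ℤ) ∣ u.1 ∧ (e : ℤ) ∣ u.2 then (qf w.re w.im u : ℂ) ^ (-s) else 0) := by
    intro e _
    apply Summable.mul_left
    apply Summable.of_norm
    refine (qf_summable hs w).of_nonneg_of_le (fun v => norm_nonneg _) (fun v => ?_)
    split_ifs
    · exact le_rfl
    · rw [norm_zero]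
      exact norm_nonneg _
  rw [tsum_congr h1, Summable.tsum_finsetSum hsum]
  apply Finset.sum_congr rfl
  intro e he
  rw [tsum_mul_left, dilate_tsum hN (Nat.dvd_of_mem_divisors he) hs w, mul_assoc]

end Pool.Agent.Work.MP_2b9663_nt.Mo
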