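import Pool.Agent.Work.MP_2b9663_nt.Mo.Landau
import Pool.Agent.Work.MP_2b9663_nt.MV

set_option autoImplicit false

/-! Nonvanishing at `s = 1` and the orthogonality relations for the coefficients at primes. -/

namespace Pool.Agent.Work.MP_2b9663_nt.Mo

open Complex Filter Topology

section

variable {k N M : ℕ} {a b : ℕ → ℝ}

/-- the logarithm of the Rankin-Selberg `L`-function -/
noncomputable def LE (k N M : ℕ) (a b : ℕ → ℝ) (s : ℂ) : ℂ :=
  ∑' p : Nat.Primes, locE k N M a b s p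

/-- `Φ` is `(s - 1) L(s, f × g)`, with a zero at `-1`. -/
structure IsRS (k N M : ℕ) (a b : ℕ → ℝ) (Φ : ℂ → ℂ) : Prop where
  diff : Differentiable ℂ Φ
  eq : ∀ s : ℂ, 1 < s.re → Φ s = (s - 1) * Complex.exp (LE k N M a b s)
  zero : Φ (-1) = 0

lemma cpow_succ_mul (p : Nat.Primes) (s : ℂ) (r : ℕ) :
    ((p : ℕ) : ℂ) ^ (-(((r : ℂ) + 1) * s)) = (((p : ℕ) : ℂ) ^ (-s)) ^ (r + 1) := by
  rw [← Complex.cpow_nat_mul]
  congr 1
  push_cast
  ring

/-- bound for the terms of the local logarithm -/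
lemma norm_term_le (hk : 1 ≤ k) (ha : IsEigenform k N a) (hb : IsEigenform k M b) {s : ℂ}
    (hs : 1 < s.re) (p : Nat.Primes) (r : ℕ) :
    ‖((ntr k N a p (r + 1) * ntr k M b p (r + 1) : ℝ) : ℂ) *
      ((p : ℕ) : ℂ) ^ (-(((r : ℂ) + 1) * s)) / (r + 1)‖ ≤
      4 * ‖((p : ℕ) : ℂ) ^ (-s)‖ ^ (r + 1) := by
  rw [cpow_succ_mul, norm_div, norm_mul, norm_pow, Complex.norm_real, Real.norm_eq_abs, abs_mul]
  have h6 : |ntr k N a p (r + 1)| * |ntr k M b p (r + 1)| ≤ 2 * 2 :=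
    mul_le_mul (ntr_abs_le hk ha p.2 (Nat.succ_pos r)) (ntr_abs_le hk hb p.2 (Nat.succ_pos r))
      (abs_nonneg _) (by norm_num)
  have h7 : (1 : ℝ) ≤ ‖((r : ℂ) + 1)‖ := by
    have : ((r : ℂ) + 1) = ((r + 1 : ℕ) : ℂ) := by push_cast; ring
    rw [this, Complex.norm_natCast]
    push_cast
    linarith [Nat.cast_nonneg (α := ℝ) r]
  refine (div_le_self (by positivity) h7).trans ?_
  have h8 : (0 : ℝ) ≤ ‖((p : ℕ) : ℂ) ^ (-s)‖ ^ (r + 1) := by positivity
  nlinarith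

lemma geom_summable {s : ℂ} (hs : 1 < s.re) (p : Nat.Primes) :
    Summable fun r : ℕ => 4 * ‖((p : ℕ) : ℂ) ^ (-s)‖ ^ (r + 1) := by
  have h1 := (norm_Xp_lt hs p).2
  exact ((summable_nat_add_iff 1).2 (summable_geometric_of_lt_one (norm_nonneg _)
    (by linarith))).mul_left 4

lemma term_summable (hk : 1 ≤ k) (ha : IsEigenform k N a) (hb : IsEigenform k M b) {s : ℂ}
    (hs : 1 < s.re) (p : Nat.Primes) :
    Summable fun r : ℕ => ((ntr k N a p (r + 1) * ntr k M b p (r + 1) : ℝ) : ℂ) *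
      ((p : ℕ) : ℂ) ^ (-(((r : ℂ) + 1) * s)) / (r + 1) :=
  Summable.of_norm_bounded (geom_summable hs p) (norm_term_le hk ha hb hs p)

lemma LE_summable (hk : 1 ≤ k) (ha : IsEigenform k N a) (hb : IsEigenform k M b) {s : ℂ}
    (hs : 1 < s.re) : Summable fun p : Nat.Primes => locE k N M a b s p := by
  refine Summable.of_norm_bounded ?_ (fun p => norm_locE_le hk ha hb hs p)
  exact (Nat.Primes.summable_rpow.2 (by linarith)).mul_left 8

/-- the logarithm of `L(s, f × f) L(s, g × g) L(s, f × g) ^ 2` -/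
lemma LE_square (hk : 1 ≤ k) (ha : IsEigenform k N a) (hb : IsEigenform k M b) {s : ℂ}
    (hs : 1 < s.re) :
    LE k N N a a s + LE k M M b b s + 2 * LE k N M a b s =
      ∑' p : Nat.Primes, ∑' r : ℕ, (((ntr k N a p (r + 1) + ntr k M b p (r + 1)) ^ 2 : ℝ) : ℂ) *
      ((p : ℕ) : ℂ) ^ (-(((r : ℂ) + 1) * s)) / (r + 1) := by
  unfold LE
  rw [← tsum_mul_left, ← (LE_summable hk ha ha hs).tsum_add (LE_summable hk hb hb hs),
    ← ((LE_summable hk ha ha hs).add (LE_summable hk hb hb hs)).tsum_add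
      ((LE_summable hk ha hb hs).mul_left 2)]
  refine tsum_congr fun p => ?_
  unfold locE
  rw [← tsum_mul_left, ← (term_summable hk ha ha hs p).tsum_add (term_summable hk hb hb hs p),
    ← ((term_summable hk ha ha hs p).add (term_summable hk hb hb hs p)).tsum_add
      ((term_summable hk ha hb hs p).mul_left 2)]
  refine tsum_congr fun r => ?_
  push_cast
  ring

/-- `(s - z₀)` divides an entire function vanishing at `z₀`. -/
lemma exists_quotient {Φ : ℂ → ℂ} (hΦ : Differentiable ℂ Φ) {z₀ : ℂ} (h0 : Φ z₀ = 0) :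
    Differentiable ℂ (dslope Φ z₀) ∧ (∀ s, Φ s = (s - z₀) * dslope Φ z₀ s) ∧
      dslope Φ z₀ z₀ = deriv Φ z₀ := by
  refine ⟨?_, fun s => ?_, dslope_same _ _⟩
  · rw [← differentiableOn_univ] at hΦ ⊢
    exact (differentiableOn_dslope univ_mem).2 hΦ
  · have := sub_smul_dslope Φ z₀ s
    rw [smul_eq_mul, h0, sub_zero] at this
    exact this.symm

/-- The Rankin-Selberg `L`-function of `f × f` has a pole at `1`. -/
theorem diag_ne (hk : 1 ≤ k) (ha : IsEigenform k N a) {Φ : ℂ → ℂ} (hΦ : IsRS k N N a a Φ) :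
    Φ 1 ≠ 0 := by
  intro h0
  obtain ⟨hd, hq, -⟩ := exists_quotient hΦ.diff h0
  classical
  set c : ℕ → ℕ → ℝ := fun p r => if p.Prime ∧ 1 ≤ r then ntr k N a p r * ntr k N a p r else 0
    with hc
  have h1 : ∀ p r, 0 ≤ c p r := by
    intro p r
    simp only [hc]
    split_ifs
    · exact mul_self_nonneg _
    · exact le_rfl
  have h2 : ∀ p r, c p r ≤ 4 := by
    intro p r
    simp only [hc]
    split_ifs with h
    · have h3 := abs_le.1 (ntr_abs_le hk ha h.1 h.2)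
      nlinarith [h3.1, h3.2]
    · norm_num
  refine landau_exp h1 h2 hd (fun s hs => ?_) (y := -1) (by norm_num) ?_
  · have h3 := hq s
    rw [hΦ.eq s hs] at h3
    have hs1 : s - 1 ≠ 0 := by
      intro h4
      rw [sub_eq_zero] at h4
      rw [h4] at hs
      simp at hs
    rw [← mul_left_cancel₀ hs1 h3]
    congr 1
    unfold LE locE
    refine tsum_congr fun p => tsum_congr fun r => ?_
    simp only [hc]
    rw [if_pos ⟨p.2, Nat.succ_pos r⟩]
  · have h3 := hq (-1)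
    rw [hΦ.zero] at h3
    have h4 : (-1 - 1 : ℂ) ≠ 0 := by norm_num
    have h5 : dslope Φ 1 (-1) = 0 := by
      rcases mul_eq_zero.1 h3.symm with h | h
      · exact absurd h h4
      · exact h
    push_cast
    exact h5

/-- **Nonvanishing at `1`** of the Rankin-Selberg `L`-function of `f × g`. -/
theorem offdiag_ne (hk : 1 ≤ k) (ha : IsEigenform k N a) (hb : IsEigenform k M b)
    {Φa Φb Φ : ℂ → ℂ} (hΦa : IsRS k N N a a Φa) (hΦb : IsRS k M M b b Φb)
    (hΦ : IsRS k N M a b Φ) (h0 : Φ 1 = 0) : deriv Φ 1 ≠ 0 := by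
  intro h1
  obtain ⟨hd, hq, hdd⟩ := exists_quotient hΦ.diff h0
  rw [h1] at hdd
  obtain ⟨hd', hq', -⟩ := exists_quotient hd hdd
  set Ψ := dslope (dslope Φ 1) 1 with hΨ
  classical
  set c : ℕ → ℕ → ℝ := fun p r => if p.Prime ∧ 1 ≤ r then (ntr k N a p r + ntr k M b p r) ^ 2 else 0
    with hc
  have h2 : ∀ p r, 0 ≤ c p r := by
    intro p r
    simp only [hc]
    split_ifs
    · exact sq_nonneg _
    · exact le_rfl
  have h3 : ∀ p r, c p r ≤ 16 := by
    intro p r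
    simp only [hc]
    split_ifs with h
    · have h3 := abs_le.1 (ntr_abs_le hk ha h.1 h.2)
      have h4 := abs_le.1 (ntr_abs_le hk hb h.1 h.2)
      nlinarith [h3.1, h3.2, h4.1, h4.2]
    · norm_num
  refine landau_exp (Z := fun s => Φa s * Φb s * Ψ s ^ 2) h2 h3
    ((hΦa.diff.mul hΦb.diff).mul (hd'.pow 2)) (fun s hs => ?_) (y := -1) (by norm_num) ?_
  · have hs1 : s - 1 ≠ 0 := by
      intro h4
      rw [sub_eq_zero] at h4
      rw [h4] at hs
      simp at hs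
    have h4 := hq s
    rw [hq' s, hΦ.eq s hs] at h4
    have h5 : Complex.exp (LE k N M a b s) = (s - 1) * Ψ s := mul_left_cancel₀ hs1 h4
    have h6 : ∑' p : Nat.Primes, ∑' r : ℕ, ((c p (r + 1) : ℝ) : ℂ) *
        ((p : ℕ) : ℂ) ^ (-(((r : ℂ) + 1) * s)) / (r + 1) =
        LE k N N a a s + LE k M M b b s + 2 * LE k N M a b s := by
      rw [LE_square hk ha hb hs]
      refine tsum_congr fun p => tsum_congr fun r => ?_
      simp only [hc]
      rw [if_pos ⟨p.2, Nat.succ_pos r⟩]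
    rw [h6, Complex.exp_add, Complex.exp_add, two_mul, Complex.exp_add, h5]
    beta_reduce
    rw [hΦa.eq s hs, hΦb.eq s hs]
    ring
  · beta_reduce
    have h4 : Φa ((-1 : ℝ) : ℂ) = 0 := by
      push_cast
      exact hΦa.zero
    rw [h4]
    ring

/-- the coefficient at a prime -/
lemma ntr_one {p : ℕ} : ntr k N a p 1 = lam k a p := by
  unfold ntr mtr lam
  rw [pow_one]
  have h1 : (((1 : ℕ) : ℝ) * ((k : ℝ) - 1) / 2) = ((k : ℝ) - 1) / 2 := by push_cast; ring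
  rw [h1]
  split_ifs with h2 h3
  · rfl
  · norm_num at h3
  · rw [sub_zero]

lemma lam_prime_le (hk : 1 ≤ k) (ha : IsEigenform k N a) (p : Nat.Primes) : |lam k a p| ≤ 2 := by
  rw [← ntr_one (N := N)]
  exact ntr_abs_le hk ha p.2 le_rfl

/-- comparison of the local logarithm with its first term -/
lemma locE_sub (hk : 1 ≤ k) (ha : IsEigenform k N a) (hb : IsEigenform k M b) {s : ℂ}
    (hs : 1 < s.re) (p : Nat.Primes) :
    ‖locE k N M a b s p - ((lam k a p * lam k b p : ℝ) : ℂ) * ((p : ℕ) : ℂ) ^ (-s)‖ ≤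
      8 * ((p : ℕ) : ℝ) ^ (-2 : ℝ) := by
  obtain ⟨h1, h2⟩ := norm_Xp_lt hs p
  have h3 := (term_summable hk ha hb hs p).tsum_eq_zero_add
  have h4 : locE k N M a b s p - ((lam k a p * lam k b p : ℝ) : ℂ) * ((p : ℕ) : ℂ) ^ (-s) =
      ∑' r : ℕ, ((ntr k N a p (r + 1 + 1) * ntr k M b p (r + 1 + 1) : ℝ) : ℂ) *
      ((p : ℕ) : ℂ) ^ (-((((r + 1 : ℕ) : ℂ) + 1) * s)) / (((r + 1 : ℕ) : ℂ) + 1) := by
    unfold locE
    rw [h3]
    simp only [zero_add, ntr_one, Nat.cast_zero, one_mul, div_one]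
    ring
  rw [h4]
  set x : ℝ := ‖((p : ℕ) : ℂ) ^ (-s)‖ with hx
  have hx0 : 0 ≤ x := norm_nonneg _
  have h5 : ∀ r : ℕ, ‖((ntr k N a p (r + 1 + 1) * ntr k M b p (r + 1 + 1) : ℝ) : ℂ) *
      ((p : ℕ) : ℂ) ^ (-((((r + 1 : ℕ) : ℂ) + 1) * s)) / (((r + 1 : ℕ) : ℂ) + 1)‖ ≤
      4 * x ^ 2 * (1 / 2) ^ r := by
    intro r
    refine (norm_term_le hk ha hb hs p (r + 1)).trans ?_
    rw [← hx, show r + 1 + 1 = 2 + r by ring, pow_add, ← mul_assoc]
    exact mul_le_mul_of_nonneg_left (pow_le_pow_left₀ hx0 h2.le r) (by positivity)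
  have hsum : Summable fun r : ℕ => 4 * x ^ 2 * (1 / 2 : ℝ) ^ r :=
    (summable_geometric_of_lt_one (by norm_num) (by norm_num)).mul_left _
  have h9 := tsum_of_norm_bounded hsum.hasSum h5
  rw [tsum_mul_left, tsum_geometric_of_lt_one (by norm_num) (by norm_num)] at h9
  refine h9.trans ?_
  have h10 : x ≤ ((p : ℕ) : ℝ) ^ (-1 : ℝ) := by
    rw [h1]
    exact Real.rpow_le_rpow_of_exponent_le (by exact_mod_cast p.2.one_le) (by linarith)
  have h11 : x ^ 2 ≤ ((p : ℕ) : ℝ) ^ (-2 : ℝ) := by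
    calc x ^ 2 ≤ (((p : ℕ) : ℝ) ^ (-1 : ℝ)) ^ 2 := pow_le_pow_left₀ hx0 h10 2
      _ = ((p : ℕ) : ℝ) ^ (-2 : ℝ) := by
          rw [← Real.rpow_natCast, ← Real.rpow_mul (Nat.cast_nonneg _)]
          norm_num
  calc 4 * x ^ 2 * (1 - 1 / 2)⁻¹ = 8 * x ^ 2 := by norm_num; ring
    _ ≤ 8 * ((p : ℕ) : ℝ) ^ (-2 : ℝ) := mul_le_mul_of_nonneg_left h11 (by norm_num)

/-- comparison of the logarithm with the sum over the primes -/
lemma LE_sub_PS (hk : 1 ≤ k) (ha : IsEigenform k N a) (hb : IsEigenform k M b) {ε : ℝ}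
    (hε : 0 < ε) :
    |(LE k N M a b ((1 + ε : ℝ) : ℂ)).re - PS (fun p => lam k a p * lam k b p) ε| ≤ 8 * P2 := by
  set s : ℂ := ((1 + ε : ℝ) : ℂ) with hs
  have hs1 : 1 < s.re := by rw [hs, Complex.ofReal_re]; linarith
  have hterm : ∀ p : Nat.Primes, ((lam k a p * lam k b p : ℝ) : ℂ) * ((p : ℕ) : ℂ) ^ (-s) =
      ((lam k a p * lam k b p * ((p : ℕ) : ℝ) ^ (-(1 + ε)) : ℝ) : ℂ) := by
    intro p
    have h1 : ((p : ℕ) : ℂ) ^ (-s) = ((((p : ℕ) : ℝ) ^ (-(1 + ε)) : ℝ) : ℂ) := by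
      rw [Complex.ofReal_cpow (Nat.cast_nonneg _), hs]
      push_cast
      rfl
    rw [h1]
    push_cast
    ring
  have hPS : Summable fun p : Nat.Primes => lam k a p * lam k b p * ((p : ℕ) : ℝ) ^ (-(1 + ε)) := by
    refine PS_summable (c := fun p : Nat.Primes => lam k a p * lam k b p) (B := 4) (fun p => ?_) hε
    rw [abs_mul]
    calc |lam k a p| * |lam k b p| ≤ 2 * 2 :=
          mul_le_mul (lam_prime_le hk ha p) (lam_prime_le hk hb p) (abs_nonneg _) (by norm_num)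
      _ = 4 := by norm_num
  have h2 : (PS (fun p => lam k a p * lam k b p) ε : ℂ) =
      ∑' p : Nat.Primes, ((lam k a p * lam k b p : ℝ) : ℂ) * ((p : ℕ) : ℂ) ^ (-s) := by
    unfold PS
    rw [Complex.ofReal_tsum]
    exact tsum_congr fun p => (hterm p).symm
  have hS2 : Summable fun p : Nat.Primes => ((lam k a p * lam k b p : ℝ) : ℂ) *
      ((p : ℕ) : ℂ) ^ (-s) := by
    simp only [hterm]
    exact (Complex.ofRealCLM.summable hPS)
  have h3 : (LE k N M a b s).re - PS (fun p => lam k a p * lam k b p) ε =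
      (LE k N M a b s - (PS (fun p => lam k a p * lam k b p) ε : ℂ)).re := by
    rw [Complex.sub_re, Complex.ofReal_re]
  rw [h3]
  refine (Complex.abs_re_le_norm _).trans ?_
  rw [h2, LE, ← (LE_summable hk ha hb hs1).tsum_sub hS2]
  refine (tsum_of_norm_bounded (P2_summable.mul_left 8).hasSum
    (fun p => locE_sub hk ha hb hs1 p)).trans (le_of_eq ?_)
  rw [tsum_mul_left]
  rfl

/-- From a limit to the logarithmic asymptotics. -/
lemma LA_of_limit {H : ℝ → ℝ} {A : ℝ} (hA : 0 < A) {κ : ℕ}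
    (h : Tendsto (fun ε : ℝ => ε ^ κ * Real.exp (H ε)) (𝓝[>] 0) (𝓝 A)) : LA H κ := by
  have h1 := h.eventually (Icc_mem_nhds (a := A / 2) (b := 2 * A) (by linarith) (by linarith))
  refine ⟨|Real.log (A / 2)| + |Real.log (2 * A)|, ?_⟩
  filter_upwards [h1, self_mem_nhdsWithin] with ε h2 hε0
  have hε : (0 : ℝ) < ε := hε0
  have h3 : Real.log (ε ^ κ * Real.exp (H ε)) = H ε + κ * Real.log ε := by
    rw [Real.log_mul (pow_pos hε κ).ne' (Real.exp_pos _).ne', Real.log_exp, Real.log_pow]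
    ring
  rw [← h3, abs_le]
  have h4 := Real.log_le_log (by linarith) h2.1
  have h5 := Real.log_le_log (by positivity) h2.2
  constructor
  · have := neg_abs_le (Real.log (A / 2))
    have := abs_nonneg (Real.log (2 * A))
    linarith
  · have := le_abs_self (Real.log (2 * A))
    have := abs_nonneg (Real.log (A / 2))
    linarith

lemma tendsto_path : Tendsto (fun ε : ℝ => ((1 + ε : ℝ) : ℂ)) (𝓝[>] 0) (𝓝[≠] 1) := by
  rw [tendsto_nhdsWithin_iff]
  constructor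
  · have : Tendsto (fun ε : ℝ => ((1 + ε : ℝ) : ℂ)) (𝓝 0) (𝓝 ((1 + 0 : ℝ) : ℂ)) :=
      (Continuous.tendsto (by fun_prop) 0)
    simp only [add_zero, Complex.ofReal_one] at this
    exact this.mono_left nhdsWithin_le_nhds
  · filter_upwards [self_mem_nhdsWithin] with ε hε
    simp only [Set.mem_compl_iff, Set.mem_singleton_iff]
    intro h
    have h3 := congrArg Complex.re h
    simp only [Complex.ofReal_re, Complex.one_re] at h3
    have : (0 : ℝ) < ε := hε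
    linarith

lemma LA_PS_of_LE (hk : 1 ≤ k) (ha : IsEigenform k N a) (hb : IsEigenform k M b) {κ : ℝ}
    (h : LA (fun ε => (LE k N M a b ((1 + ε : ℝ) : ℂ)).re) κ) :
    LA (PS (fun p => lam k a p * lam k b p)) κ := by
  refine h.congr_bounded (C := 8 * P2) ?_
  filter_upwards [self_mem_nhdsWithin] with ε hε
  rw [abs_sub_comm]
  exact LE_sub_PS hk ha hb hε

/-- a pole -/
theorem LA_pole (hk : 1 ≤ k) (ha : IsEigenform k N a) (hb : IsEigenform k M b) {Φ : ℂ → ℂ}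
    (hΦ : IsRS k N M a b Φ) (h1 : Φ 1 ≠ 0) : LA (PS (fun p => lam k a p * lam k b p)) 1 := by
  refine LA_PS_of_LE hk ha hb ?_
  have h2 : Tendsto (fun ε : ℝ => ‖Φ ((1 + ε : ℝ) : ℂ)‖) (𝓝[>] 0) (𝓝 ‖Φ 1‖) :=
    ((hΦ.diff.continuous.tendsto 1).comp (tendsto_path.mono_right nhdsWithin_le_nhds)).norm
  have h3 := LA_of_limit (κ := 1) (H := fun ε => (LE k N M a b ((1 + ε : ℝ) : ℂ)).re)
    (norm_pos_iff.2 h1) (h2.congr' ?_)
  · simpa using h3
  · filter_upwards [self_mem_nhdsWithin] with ε hε0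
    have hε : (0 : ℝ) < ε := hε0
    rw [hΦ.eq _ (by rw [Complex.ofReal_re]; linarith), norm_mul, Complex.norm_exp]
    have h4 : (((1 + ε : ℝ) : ℂ) - 1) = (ε : ℂ) := by push_cast; ring
    rw [h4, Complex.norm_real, Real.norm_eq_abs, abs_of_pos hε, pow_one]

/-- no pole and no zero -/
theorem LA_nopole (hk : 1 ≤ k) (ha : IsEigenform k N a) (hb : IsEigenform k M b) {Φ : ℂ → ℂ}
    (hΦ : IsRS k N M a b Φ) (h0 : Φ 1 = 0) (h1 : deriv Φ 1 ≠ 0) :
    LA (PS (fun p => lam k a p * lam k b p)) 0 := by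
  refine LA_PS_of_LE hk ha hb ?_
  obtain ⟨hd, hq, hdd⟩ := exists_quotient hΦ.diff h0
  have h2 : Tendsto (fun ε : ℝ => ‖dslope Φ 1 ((1 + ε : ℝ) : ℂ)‖) (𝓝[>] 0) (𝓝 ‖dslope Φ 1 1‖) :=
    ((hd.continuous.tendsto 1).comp (tendsto_path.mono_right nhdsWithin_le_nhds)).norm
  rw [hdd] at h2
  have h3 := LA_of_limit (κ := 0) (H := fun ε => (LE k N M a b ((1 + ε : ℝ) : ℂ)).re)
    (norm_pos_iff.2 h1) (h2.congr' ?_)
  · simpa using h3
  · filter_upwards [self_mem_nhdsWithin] with ε hε0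
    have hε : (0 : ℝ) < ε := hε0
    have h4 : (((1 + ε : ℝ) : ℂ) - 1) = (ε : ℂ) := by push_cast; ring
    have h5 := hq ((1 + ε : ℝ) : ℂ)
    rw [hΦ.eq _ (by rw [Complex.ofReal_re]; linarith)] at h5
    have h6 : (((1 + ε : ℝ) : ℂ) - 1) ≠ 0 := by
      rw [h4]
      exact_mod_cast hε.ne'
    rw [← mul_left_cancel₀ h6 h5, Complex.norm_exp, pow_zero, one_mul]

end

end Pool.Agent.Work.MP_2b9663_nt.Mo
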