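import Pool.Agent.Work.MP_2b9663_nt.Mo.Defs

set_option autoImplicit false

/-! Module P: the Petersson product of two cusp forms, and the Rankin-Selberg integral over the
strip `0 ≤ Re z < 1`. -/

namespace Pool.Agent.Work.MP_2b9663_nt.Mo

open UpperHalfPlane ModularGroup MeasureTheory CongruenceSubgroup Set
open scoped MatrixGroups Modular NNReal ComplexConjugate

theorem RSFun.bdd {N : ℕ} [NeZero N] {F : ℍ → ℂ} (hF : RSFun N F) : ∃ C : ℝ, ∀ z, ‖F z‖ ≤ C := by
  have h := exists_bound_of_subgroup_invariant_of_isBigO (Γ := Gamma0 N) hF.cont (le_refl (0:ℝ))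
    (fun g => ?_) hF.inv
  · obtain ⟨C, hC⟩ := h
    exact ⟨C, fun z => by simpa using hC z⟩
  · obtain ⟨C, a, ha, hC⟩ := hF.decay g
    have hb : IsBoundedAtImInfty (fun τ => F (g • τ)) := by
      rw [UpperHalfPlane.isBoundedAtImInfty_iff]
      refine ⟨|C|, 1/2, fun z hz => (hC z hz).trans ?_⟩
      calc C * Real.exp (-(a * z.im)) ≤ |C| * 1 := by
            apply mul_le_mul (le_abs_self C) _ (Real.exp_pos _).le (abs_nonneg _)
            rw [Real.exp_le_one_iff]
            have := z.im_pos
            have : 0 < a * z.im := by positivity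
            linarith
        _ = |C| := mul_one _
    simpa [IsBoundedAtImInfty, Filter.BoundedAtFilter, Pi.one_def] using hb

open ConjAct Pointwise in
theorem RSFun.petersson {N k : ℕ} [NeZero N]
    (f g : CuspForm (Gamma0 N : Subgroup (GL (Fin 2) ℝ)) (k : ℤ)) :
    RSFun N (UpperHalfPlane.petersson k f g) := by
  refine ⟨fun γ hγ z => ?_, ?_, fun γ => ?_⟩
  · have : (Matrix.SpecialLinearGroup.mapGL ℝ γ) ∈ (Gamma0 N : Subgroup (GL (Fin 2) ℝ)) :=
      Subgroup.mem_map_of_mem _ hγ
    exact SlashInvariantFormClass.petersson_smul (k := (k:ℤ)) (f := f) (f' := g) (τ := z) this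
  · fun_prop
  · obtain ⟨C₀, hC₀⟩ := CuspFormClass.petersson_bounded_left (k : ℤ)
      (Gamma0 N : Subgroup (GL (Fin 2) ℝ)) f g
    have harith : ((ConjAct.toConjAct (γ : GL (Fin 2) ℝ)⁻¹) •
        (Gamma0 N : Subgroup (GL (Fin 2) ℝ))).IsArithmetic := by
      simpa [(show Rat.castHom ℝ = algebraMap ℚ ℝ by rfl), map_inv, Matrix.SpecialLinearGroup.map_mapGL]
        using! Subgroup.IsArithmetic.conj (Gamma0 N : Subgroup (GL (Fin 2) ℝ))
          (Matrix.SpecialLinearGroup.mapGL ℚ γ)⁻¹
    obtain ⟨a, ha, hO⟩ := (CuspFormClass.zero_at_infty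
      (CuspForm.translate f (γ : GL (Fin 2) ℝ))).petersson_exp_decay_left (k : ℤ) _
      (CuspForm.translate g (γ : GL (Fin 2) ℝ))
    have hO' : (fun τ => UpperHalfPlane.petersson k f g (γ • τ)) =O[atImInfty]
        fun τ => Real.exp (-a * im τ) := by
      refine hO.congr_left fun τ => ?_
      rw [← petersson_slash_SL]
      rfl
    obtain ⟨C, hC⟩ := hO'.bound
    rw [atImInfty, Filter.eventually_comap, Filter.eventually_atTop] at hC
    obtain ⟨A, hA⟩ := hC
    refine ⟨max C (C₀ * Real.exp (a * max A 0)), a, ha, fun z _ => ?_⟩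
    rcases le_total A z.im with hz | hz
    · have := hA z.im hz z rfl
      rw [Real.norm_of_nonneg (Real.exp_pos _).le, neg_mul] at this
      exact this.trans (mul_le_mul_of_nonneg_right (le_max_left _ _) (Real.exp_pos _).le)
    · have h0 : 0 ≤ C₀ := (norm_nonneg _).trans (hC₀ z)
      calc ‖UpperHalfPlane.petersson k f g (γ • z)‖ ≤ C₀ := hC₀ _
        _ ≤ C₀ * Real.exp (a * max A 0) * Real.exp (-(a * z.im)) := by
          rw [mul_assoc, ← Real.exp_add]
          refine le_mul_of_one_le_right h0 (Real.one_le_exp ?_)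
          have : z.im ≤ max A 0 := hz.trans (le_max_left _ _)
          nlinarith
        _ ≤ _ := mul_le_mul_of_nonneg_right (le_max_right _ _) (Real.exp_pos _).le

/-- the coordinates `(Re z, Im z)` -/
noncomputable def reim (z : ℍ) : ℝ × ℝ := (z.re, z.im)

theorem reim_mp : MeasurePreserving reim ((volume : Measure ℂ).comap UpperHalfPlane.coe)
    ((volume : Measure (ℝ × ℝ)).restrict (univ ×ˢ Ioi (0:ℝ))) := by
  have h1 : MeasurePreserving UpperHalfPlane.coe ((volume : Measure ℂ).comap UpperHalfPlane.coe)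
      ((volume : Measure ℂ).restrict (range UpperHalfPlane.coe)) :=
    ⟨measurable_coe, by rw [measurableEmbedding_coe.map_comap]⟩
  have h2 := Complex.volume_preserving_equiv_real_prod.restrict_preimage
    (s := (univ : Set ℝ) ×ˢ Ioi (0:ℝ)) (MeasurableSet.univ.prod measurableSet_Ioi)
  have h3 : Complex.measurableEquivRealProd ⁻¹' ((univ : Set ℝ) ×ˢ Ioi (0:ℝ)) =
      range UpperHalfPlane.coe := by
    ext z
    simp only [mem_preimage, mem_prod, mem_univ, mem_Ioi, true_and, mem_range]
    constructor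
    · intro h
      exact ⟨⟨z, h⟩, rfl⟩
    · rintro ⟨w, rfl⟩
      exact w.im_pos
  rw [h3] at h2
  exact h2.comp h1

theorem reim_me : MeasurableEmbedding reim := by
  have : reim = Complex.measurableEquivRealProd ∘ UpperHalfPlane.coe := by
    funext z; rfl
  rw [this]
  exact Complex.measurableEquivRealProd.measurableEmbedding.comp measurableEmbedding_coe

theorem dens_meas : Measurable fun z : ℍ ↦ (1 / NNReal.mk z.im z.im_pos.le : ℝ≥0) ^ 2 := by
  have : Measurable fun z : ℍ => z.im := continuous_im.measurable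
  have h2 : Measurable fun z : ℍ => NNReal.mk z.im z.im_pos.le := this.subtype_mk
  exact (measurable_const.div h2).pow_const 2

theorem integral_H {φ : ℍ → ℂ} {G : ℝ × ℝ → ℂ} (hG : ∀ z : ℍ, G (z.re, z.im) = φ z) :
    ∫ z, φ z = ∫ p in (univ : Set ℝ) ×ˢ Ioi (0:ℝ), ((1 / p.2 ^ 2 : ℝ) : ℂ) * G p := by
  rw [volume_def, integral_withDensity_eq_integral_smul dens_meas, ← reim_mp.integral_comp reim_me]
  refine integral_congr_ae (Filter.Eventually.of_forall fun z => ?_)
  simp only [reim, hG, NNReal.smul_def, Complex.real_smul]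
  norm_num

theorem integrable_H {φ : ℍ → ℂ} {G : ℝ × ℝ → ℂ} (hG : ∀ z : ℍ, G (z.re, z.im) = φ z) :
    Integrable φ ↔ IntegrableOn (fun p => ((1 / p.2 ^ 2 : ℝ) : ℂ) * G p)
      ((univ : Set ℝ) ×ˢ Ioi (0:ℝ)) := by
  rw [volume_def, integrable_withDensity_iff_integrable_smul dens_meas, IntegrableOn,
    ← reim_mp.integrable_comp_emb reim_me]
  refine integrable_congr (Filter.Eventually.of_forall fun z => ?_)
  simp only [Function.comp, reim, hG, NNReal.smul_def, Complex.real_smul]
  norm_num

theorem integral_char (d : ℤ) : ∫ x in Ico (0:ℝ) 1, Complex.exp (2 * Real.pi * Complex.I * d * x) =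
    if d = 0 then 1 else 0 := by
  rw [integral_Ico_eq_integral_Ioc, ← intervalIntegral.integral_of_le zero_le_one]
  split_ifs with h
  · simp [h]
  · have hc : (2 * Real.pi * Complex.I * d : ℂ) ≠ 0 := by
      simp [h, Real.pi_ne_zero]
    rw [integral_exp_mul_complex hc]
    have : Complex.exp (2 * Real.pi * Complex.I * d) = 1 := by
      rw [Complex.exp_eq_one_iff]
      exact ⟨d, by ring⟩
    simp [this]

theorem parseval {A B : ℕ → ℂ} (hA : Summable fun n => ‖A n‖) (hB : Summable fun n => ‖B n‖) :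
    ∫ x in Ico (0:ℝ) 1, conj (∑' n : ℕ, A n * Complex.exp (2 * Real.pi * Complex.I * n * x)) *
      ∑' n : ℕ, B n * Complex.exp (2 * Real.pi * Complex.I * n * x) = ∑' n, conj (A n) * B n := by
  have hne : ∀ (n : ℕ) (x : ℝ), ‖Complex.exp (2 * Real.pi * Complex.I * n * x)‖ = 1 := by
    intro n x
    rw [show (2 * Real.pi * Complex.I * n * x : ℂ) = ((2 * Real.pi * n * x : ℝ) : ℂ) * Complex.I by
      push_cast; ring]
    exact Complex.norm_exp_ofReal_mul_I _
  have hprod : ∀ x : ℝ, conj (∑' n : ℕ, A n * Complex.exp (2 * Real.pi * Complex.I * n * x)) *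
      ∑' n : ℕ, B n * Complex.exp (2 * Real.pi * Complex.I * n * x) =
      ∑' p : ℕ × ℕ, (conj (A p.1) * B p.2) *
        Complex.exp (2 * Real.pi * Complex.I * ((p.2 : ℤ) - (p.1 : ℤ) : ℤ) * x) := by
    intro x
    rw [Complex.conj_tsum, tsum_mul_tsum_of_summable_norm]
    · refine tsum_congr fun p => ?_
      rw [map_mul, ← Complex.exp_conj]
      rw [show conj (A p.1) * Complex.exp (conj (2 * Real.pi * Complex.I * p.1 * x)) *
        (B p.2 * Complex.exp (2 * Real.pi * Complex.I * p.2 * x)) =
        conj (A p.1) * B p.2 * (Complex.exp (conj (2 * Real.pi * Complex.I * p.1 * x)) *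
          Complex.exp (2 * Real.pi * Complex.I * p.2 * x)) by ring, ← Complex.exp_add]
      congr 2
      simp only [map_mul, Complex.conj_ofReal, Complex.conj_I, map_natCast]
      rw [show (conj (2:ℂ)) = 2 from Complex.conj_ofNat 2]
      push_cast
      ring
    · simpa [hne] using hA
    · simpa [hne] using hB
  simp_rw [hprod]
  have hs : Summable fun p : ℕ × ℕ => ‖A p.1‖ * ‖B p.2‖ := by
    have := hA.mul_of_nonneg hB (fun _ => norm_nonneg _) (fun _ => norm_nonneg _)
    exact this
  have hnorm : ∀ (p : ℕ × ℕ) (x : ℝ), ‖(conj (A p.1) * B p.2) *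
        Complex.exp (2 * Real.pi * Complex.I * ((p.2 : ℤ) - (p.1 : ℤ) : ℤ) * x)‖ =
        ‖A p.1‖ * ‖B p.2‖ := by
    intro p x
    rw [norm_mul, norm_mul, RCLike.norm_conj,
      show (2 * Real.pi * Complex.I * ((p.2 : ℤ) - (p.1 : ℤ) : ℤ) * x : ℂ) =
        ((2 * Real.pi * ((p.2 : ℤ) - (p.1 : ℤ) : ℤ) * x : ℝ) : ℂ) * Complex.I by
      push_cast; ring, Complex.norm_exp_ofReal_mul_I, mul_one]
  have hint : ∀ p : ℕ × ℕ, Integrable (fun x : ℝ => (conj (A p.1) * B p.2) *
        Complex.exp (2 * Real.pi * Complex.I * ((p.2 : ℤ) - (p.1 : ℤ) : ℤ) * x))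
        (volume.restrict (Ico (0:ℝ) 1)) := by
    intro p
    refine Integrable.mono' (g := fun _ => ‖A p.1‖ * ‖B p.2‖) ?_ ?_ ?_
    · exact integrable_const _
    · exact (by fun_prop : Continuous fun x : ℝ => (conj (A p.1) * B p.2) *
        Complex.exp (2 * Real.pi * Complex.I * ((p.2 : ℤ) - (p.1 : ℤ) : ℤ) * x)).aestronglyMeasurable
    · exact Filter.Eventually.of_forall fun x => (hnorm p x).le
  rw [← integral_tsum_of_summable_integral_norm hint ?_]
  · simp_rw [integral_const_mul, integral_char]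
    have hinj : Function.Injective (fun n : ℕ => (n, n)) := fun a b h => (Prod.mk.inj h).1
    rw [← hinj.tsum_eq]
    · simp
    · intro p hp
      rw [Function.mem_support] at hp
      have : (p.2 : ℤ) - (p.1 : ℤ) = 0 := by
        by_contra h
        simp [h] at hp
      refine ⟨p.1, ?_⟩
      ext <;> simp
      omega
  · simp_rw [hnorm]
    simpa using hs

theorem measurableSet_strip : MeasurableSet strip := by
  have : Measurable fun z : ℍ => z.re := continuous_re.measurable
  exact (measurableSet_le measurable_const this).inter (measurableSet_lt this measurable_const)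

theorem strip_integrable {N : ℕ} [NeZero N] {F : ℍ → ℂ} (hF : RSFun N F) {s : ℂ} (hs : 1 < s.re) :
    Integrable fun z : ℍ => (strip.indicator (fun z : ℍ => (z.im : ℂ) ^ s)) z * F z := by
  obtain ⟨C₀, hC₀⟩ := hF.bdd
  obtain ⟨C₁, a, ha, hC₁⟩ := hF.decay 1
  obtain ⟨C, hC⟩ : ∃ C : ℝ, ∀ z : ℍ, ‖F z‖ ≤ C * Real.exp (-(a * z.im)) := by
    refine ⟨max C₁ (C₀ * Real.exp (a * (1 / 2))), fun z => ?_⟩
    rcases le_total (1 / 2) z.im with hz | hz
    · have := hC₁ z hz
      rw [one_smul] at this
      exact this.trans (mul_le_mul_of_nonneg_right (le_max_left _ _) (Real.exp_pos _).le)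
    · have h0 : 0 ≤ C₀ := (norm_nonneg _).trans (hC₀ z)
      calc ‖F z‖ ≤ C₀ := hC₀ _
        _ ≤ C₀ * Real.exp (a * (1 / 2)) * Real.exp (-(a * z.im)) := by
          rw [mul_assoc, ← Real.exp_add]
          refine le_mul_of_one_le_right h0 (Real.one_le_exp ?_)
          nlinarith
        _ ≤ _ := mul_le_mul_of_nonneg_right (le_max_right _ _) (Real.exp_pos _).le
  have hb : Integrable fun z : ℍ => (((strip.indicator (fun z : ℍ => z.im ^ s.re)) z *
      (C * Real.exp (-(a * z.im))) : ℝ) : ℂ) := by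
    rw [integrable_H (G := fun p : ℝ × ℝ => (((Ico (0:ℝ) 1).indicator (fun _ => (1:ℝ)) p.1 *
      (C * (p.2 ^ s.re * Real.exp (-(a * p.2)))) : ℝ) : ℂ))]
    · have h1 : Integrable ((Ico (0:ℝ) 1).indicator (fun _ => (1:ℝ))) (volume.restrict univ) := by
        rw [Measure.restrict_univ]
        exact (integrable_indicator_iff measurableSet_Ico).mpr (by simp)
      have h2 : Integrable (fun y : ℝ => C * (y ^ (s.re - 2) * Real.exp (-a * y ^ (1:ℝ))))
          (volume.restrict (Ioi (0:ℝ))) :=
        (integrableOn_rpow_mul_exp_neg_mul_rpow (by linarith) one_pos ha).const_mul _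
      have h3 := (h1.mul_prod h2).ofReal (𝕜 := ℂ)
      rw [Measure.prod_restrict] at h3
      refine IntegrableOn.congr_fun h3 (fun p hp => ?_) (MeasurableSet.univ.prod measurableSet_Ioi)
      have hp2 : 0 < p.2 := hp.2
      simp only [Real.rpow_one]
      rw [Real.rpow_sub hp2, Real.rpow_two]
      simp only [RCLike.ofReal_eq_complex_ofReal]
      push_cast
      ring_nf
    · intro z
      by_cases hz : z ∈ strip
      · have hz' : z.re ∈ Ico (0:ℝ) 1 := hz
        simp only [indicator_of_mem hz, indicator_of_mem hz']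
        push_cast
        ring
      · have hz' : z.re ∉ Ico (0:ℝ) 1 := hz
        simp only [indicator_of_notMem hz, indicator_of_notMem hz']
        simp
  have hmeas : AEStronglyMeasurable (fun z : ℍ =>
      (strip.indicator (fun z : ℍ => (z.im : ℂ) ^ s)) z * F z) := by
    refine AEStronglyMeasurable.mul ?_ hF.cont.aestronglyMeasurable
    refine AEStronglyMeasurable.indicator ?_ measurableSet_strip
    refine Continuous.aestronglyMeasurable ?_
    refine continuous_iff_continuousAt.mpr fun z => ?_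
    exact ContinuousAt.cpow (f := fun z : ℍ => (z.im : ℂ)) (g := fun _ => s)
      (Complex.continuous_ofReal.comp continuous_im).continuousAt continuousAt_const
      (Or.inl (by simpa using z.im_pos))
  refine hb.mono hmeas (Filter.Eventually.of_forall fun z => ?_)
  rw [Complex.norm_real, norm_mul, norm_mul]
  refine mul_le_mul (le_of_eq ?_) ((hC z).trans (le_abs_self _)) (norm_nonneg _) (norm_nonneg _)
  by_cases hz : z ∈ strip
  · rw [indicator_of_mem hz, indicator_of_mem hz, Complex.norm_cpow_eq_rpow_re_of_pos z.im_pos,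
      Real.norm_of_nonneg (Real.rpow_nonneg z.im_pos.le _)]
  · rw [indicator_of_notMem hz, indicator_of_notMem hz]
    simp

theorem strip_integral {k : ℕ} (hk : 1 ≤ k) (f g : ℍ → ℂ) (a b : ℕ → ℝ)
    (hf : ∀ z : ℍ, HasSum (fun n : ℕ => (a n : ℂ) * Complex.exp (2 * Real.pi * Complex.I * n * z)) (f z))
    (hg : ∀ z : ℍ, HasSum (fun n : ℕ => (b n : ℂ) * Complex.exp (2 * Real.pi * Complex.I * n * z)) (g z))
    (a0 : a 0 = 0) {s : ℂ} (hs : 1 < s.re)
    (hsum : Summable fun n : ℕ => |a n * b n| * (n : ℝ) ^ (-(s.re + k - 1)))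
    (hint : Integrable fun z : ℍ => (strip.indicator (fun z : ℍ => (z.im : ℂ) ^ s)) z *
      UpperHalfPlane.petersson k f g z) :
    ∫ z, (strip.indicator (fun z : ℍ => (z.im : ℂ) ^ s)) z * UpperHalfPlane.petersson k f g z =
      Complex.Gamma (s + k - 1) * (4 * Real.pi : ℂ) ^ (-(s + k - 1)) *
        ∑' n : ℕ, ((a n * b n : ℝ) : ℂ) * (n : ℂ) ^ (-(s + k - 1)) := by
  let G : ℝ × ℝ → ℂ := fun p => (Ico (0:ℝ) 1).indicator (fun _ => ((p.2 : ℂ) ^ s)) p.1 *
    UpperHalfPlane.petersson k f g (ofComplex (p.1 + p.2 * Complex.I))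
  have hG : ∀ z : ℍ, G (z.re, z.im) = (strip.indicator (fun z : ℍ => (z.im : ℂ) ^ s)) z *
      UpperHalfPlane.petersson k f g z := by
    intro z
    have h1 : ofComplex ((z.re : ℂ) + z.im * Complex.I) = z := by
      have : ((z.re : ℂ) + z.im * Complex.I) = (z : ℂ) := by
        apply Complex.ext <;> simp
      rw [this, ofComplex_apply]
    simp only [G, h1]
    congr 1
  rw [integrable_H hG] at hint
  rw [integral_H hG]
  have hprod : (volume : Measure (ℝ × ℝ)).restrict ((univ : Set ℝ) ×ˢ Ioi (0:ℝ)) =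
      (volume : Measure ℝ).prod ((volume : Measure ℝ).restrict (Ioi (0:ℝ))) := by
    rw [Measure.volume_eq_prod, ← Measure.prod_restrict, Measure.restrict_univ]
  rw [IntegrableOn, hprod] at hint
  rw [hprod, integral_prod_symm _ hint]
  have hin : ∀ y ∈ Ioi (0:ℝ), (∫ x : ℝ, ((1 / y ^ 2 : ℝ) : ℂ) * G (x, y)) =
      (y : ℂ) ^ ((s + k - 1) - 1) • ∑' n : ℕ, (((a n * b n : ℝ) : ℂ) *
        ((Real.exp (-(4 * Real.pi * n) * y) : ℝ) : ℂ)) := by
    intro y hy
    have hy0 : 0 < y := hy
    have hyc : (y : ℂ) ≠ 0 := by exact_mod_cast hy0.ne'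
    have him : ∀ x : ℝ, 0 < ((x : ℂ) + y * Complex.I).im := by
      intro x
      simpa using hy0
    let A : ℕ → ℂ := fun n => ((a n * Real.exp (-(2 * Real.pi * n) * y) : ℝ) : ℂ)
    let B : ℕ → ℂ := fun n => ((b n * Real.exp (-(2 * Real.pi * n) * y) : ℝ) : ℂ)
    have hexp : ∀ (n : ℕ) (x : ℝ), Complex.exp (2 * Real.pi * Complex.I * n *
        ((x : ℂ) + y * Complex.I)) = ((Real.exp (-(2 * Real.pi * n) * y) : ℝ) : ℂ) *
          Complex.exp (2 * Real.pi * Complex.I * n * x) := by
      intro n x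
      rw [Complex.ofReal_exp, ← Complex.exp_add]
      congr 1
      push_cast
      linear_combination (2 * Real.pi * n * y : ℂ) * Complex.I_sq
    have hfx : ∀ x : ℝ, HasSum (fun n : ℕ => A n * Complex.exp (2 * Real.pi * Complex.I * n * x))
        (f (ofComplex ((x : ℂ) + y * Complex.I))) := by
      intro x
      have := hf (ofComplex ((x : ℂ) + y * Complex.I))
      rw [ofComplex_apply_of_im_pos (him x)] at this ⊢
      refine this.congr_fun fun n => ?_
      simp only [A]
      rw [hexp]
      push_cast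
      ring
    have hgx : ∀ x : ℝ, HasSum (fun n : ℕ => B n * Complex.exp (2 * Real.pi * Complex.I * n * x))
        (g (ofComplex ((x : ℂ) + y * Complex.I))) := by
      intro x
      have := hg (ofComplex ((x : ℂ) + y * Complex.I))
      rw [ofComplex_apply_of_im_pos (him x)] at this ⊢
      refine this.congr_fun fun n => ?_
      simp only [B]
      rw [hexp]
      push_cast
      ring
    have hA : Summable fun n => ‖A n‖ := by
      have := (hfx 0).summable.norm
      simpa using this
    have hB : Summable fun n => ‖B n‖ := by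
      have := (hgx 0).summable.norm
      simpa using this
    have hP := parseval hA hB
    simp_rw [fun x : ℝ => (hfx x).tsum_eq, fun x : ℝ => (hgx x).tsum_eq] at hP
    have hset : ∀ x : ℝ, ((1 / y ^ 2 : ℝ) : ℂ) * G (x, y) =
        (Ico (0:ℝ) 1).indicator (fun x => (((1 / y ^ 2 : ℝ) : ℂ) * (y : ℂ) ^ s * (y : ℂ) ^ k) *
          (conj (f (ofComplex ((x : ℂ) + y * Complex.I))) *
            g (ofComplex ((x : ℂ) + y * Complex.I)))) x := by
      intro x
      by_cases hx : x ∈ Ico (0:ℝ) 1
      · simp only [G, indicator_of_mem hx, UpperHalfPlane.petersson]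
        have : (ofComplex ((x : ℂ) + y * Complex.I)).im = y := by
          rw [ofComplex_apply_of_im_pos (him x)]
          simp [UpperHalfPlane.im]
        rw [this]
        simp only [zpow_natCast]
        ring
      · simp only [G, indicator_of_notMem hx]
        simp
    simp_rw [hset]
    rw [integral_indicator measurableSet_Ico, integral_const_mul, hP, smul_eq_mul]
    congr 1
    · rw [show s + k - 1 - 1 = s + (k : ℂ) - 2 by ring, Complex.cpow_sub _ _ hyc,
        Complex.cpow_add _ _ hyc, Complex.cpow_natCast]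
      rw [show (2 : ℂ) = ((2 : ℕ) : ℂ) by norm_num, Complex.cpow_natCast]
      push_cast
      ring
    · refine tsum_congr fun n => ?_
      simp only [A, B, Complex.conj_ofReal]
      rw [← Complex.ofReal_mul, ← Complex.ofReal_mul]
      congr 1
      rw [show -(4 * Real.pi * n) * y = -(2 * Real.pi * n) * y + -(2 * Real.pi * n) * y by ring,
        Real.exp_add]
      ring
  rw [setIntegral_congr_fun measurableSet_Ioi hin]
  have hre : (s + k - 1).re = s.re + k - 1 := by simp
  have hpos : 0 < (s + k - 1).re := by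
    rw [hre]
    have : (0:ℝ) ≤ k := Nat.cast_nonneg k
    linarith
  have hM := hasSum_mellin (a := fun n : ℕ => ((a n * b n : ℝ) : ℂ))
    (p := fun n : ℕ => 4 * Real.pi * n)
    (F := fun y => ∑' n : ℕ, (((a n * b n : ℝ) : ℂ) *
        ((Real.exp (-(4 * Real.pi * n) * y) : ℝ) : ℂ))) (s := s + k - 1) ?_ hpos ?_ ?_
  · rw [mellin] at hM
    rw [← hM.tsum_eq, ← tsum_mul_left]
    refine tsum_congr fun n => ?_
    rcases Nat.eq_zero_or_pos n with rfl | hn
    · simp [a0]
    · have hn' : (0:ℝ) < n := by exact_mod_cast hn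
      have h4 : (0:ℝ) ≤ 4 * Real.pi := by positivity
      rw [Complex.ofReal_mul (4 * Real.pi) n, Complex.mul_cpow_ofReal_nonneg h4 hn'.le,
        Complex.cpow_neg, Complex.cpow_neg]
      push_cast
      field_simp
  · intro n
    rcases Nat.eq_zero_or_pos n with rfl | hn
    · left
      simp [a0]
    · right
      positivity
  · intro t ht
    have ht0 : 0 < t := ht
    refine Summable.hasSum ?_
    have hz : 0 < ((t : ℂ) * Complex.I).im := by simpa using ht0
    have hexp : ∀ n : ℕ, Complex.exp (2 * Real.pi * Complex.I * n * ((t : ℂ) * Complex.I)) =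
        ((Real.exp (-(2 * Real.pi * n) * t) : ℝ) : ℂ) := by
      intro n
      rw [Complex.ofReal_exp]
      congr 1
      push_cast
      linear_combination (2 * Real.pi * n * t : ℂ) * Complex.I_sq
    have h1 : Summable fun n : ℕ => ‖(a n : ℂ) * ((Real.exp (-(2 * Real.pi * n) * t) : ℝ) : ℂ)‖ := by
      refine (hf ⟨(t : ℂ) * Complex.I, hz⟩).summable.norm.congr fun n => ?_
      rw [← hexp n]
    have h2 : Summable fun n : ℕ => ‖(b n : ℂ) * ((Real.exp (-(2 * Real.pi * n) * t) : ℝ) : ℂ)‖ := by
      refine (hg ⟨(t : ℂ) * Complex.I, hz⟩).summable.norm.congr fun n => ?_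
      rw [← hexp n]
    have h3 := summable_mul_of_summable_norm h1 h2
    have hinj : Function.Injective (fun n : ℕ => (n, n)) := fun a b h => (Prod.mk.inj h).1
    refine (h3.comp_injective hinj).congr fun n => ?_
    simp only [Function.comp]
    rw [show -(4 * Real.pi * n) * t = -(2 * Real.pi * n) * t + -(2 * Real.pi * n) * t by ring,
      Real.exp_add]
    push_cast
    ring
  · refine (hsum.mul_left ((4 * Real.pi) ^ (-(s.re + k - 1)))).congr fun n => ?_
    rw [hre, Complex.norm_real, Real.norm_eq_abs]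
    have h4 : (0:ℝ) ≤ 4 * Real.pi := by positivity
    rw [Real.mul_rpow h4 (Nat.cast_nonneg n), Real.rpow_neg h4, Real.rpow_neg (Nat.cast_nonneg n)]
    field_simp

end Pool.Agent.Work.MP_2b9663_nt.Mo
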