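import Pool.Agent.Work.MP_2b9663_nt.Mo.Defs

set_option autoImplicit false

/-! Unfolding over the standard fundamental domain of `SL(2, ℤ)`. -/

namespace Pool.Agent.Work.MP_2b9663_nt.Mo

open UpperHalfPlane ModularGroup MeasureTheory CongruenceSubgroup Set
open scoped MatrixGroups Modular

instance countable_sl : Countable SL(2, ℤ) := by
  haveI : Countable (Matrix (Fin 2) (Fin 2) ℤ) := inferInstanceAs (Countable (Fin 2 → Fin 2 → ℤ))
  exact Subtype.countable

theorem mp_smul (γ : SL(2, ℤ)) : MeasurePreserving (fun z : ℍ => γ • z) volume volume :=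
  measurePreserving_smul (γ : GL (Fin 2) ℝ) volume

theorem me_smul (γ : SL(2, ℤ)) : MeasurableEmbedding (fun z : ℍ => γ • z) :=
  (MeasurableEquiv.smul (γ : GL (Fin 2) ℝ)).measurableEmbedding

/-! ### The boundary of the fundamental domain is a null set -/

theorem volume_eq_zero {s : Set ℍ} (h : volume (UpperHalfPlane.coe '' s) = 0) : volume s = 0 := by
  rw [volume_eq_lintegral, Measure.restrict_eq_zero.2 h, lintegral_zero_measure]

theorem volume_re (c : ℝ) : volume {z : ℂ | z.re = c} = 0 := by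
  have h : {z : ℂ | z.re = c} = Complex.measurableEquivRealProd ⁻¹' ({c} ×ˢ univ) := by
    ext z
    simp [Complex.measurableEquivRealProd_apply]
  rw [h, Complex.volume_preserving_equiv_real_prod.measure_preimage
    ((measurableSet_singleton c).prod MeasurableSet.univ).nullMeasurableSet]
  rw [Measure.volume_eq_prod, Measure.prod_prod]
  simp

theorem volume_bd : volume (𝒟 \ 𝒟ᵒ : Set ℍ) = 0 := by
  apply volume_eq_zero
  have h : UpperHalfPlane.coe '' (𝒟 \ 𝒟ᵒ) ⊆
      Metric.sphere (0 : ℂ) 1 ∪ ({z : ℂ | z.re = 1 / 2} ∪ {z : ℂ | z.re = -(1 / 2)}) := by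
    rintro _ ⟨z, ⟨h1, h2⟩, rfl⟩
    obtain ⟨ha, hb⟩ := h1
    by_cases hn : 1 < Complex.normSq (z : ℂ)
    · right
      have h3 : ¬ |z.re| < 1 / 2 := fun h3 => h2 ⟨hn, h3⟩
      have h4 : |z.re| = 1 / 2 := le_antisymm hb (not_lt.1 h3)
      rcases (abs_eq (by norm_num)).1 h4 with h5 | h5
      · left
        simpa using h5
      · right
        simpa using h5
    · left
      have h3 : Complex.normSq (z : ℂ) = 1 := le_antisymm (not_lt.1 hn) ha
      rw [mem_sphere_zero_iff_norm, ← Real.sqrt_one, ← h3, Complex.normSq_eq_norm_sq,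
        Real.sqrt_sq (norm_nonneg _)]
  refine measure_mono_null h ?_
  rw [measure_union_null_iff, measure_union_null_iff]
  exact ⟨Measure.addHaar_sphere _ _ _, volume_re _, volume_re _⟩

/-- Almost every point is in exactly two translates of the fundamental domain. -/
theorem ae_two : ∀ᵐ z : ℍ, ∃ g : SL(2, ℤ), ∀ γ : SL(2, ℤ), γ • z ∈ 𝒟 ↔ γ = g ∨ γ = -g := by
  have h1 : ∀ᵐ z : ℍ, ∀ γ : SL(2, ℤ), γ • z ∉ (𝒟 \ 𝒟ᵒ : Set ℍ) := by
    rw [ae_all_iff]
    intro γ
    exact compl_mem_ae_iff.2 ((mp_smul γ).quasiMeasurePreserving.preimage_null volume_bd)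
  filter_upwards [h1] with z hz
  obtain ⟨g, hg⟩ := exists_smul_mem_fd z
  have hgo : g • z ∈ 𝒟ᵒ := by
    by_contra hc
    exact hz g ⟨hg, hc⟩
  refine ⟨g, fun γ => ⟨fun hγ => ?_, ?_⟩⟩
  · have h2 : (γ * g⁻¹) • (g • z) ∈ 𝒟 := by
      rw [← mul_smul, inv_mul_cancel_right]
      exact hγ
    rcases eq_one_or_neg_one_of_mem_fdo_mem_fd hgo h2 with h3 | h3
    · left
      exact mul_inv_eq_one.1 h3
    · right
      have h4 : γ = (γ * g⁻¹) * g := by rw [inv_mul_cancel_right]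
      rw [h4, h3, neg_one_mul]
  · rintro (rfl | rfl)
    · exact hg
    · rw [SL_neg_smul]
      exact hg

/-! ### The integral over the half plane -/

theorem ne_neg (g : SL(2, ℤ)) : g ≠ -g := by
  intro h
  have h1 : (g : Matrix (Fin 2) (Fin 2) ℤ).det = 1 := g.det_coe
  have h2 : ∀ i j, (g : Matrix (Fin 2) (Fin 2) ℤ) i j = 0 := by
    intro i j
    have h3 := congrArg (fun m : SL(2, ℤ) => (m : Matrix (Fin 2) (Fin 2) ℤ) i j) h
    simp only [Matrix.SpecialLinearGroup.coe_neg, Matrix.neg_apply] at h3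
    omega
  rw [Matrix.det_fin_two, h2, h2, h2, h2] at h1
  norm_num at h1

/-- The part of the function over the translate of the fundamental domain. -/
noncomputable def part {E : Type} [Zero E] (φ : ℍ → E) (γ : SL(2, ℤ)) : ℍ → E :=
  {w : ℍ | γ • w ∈ 𝒟}.indicator φ

theorem measurableSet_fd : MeasurableSet (𝒟 : Set ℍ) := isClosed_fd.measurableSet

theorem measurableSet_part (γ : SL(2, ℤ)) : MeasurableSet {w : ℍ | γ • w ∈ 𝒟} :=
  (mp_smul γ).measurable measurableSet_fd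

theorem hasSum_part (φ : ℍ → ℂ) : ∀ᵐ z : ℍ, HasSum (fun γ => part φ γ z) (2 * φ z) := by
  filter_upwards [ae_two] with z hz
  obtain ⟨g, hg⟩ := hz
  have h1 : ∀ γ ∉ ({g, -g} : Finset SL(2, ℤ)), part φ γ z = 0 := by
    intro γ hγ
    unfold part
    apply indicator_of_notMem
    intro hc
    have := (hg γ).1 hc
    simp at hγ
    tauto
  have h2 : HasSum (fun γ => part φ γ z) (∑ γ ∈ ({g, -g} : Finset SL(2, ℤ)), part φ γ z) :=
    hasSum_sum_of_ne_finset_zero h1
  have h3 : ∑ γ ∈ ({g, -g} : Finset SL(2, ℤ)), part φ γ z = 2 * φ z := by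
    rw [Finset.sum_pair (ne_neg g)]
    unfold part
    rw [indicator_of_mem, indicator_of_mem]
    · ring
    · exact (hg (-g)).2 (Or.inr rfl)
    · exact (hg g).2 (Or.inl rfl)
  rw [h3] at h2
  exact h2

theorem tsum_part_enorm (φ : ℍ → ℂ) : ∀ᵐ z : ℍ, ∑' γ, ‖part φ γ z‖ₑ = 2 * ‖φ z‖ₑ := by
  filter_upwards [ae_two] with z hz
  obtain ⟨g, hg⟩ := hz
  rw [tsum_eq_sum (s := ({g, -g} : Finset SL(2, ℤ)))]
  · rw [Finset.sum_pair (ne_neg g)]
    unfold part
    rw [indicator_of_mem, indicator_of_mem]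
    · rw [two_mul]
    · exact (hg (-g)).2 (Or.inr rfl)
    · exact (hg g).2 (Or.inl rfl)
  · intro γ hγ
    unfold part
    rw [indicator_of_notMem, enorm_zero]
    intro hc
    have := (hg γ).1 hc
    simp at hγ
    tauto

theorem integral_part (φ : ℍ → ℂ) (γ : SL(2, ℤ)) :
    ∫ z, part φ γ z = ∫ z in 𝒟, φ (γ⁻¹ • z) := by
  rw [← integral_indicator measurableSet_fd, ← (mp_smul γ⁻¹).integral_comp (me_smul γ⁻¹)]
  congr 1
  funext z
  unfold part
  by_cases hz : z ∈ 𝒟
  · rw [indicator_of_mem, indicator_of_mem hz]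
    show γ • (γ⁻¹ • z) ∈ 𝒟
    rw [smul_inv_smul]
    exact hz
  · rw [indicator_of_notMem, indicator_of_notMem hz]
    show ¬ γ • (γ⁻¹ • z) ∈ 𝒟
    rw [smul_inv_smul]
    exact hz

theorem lintegral_part (φ : ℍ → ℂ) (γ : SL(2, ℤ)) :
    ∫⁻ z, ‖part φ γ z‖ₑ = ∫⁻ z in 𝒟, ‖φ (γ⁻¹ • z)‖ₑ := by
  rw [← lintegral_indicator measurableSet_fd, ← (mp_smul γ⁻¹).lintegral_comp_emb (me_smul γ⁻¹)]
  congr 1
  funext z
  unfold part
  by_cases hz : z ∈ 𝒟
  · rw [indicator_of_mem, indicator_of_mem hz]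
    show γ • (γ⁻¹ • z) ∈ 𝒟
    rw [smul_inv_smul]
    exact hz
  · rw [indicator_of_notMem, indicator_of_notMem hz, enorm_zero]
    show ¬ γ • (γ⁻¹ • z) ∈ 𝒟
    rw [smul_inv_smul]
    exact hz

theorem integrable_part {φ : ℍ → ℂ} (hφ : Integrable φ) (γ : SL(2, ℤ)) :
    Integrable (part φ γ) := hφ.indicator (measurableSet_part γ)

theorem sum_enorm_part {φ : ℍ → ℂ} (hφ : Integrable φ) :
    ∑' γ, ∫⁻ z, ‖part φ γ z‖ₑ ≠ ⊤ := by
  rw [← lintegral_tsum fun γ => (integrable_part hφ γ).1.enorm,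
    lintegral_congr_ae (tsum_part_enorm φ), lintegral_const_mul' _ _ (by norm_num)]
  exact ENNReal.mul_ne_top (by norm_num) hφ.2.ne

theorem summable_norm_part {φ : ℍ → ℂ} (hφ : Integrable φ) :
    Summable fun γ => ∫ z, ‖part φ γ z‖ := by
  have h1 := sum_enorm_part hφ
  have h2 := ENNReal.summable_toReal h1
  refine h2.congr fun γ => ?_
  rw [integral_norm_eq_lintegral_enorm (integrable_part hφ γ).1]

/-- The integral over the half plane as a sum over `SL(2, ℤ)`. -/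
theorem hasSum_sl {φ : ℍ → ℂ} (hφ : Integrable φ) :
    HasSum (fun γ : SL(2, ℤ) => ∫ z in 𝒟, φ (γ • z)) (2 * ∫ z, φ z) := by
  have h1 := hasSum_integral_of_summable_integral_norm (integrable_part hφ)
    (summable_norm_part hφ)
  have h2 : ∫ z, ∑' γ, part φ γ z = 2 * ∫ z, φ z := by
    rw [← integral_const_mul]
    apply integral_congr_ae
    filter_upwards [hasSum_part φ] with z hz
    exact hz.tsum_eq
  rw [h2] at h1
  have h3 := (Equiv.inv SL(2, ℤ)).hasSum_iff.2 h1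
  have e : (fun γ : SL(2, ℤ) => ∫ z in 𝒟, φ (γ • z)) =
      (fun x => ∫ a, part φ x a) ∘ Equiv.inv SL(2, ℤ) := by
    funext γ
    simp only [Function.comp_apply, Equiv.inv_apply]
    rw [integral_part, inv_inv]
  rw [e]
  exact h3

/-! ### Cosets -/

/-- `SL(2, ℤ)` as the product of the cosets and `Γ₀(N)`. -/
noncomputable def cosetEquiv (N : ℕ) : (SL(2, ℤ) ⧸ Gamma0 N) × Gamma0 N ≃ SL(2, ℤ) :=
  Equiv.ofBijective (fun p => (p.2 : SL(2, ℤ)) * (Quotient.out p.1)⁻¹) (by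
    constructor
    · rintro ⟨q, δ⟩ ⟨q', δ'⟩ h
      simp only at h
      have h1 : Quotient.out q * (δ : SL(2, ℤ))⁻¹ = Quotient.out q' * (δ' : SL(2, ℤ))⁻¹ := by
        have := congrArg (·⁻¹) h
        simpa [mul_inv_rev] using this
      have h2 : q = q' := by
        rw [← Quotient.out_eq' q, ← Quotient.out_eq' q']
        apply QuotientGroup.eq.2
        have h3 : (Quotient.out q)⁻¹ * Quotient.out q' = (δ : SL(2, ℤ))⁻¹ * (δ' : SL(2, ℤ)) := by
          have h4 : Quotient.out q' = Quotient.out q * (δ : SL(2, ℤ))⁻¹ * (δ' : SL(2, ℤ)) := by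
            rw [h1, inv_mul_cancel_right]
          rw [h4, mul_assoc, inv_mul_cancel_left]
        rw [h3]
        exact mul_mem (inv_mem δ.2) δ'.2
      subst h2
      have h5 := mul_right_cancel h
      exact Prod.ext rfl (Subtype.ext h5)
    · intro γ
      have h1 : (QuotientGroup.mk (Quotient.out (QuotientGroup.mk γ⁻¹ : SL(2, ℤ) ⧸ Gamma0 N)) :
          SL(2, ℤ) ⧸ Gamma0 N) = QuotientGroup.mk γ⁻¹ := Quotient.out_eq' _
      have h2 := QuotientGroup.eq.1 h1
      refine ⟨(QuotientGroup.mk γ⁻¹, ⟨_, inv_mem h2⟩), ?_⟩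
      simp [mul_inv_rev])

theorem cosetEquiv_apply (N : ℕ) (q : SL(2, ℤ) ⧸ Gamma0 N) (δ : Gamma0 N) :
    cosetEquiv N (q, δ) = (δ : SL(2, ℤ)) * (Quotient.out q)⁻¹ := rfl

/-- **Unfolding.** -/
theorem unfold {N : ℕ} [NeZero N] {F h : ℍ → ℂ} (hinv : ∀ γ ∈ Gamma0 N, ∀ z, F (γ • z) = F z)
    (hint : Integrable fun z => h z * F z) :
    ∫ z, h z * F z =
      (1 / 2 : ℂ) * avg N (fun w => (∑' δ : Gamma0 N, h ((δ : SL(2, ℤ)) • w)) * F w) := by
  have h1 := hasSum_sl hint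
  have h2 := (cosetEquiv N).hasSum_iff.2 h1
  have h3 := h2.tsum_eq
  rw [h2.summable.tsum_prod] at h3
  have h4 : ∑' (q : SL(2, ℤ) ⧸ Gamma0 N) (δ : Gamma0 N),
      ((fun γ : SL(2, ℤ) => ∫ z in 𝒟, h (γ • z) * F (γ • z)) ∘ cosetEquiv N) (q, δ) =
      avg N (fun w => (∑' δ : Gamma0 N, h ((δ : SL(2, ℤ)) • w)) * F w) := by
    unfold avg
    refine tsum_congr fun q => ?_
    simp only [Function.comp_apply, cosetEquiv_apply]
    have h5 := integral_tsum (μ := volume.restrict 𝒟) (f := fun (δ : Gamma0 N) (z : ℍ) =>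
      h (((δ : SL(2, ℤ)) * (Quotient.out q)⁻¹) • z) *
        F (((δ : SL(2, ℤ)) * (Quotient.out q)⁻¹) • z)) ?_ ?_
    · rw [← h5]
      refine integral_congr_ae (Filter.Eventually.of_forall fun z => ?_)
      simp only
      rw [← tsum_mul_right]
      refine tsum_congr fun δ => ?_
      rw [mul_smul, hinv _ δ.2]
    · intro δ
      exact (((mp_smul _).integrable_comp_emb (me_smul _)).2 hint).1.restrict
    · have h6 := sum_enorm_part hint
      have h7 : Function.Injective fun δ : Gamma0 N =>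
          ((δ : SL(2, ℤ)) * (Quotient.out q)⁻¹)⁻¹ := by
        intro δ δ' hd
        exact Subtype.ext (mul_right_cancel (inv_injective hd))
      refine ne_top_of_le_ne_top h6 (le_trans (le_of_eq ?_)
        (ENNReal.tsum_comp_le_tsum_of_injective h7 _))
      refine tsum_congr fun δ => ?_
      rw [lintegral_part, inv_inv]
  rw [h4] at h3
  rw [h3]
  ring

end Pool.Agent.Work.MP_2b9663_nt.Mo
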