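import Pool.Agent.Work.MP_2b9663_nt.Mo.Cont
import Pool.Agent.Work.MP_2b9663_nt.Mo.Lattice
import Pool.Agent.Work.MP_2b9663_nt.Mo.Unfold
import Pool.Agent.Work.MP_2b9663_nt.Mo.Strip
import Pool.Agent.Work.MP_2b9663_nt.Mo.Nonvan

set_option autoImplicit false

/-! The continuation of the Rankin-Selberg `L`-function. -/

namespace Pool.Agent.Work.MP_2b9663_nt.Mo

open UpperHalfPlane ModularGroup MeasureTheory CongruenceSubgroup Filter Topology
open scoped MatrixGroups Modular ComplexOrder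

section

variable {N : ℕ} [NeZero N] {F : ℍ → ℂ}

/-- the integral over the strip -/
noncomputable def SI (F : ℍ → ℂ) (s : ℂ) : ℂ :=
  ∫ z, (strip.indicator (fun z : ℍ => (z.im : ℂ) ^ s)) z * F z

instance finite_coset : Finite (SL(2, ℤ) ⧸ Gamma0 N) := Subgroup.finite_quotient_of_finiteIndex

lemma avg_mul_left (c : ℂ) (φ : ℍ → ℂ) : avg N (fun w => c * φ w) = c * avg N φ := by
  unfold avg
  rw [← tsum_mul_left]
  refine tsum_congr fun q => ?_
  rw [integral_const_mul]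

lemma avg_sum {ι : Type*} (s : Finset ι) (φ : ι → ℍ → ℂ)
    (h : ∀ i ∈ s, ∀ γ : SL(2, ℤ), IntegrableOn (fun w => φ i (γ • w)) 𝒟) :
    avg N (fun w => ∑ i ∈ s, φ i w) = ∑ i ∈ s, avg N (φ i) := by
  haveI := Fintype.ofFinite (SL(2, ℤ) ⧸ Gamma0 N)
  unfold avg
  simp only [tsum_fintype]
  rw [Finset.sum_comm]
  refine Finset.sum_congr rfl fun q _ => ?_
  rw [integral_finset_sum]
  intro i hi
  exact h i hi _

/-- the coefficient of the `e`-th term -/
noncomputable def ce (N e : ℕ) (s : ℂ) : ℂ :=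
  (ArithmeticFunction.moebius e : ℂ) * ((e : ℂ) * N) ^ (-s)

/-- The unfolded integral. -/
theorem unfolded (hF : RSFun N F) {s : ℂ} (hs : 1 < s.re) :
    zetaN N (2 * s) * SI F s = 1 / 2 * ∑ e ∈ N.divisors, ce N e s *
      avg N (fun w => F w * Ep (((N / e : ℕ) : ℝ) * w.re) (((N / e : ℕ) : ℝ) * w.im) s) := by
  unfold SI
  rw [unfold hF.inv (strip_integrable hF hs)]
  have h1 : (fun w : ℍ => (∑' δ : Gamma0 N, (strip.indicator (fun z : ℍ => (z.im : ℂ) ^ s))
      ((δ : SL(2, ℤ)) • w)) * F w) = fun w : ℍ => (∑' v : ℤ × ℤ,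
      (if IsCoprime v.1 v.2 ∧ (N : ℤ) ∣ v.1 then (qf w.re w.im v : ℂ) ^ (-s) else 0)) * F w := by
    funext w
    rw [strip_sum hs w]
  rw [h1, mul_left_comm, ← avg_mul_left]
  have h2 : (fun w : ℍ => zetaN N (2 * s) * ((∑' v : ℤ × ℤ,
      (if IsCoprime v.1 v.2 ∧ (N : ℤ) ∣ v.1 then (qf w.re w.im v : ℂ) ^ (-s) else 0)) * F w)) =
      fun w : ℍ => ∑ e ∈ N.divisors, ce N e s * (F w *
        Ep (((N / e : ℕ) : ℝ) * w.re) (((N / e : ℕ) : ℝ) * w.im) s) := by
    funext w
    rw [← mul_assoc, lattice_sum hs w, Finset.sum_mul]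
    refine Finset.sum_congr rfl fun e _ => ?_
    unfold ce
    ring
  rw [h2, avg_sum]
  · congr 1
    refine Finset.sum_congr rfl fun e _ => ?_
    rw [avg_mul_left]
  · intro e he γ
    have hl : 0 < N / e := Nat.div_pos (Nat.divisor_le he) (Nat.pos_of_mem_divisors he)
    exact (avg_integrable hF hl hs γ).const_mul _

/-- the value of the coefficients at `1` -/
noncomputable def cN (N : ℕ) (s : ℂ) : ℂ := 1 / 2 * ∑ e ∈ N.divisors, ce N e s

/-- The completed integral. -/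
theorem completed (hF : RSFun N F) : ∃ Q : ℂ → ℂ, Differentiable ℂ Q ∧ Q 1 = avg N F * cN N 1 ∧
    ∀ s : ℂ, 1 < s.re → s * (s - 1) * ((Real.pi : ℂ) ^ (-s) * Complex.Gamma s *
      (zetaN N (2 * s) * SI F s)) = Q s := by
  have hN : (N : ℂ) ≠ 0 := by exact_mod_cast NeZero.ne N
  have h1 : ∀ e : ℕ, ∃ Λ₀ : ℂ → ℂ, Differentiable ℂ Λ₀ ∧ (e ∈ N.divisors → ∀ s : ℂ, 1 < s.re →
      (Real.pi : ℂ) ^ (-s) * Complex.Gamma s *
        avg N (fun w => F w * Ep (((N / e : ℕ) : ℝ) * w.re) (((N / e : ℕ) : ℝ) * w.im) s) =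
        Λ₀ s - avg N F / s - avg N F / (1 - s)) := by
    intro e
    by_cases he : e ∈ N.divisors
    · have hl : 0 < N / e := Nat.div_pos (Nat.divisor_le he) (Nat.pos_of_mem_divisors he)
      obtain ⟨Λ, h2, h3⟩ := continuation hF hl
      exact ⟨Λ, h2, fun _ => h3⟩
    · exact ⟨fun _ => 0, differentiable_const _, fun h => absurd h he⟩
  choose Λ hΛd hΛ using h1
  have hce : ∀ e ∈ N.divisors, Differentiable ℂ (ce N e) := by
    intro e he
    unfold ce
    have h0 : ((e : ℂ) * N) ≠ 0 :=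
      mul_ne_zero (by exact_mod_cast (Nat.pos_of_mem_divisors he).ne') hN
    refine (differentiable_const _).mul ?_
    intro s
    exact (differentiableAt_id.neg).const_cpow (Or.inl h0)
  refine ⟨fun s => s * (s - 1) * (1 / 2 * ∑ e ∈ N.divisors, ce N e s * Λ e s) +
    avg N F * cN N s, ?_, ?_, ?_⟩
  · refine ((differentiable_id.mul (differentiable_id.sub_const 1)).mul
      ((Differentiable.fun_sum fun e he => (hce e he).mul (hΛd e)).const_mul _)).add ?_
    exact ((Differentiable.fun_sum fun e he => hce e he).const_mul _).const_mul _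
  · simp
  · intro s hs
    have hs0 : s ≠ 0 := by
      intro h
      rw [h] at hs
      simp at hs
      linarith
    have hs1 : 1 - s ≠ 0 := by
      intro h
      have : s = 1 := by linear_combination -h
      rw [this] at hs
      simp at hs
    rw [unfolded hF hs]
    have h2 : ∀ e ∈ N.divisors, ce N e s *
        avg N (fun w => F w * Ep (((N / e : ℕ) : ℝ) * w.re) (((N / e : ℕ) : ℝ) * w.im) s) *
        ((Real.pi : ℂ) ^ (-s) * Complex.Gamma s) =
        ce N e s * Λ e s - avg N F * (1 / s + 1 / (1 - s)) * ce N e s := by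
      intro e he
      have h3 := hΛ e he s hs
      have h4 : ce N e s *
        avg N (fun w => F w * Ep (((N / e : ℕ) : ℝ) * w.re) (((N / e : ℕ) : ℝ) * w.im) s) *
        ((Real.pi : ℂ) ^ (-s) * Complex.Gamma s) = ce N e s * ((Real.pi : ℂ) ^ (-s) *
        Complex.Gamma s *
        avg N (fun w => F w * Ep (((N / e : ℕ) : ℝ) * w.re) (((N / e : ℕ) : ℝ) * w.im) s)) := by ring
      rw [h4, h3]
      ring
    have h5 : (Real.pi : ℂ) ^ (-s) * Complex.Gamma s * (1 / 2 * ∑ e ∈ N.divisors, ce N e s *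
        avg N (fun w => F w * Ep (((N / e : ℕ) : ℝ) * w.re) (((N / e : ℕ) : ℝ) * w.im) s)) =
        1 / 2 * (∑ e ∈ N.divisors, ce N e s * Λ e s) -
        avg N F * (1 / s + 1 / (1 - s)) * cN N s := by
      have h6 : (Real.pi : ℂ) ^ (-s) * Complex.Gamma s * (1 / 2 * ∑ e ∈ N.divisors, ce N e s *
        avg N (fun w => F w * Ep (((N / e : ℕ) : ℝ) * w.re) (((N / e : ℕ) : ℝ) * w.im) s)) =
        1 / 2 * ∑ e ∈ N.divisors, ce N e s *
        avg N (fun w => F w * Ep (((N / e : ℕ) : ℝ) * w.re) (((N / e : ℕ) : ℝ) * w.im) s) *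
        ((Real.pi : ℂ) ^ (-s) * Complex.Gamma s) := by
        rw [← Finset.sum_mul]
        ring
      rw [h6, Finset.sum_congr rfl h2, Finset.sum_sub_distrib, ← Finset.mul_sum]
      unfold cN
      ring
    rw [h5]
    field_simp
    ring

end

section

variable (N : ℕ) [NeZero N]

lemma cN_one : cN N 1 = (((N.totient : ℝ) / (2 * (N : ℝ) ^ 2) : ℝ) : ℂ) := by
  have hN : (N : ℂ) ≠ 0 := by exact_mod_cast NeZero.ne N
  have h1 : ∀ n > 0, ∑ i ∈ n.divisors, ((i.totient : ℕ) : ℂ) = ((n : ℕ) : ℂ) := by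
    intro n _
    have := Nat.sum_totient n
    exact_mod_cast this
  have h2 := (ArithmeticFunction.sum_eq_iff_sum_mul_moebius_eq (R := ℂ)
    (f := fun n => ((n.totient : ℕ) : ℂ)) (g := fun n => (n : ℂ))).1 h1 N (Nat.pos_of_ne_zero (NeZero.ne N))
  have h3 : ∑ e ∈ N.divisors, ce N e 1 = ((N.totient : ℕ) : ℂ) / (N : ℂ) ^ 2 := by
    rw [← h2, Nat.sum_divisorsAntidiagonal (f := fun x y => ((ArithmeticFunction.moebius x : ℤ) : ℂ) *
      ((y : ℕ) : ℂ)), Finset.sum_div]
    refine Finset.sum_congr rfl fun e he => ?_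
    have he0 : (e : ℂ) ≠ 0 := by exact_mod_cast (Nat.pos_of_mem_divisors he).ne'
    unfold ce
    rw [Nat.cast_div (Nat.dvd_of_mem_divisors he) he0, Complex.cpow_neg_one]
    field_simp
  unfold cN
  rw [h3]
  push_cast
  field_simp

/-- the coefficients of `zetaN` -/
noncomputable def dN (N n : ℕ) : ℂ := if n.Coprime N then 1 else 0

lemma dN_nonneg : 0 ≤ dN N := by
  intro n
  unfold dN
  rw [Pi.zero_apply]
  split_ifs
  · exact zero_le_one
  · exact le_rfl

lemma dN_abscissa : LSeries.abscissaOfAbsConv (dN N) ≤ 1 := by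
  refine LSeries.abscissaOfAbsConv_le_of_forall_lt_LSeriesSummable fun y hy => ?_
  refine LSeriesSummable_of_bounded_of_one_lt_re (m := 1) (fun n _ => ?_) (by simpa using hy)
  unfold dN
  split_ifs <;> simp

lemma zetaN_eq {s : ℂ} (hs : s ≠ 0) : zetaN N s = LSeries (dN N) s := by
  unfold zetaN LSeries
  refine tsum_congr fun n => ?_
  rw [LSeries.term_def]
  unfold dN
  by_cases h0 : n = 0
  · rw [if_pos h0, h0]
    split_ifs
    · rw [Nat.cast_zero, Complex.zero_cpow (neg_ne_zero.2 hs)]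
    · rfl
  · rw [if_neg h0]
    split_ifs
    · rw [Complex.cpow_neg, one_div]
    · rw [zero_div]

lemma zetaN_two : ∃ z : ℝ, 0 < z ∧ zetaN N 2 = z ∧ ContinuousAt (zetaN N) 2 := by
  have hab := dN_abscissa N
  have h1 : LSeries.abscissaOfAbsConv (dN N) < (2 : ℝ) := hab.trans_lt (by norm_cast)
  have hpos := LSeries.positive (dN_nonneg N) (by simp [dN]) (x := 2) h1
  have h2 : zetaN N 2 = LSeries (dN N) 2 := zetaN_eq N two_ne_zero
  have h3 : zetaN N 2 = ((zetaN N 2).re : ℂ) := by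
    rw [h2]
    have := (Complex.pos_iff.1 hpos).2
    apply Complex.ext
    · simp
    · simpa using this.symm
  refine ⟨(zetaN N 2).re, ?_, h3, ?_⟩
  · rw [h2]
    simpa using (Complex.pos_iff.1 hpos).1
  · have h4 : AnalyticAt ℂ (LSeries (dN N)) 2 := by
      refine LSeries_analyticOnNhd (dN N) 2 ?_
      simpa using h1
    refine h4.continuousAt.congr ?_
    filter_upwards [isOpen_ne.mem_nhds (show (2 : ℂ) ≠ 0 from two_ne_zero)] with s hs
    exact (zetaN_eq N hs).symm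

/-- **The residue of the strip integral.** -/
theorem residue_strip : ∃ c : ℝ, 0 < c ∧ ∀ F : ℍ → ℂ, RSFun N F →
    Tendsto (fun s : ℝ => ((s : ℂ) - 1) * SI F s) (𝓝[>] 1) (𝓝 (c * avg N F)) := by
  obtain ⟨z, hz, hz2, hzc⟩ := zetaN_two N
  have hN : (0 : ℝ) < N := by exact_mod_cast Nat.pos_of_ne_zero (NeZero.ne N)
  have hφ : (0 : ℝ) < N.totient := by
    exact_mod_cast Nat.totient_pos.2 (Nat.pos_of_ne_zero (NeZero.ne N))
  refine ⟨(N.totient : ℝ) / (2 * (N : ℝ) ^ 2) * Real.pi / z, by positivity, fun F hF => ?_⟩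
  obtain ⟨Q, hQd, hQ1, hQ⟩ := completed hF
  have hpath : Tendsto (fun s : ℝ => (s : ℂ)) (𝓝[>] 1) (𝓝 1) := by
    have : Tendsto (fun s : ℝ => (s : ℂ)) (𝓝 1) (𝓝 ((1 : ℝ) : ℂ)) := Complex.continuous_ofReal.tendsto 1
    rw [Complex.ofReal_one] at this
    exact this.mono_left nhdsWithin_le_nhds
  have h1 : Tendsto (fun s : ℝ => Q s / (s * ((Real.pi : ℂ) ^ (-(s : ℂ)) * Complex.Gamma s *
      zetaN N (2 * s)))) (𝓝[>] 1) (𝓝 (Q 1 / (1 * ((Real.pi : ℂ) ^ (-(1 : ℂ)) * Complex.Gamma 1 *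
      zetaN N (2 * 1))))) := by
    have hg : ContinuousAt Complex.Gamma 1 :=
      (Complex.differentiableAt_Gamma_one).continuousAt
    have hp : ContinuousAt (fun s : ℂ => (Real.pi : ℂ) ^ (-s)) 1 := by
      have : Differentiable ℂ (fun s : ℂ => (Real.pi : ℂ) ^ (-s)) := fun s =>
        (differentiableAt_id.neg).const_cpow (Or.inl (by exact_mod_cast Real.pi_ne_zero))
      exact this.continuous.continuousAt
    have hz' : ContinuousAt (fun s : ℂ => zetaN N (2 * s)) 1 := by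
      have h2 : ContinuousAt (fun s : ℂ => 2 * s) 1 := by fun_prop
      exact ContinuousAt.comp (g := zetaN N) (f := fun s : ℂ => 2 * s) (by simpa using hzc) h2
    have hd : ContinuousAt (fun s : ℂ => s * ((Real.pi : ℂ) ^ (-s) * Complex.Gamma s *
        zetaN N (2 * s))) 1 := continuousAt_id.mul ((hp.mul hg).mul hz')
    have hne : (1 : ℂ) * ((Real.pi : ℂ) ^ (-(1 : ℂ)) * Complex.Gamma 1 * zetaN N (2 * 1)) ≠ 0 := by
      rw [mul_one, hz2, Complex.Gamma_one, one_mul, mul_one]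
      refine mul_ne_zero ?_ (by exact_mod_cast hz.ne')
      rw [Complex.cpow_neg_one]
      exact inv_ne_zero (by exact_mod_cast Real.pi_ne_zero)
    exact (ContinuousAt.div hQd.continuous.continuousAt hd hne).tendsto.comp hpath
  have h2 : Q 1 / (1 * ((Real.pi : ℂ) ^ (-(1 : ℂ)) * Complex.Gamma 1 * zetaN N (2 * 1))) =
      (((N.totient : ℝ) / (2 * (N : ℝ) ^ 2) * Real.pi / z : ℝ) : ℂ) * avg N F := by
    rw [hQ1, cN_one, mul_one 2, hz2, Complex.Gamma_one, one_mul, mul_one, Complex.cpow_neg_one]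
    have hpi : (Real.pi : ℂ) ≠ 0 := by exact_mod_cast Real.pi_ne_zero
    have hz0 : (z : ℂ) ≠ 0 := by exact_mod_cast hz.ne'
    push_cast
    field_simp
  rw [h2] at h1
  have hzev : ∀ᶠ s : ℝ in 𝓝[>] 1, zetaN N (2 * s) ≠ 0 := by
    have h3 : ContinuousAt (fun s : ℂ => zetaN N (2 * s)) 1 := by
      have h2 : ContinuousAt (fun s : ℂ => 2 * s) 1 := by fun_prop
      exact ContinuousAt.comp (g := zetaN N) (f := fun s : ℂ => 2 * s) (by simpa using hzc) h2
    have h4 := h3.tendsto.comp hpath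
    simp only [mul_one, hz2] at h4
    exact h4.eventually_ne (by exact_mod_cast hz.ne')
  refine h1.congr' ?_
  filter_upwards [self_mem_nhdsWithin, hzev] with s hs hzs
  have hs1 : (1 : ℝ) < s := hs
  rw [← hQ (s : ℂ) (by simpa using hs1)]
  have hs0 : (s : ℂ) ≠ 0 := by exact_mod_cast (by linarith : s ≠ 0)
  have hG : Complex.Gamma s ≠ 0 := by
    rw [Complex.Gamma_ofReal]
    exact_mod_cast (Real.Gamma_pos_of_pos (by linarith)).ne'
  have hpp : (Real.pi : ℂ) ^ (-(s : ℂ)) ≠ 0 := by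
    rw [Ne, Complex.cpow_eq_zero_iff]
    push Not
    intro h
    exact absurd h (by exact_mod_cast Real.pi_ne_zero)
  rw [div_eq_iff (mul_ne_zero hs0 (mul_ne_zero (mul_ne_zero hpp hG) hzs))]
  ring

end

end Pool.Agent.Work.MP_2b9663_nt.Mo
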