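import Pool.Agent.Work.MP_2b9663_nt.Mo.Theta

set_option autoImplicit false

/-! Rankin-Selberg: the analytic continuation of the integral of an automorphic function against the
Epstein zeta function, by the functional equation of the theta function. -/

namespace Pool.Agent.Work.MP_2b9663_nt.Mo

open UpperHalfPlane ModularGroup MeasureTheory CongruenceSubgroup Set
open scoped MatrixGroups Modular

namespace Ct

theorem half_le_im_of_mem_fd {z : ℍ} (hz : z ∈ 𝒟) : 1 / 2 ≤ z.im := by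
  have h := three_le_four_mul_im_sq_of_mem_fd hz
  have h1 := z.im_pos
  nlinarith

theorem abs_re_le_of_mem_fd {z : ℍ} (hz : z ∈ 𝒟) : |z.re| ≤ 1 / 2 := hz.2

theorem volume_fd_lt_top : volume (𝒟 : Set ℍ) < ⊤ := by
  rw [volume_eq_lintegral]
  set S : Set ℂ := Complex.measurableEquivRealProd ⁻¹' (Icc (-(1 / 2) : ℝ) (1 / 2) ×ˢ Ici (1 / 2 : ℝ))
    with hS
  have hsub : ((↑) '' (𝒟 : Set ℍ) : Set ℂ) ⊆ S := by
    rintro _ ⟨z, hz, rfl⟩
    have h1 := abs_le.1 (abs_re_le_of_mem_fd hz)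
    refine ⟨⟨?_, ?_⟩, ?_⟩
    · exact h1.1
    · exact h1.2
    · exact half_le_im_of_mem_fd hz
  refine lt_of_le_of_lt (lintegral_mono_set hsub) ?_
  have hint : Integrable (fun p : ℝ × ℝ => (1 : ℝ) * p.2 ^ (-2 : ℝ))
      ((volume.restrict (Icc (-(1 / 2) : ℝ) (1 / 2))).prod (volume.restrict (Ici (1 / 2 : ℝ)))) := by
    refine Integrable.mul_prod (f := fun _ : ℝ => (1 : ℝ)) (g := fun y : ℝ => y ^ (-2 : ℝ)) ?_ ?_
    · exact integrable_const _
    · have := integrableOn_Ioi_rpow_of_lt (a := -2) (by norm_num) (c := 1 / 2) (by norm_num)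
      exact (integrableOn_Ici_iff_integrableOn_Ioi (by simp)).2 this
  rw [Measure.prod_restrict, ← Measure.volume_eq_prod] at hint
  have h2 := (Complex.volume_preserving_equiv_real_prod.restrict_preimage
    (measurableSet_Icc.prod measurableSet_Ici)
    (s := Icc (-(1 / 2) : ℝ) (1 / 2) ×ˢ Ici (1 / 2 : ℝ))).integrable_comp_of_integrable hint
  have h3 := h2.lintegral_lt_top
  refine lt_of_le_of_lt (le_of_eq ?_) h3
  refine setLIntegral_congr_fun (Complex.measurableEquivRealProd.measurable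
    (measurableSet_Icc.prod measurableSet_Ici)) ?_
  intro z hz
  have hz2 : (1 / 2 : ℝ) ≤ z.im := hz.2
  have hpos : 0 < z.im := by linarith
  have e1 : ((1 / ‖z.im‖₊) ^ 2 : NNReal) = Real.toNNReal (z.im ^ (-2 : ℝ)) := by
    apply NNReal.eq
    rw [Real.coe_toNNReal _ (by positivity)]
    rw [Real.rpow_neg hpos.le]
    push_cast
    rw [Real.norm_of_nonneg hpos.le]
    norm_num
  show ((((1 / ‖z.im‖₊) ^ 2 : NNReal)) : ENNReal) = _
  rw [e1]
  simp [ENNReal.ofReal, Complex.measurableEquivRealProd]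

theorem measurableSet_fd : MeasurableSet (𝒟 : Set ℍ) := isClosed_fd.measurableSet

instance : IsFiniteMeasure (volume.restrict (𝒟 : Set ℍ)) :=
  ⟨by rw [Measure.restrict_apply_univ]; exact volume_fd_lt_top⟩


variable {N : ℕ} {F : ℍ → ℂ}

theorem continuous_sl_smul (γ : SL(2, ℤ)) : Continuous fun z : ℍ => γ • z := by
  simp only [sl_moeb]
  exact continuous_const_smul _

theorem cont_smul (hF : RSFun N F) (γ : SL(2, ℤ)) : Continuous fun z : ℍ => F (γ • z) :=
  hF.cont.comp (continuous_sl_smul γ)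

/-- The theta function at `l γ z`. -/
noncomputable def Dl (l : ℕ) (γ : SL(2, ℤ)) (u : ℝ) (z : ℍ) : ℝ :=
  Th u (l * (γ • z).re) (l * (γ • z).im)

theorem one_le_Dl {l : ℕ} (hl : 0 < l) (γ : SL(2, ℤ)) {u : ℝ} (hu : 0 < u) (z : ℍ) :
    1 ≤ Dl l γ u z :=
  one_le_Th hu (mul_pos (by exact_mod_cast hl) (γ • z).im_pos)

theorem Dl_inv {l : ℕ} (hl : 0 < l) (γ : SL(2, ℤ)) {u : ℝ} (hu : 0 < u) (z : ℍ) :
    Dl l γ (1 / u) z = u * Dl l γ u z :=
  Th_inv hu (mul_pos (by exact_mod_cast hl) (γ • z).im_pos)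

theorem Dl_continuousOn {l : ℕ} (hl : 0 < l) (γ : SL(2, ℤ)) :
    ContinuousOn (fun p : ℝ × ℍ => Dl l γ p.1 p.2) (Ioi 0 ×ˢ univ) := by
  have hc : Continuous fun p : ℝ × ℍ => ((p.1, l * (γ • p.2).re, l * (γ • p.2).im) : ℝ × ℝ × ℝ) := by
    have h1 : Continuous fun p : ℝ × ℍ => γ • p.2 := (continuous_sl_smul γ).comp continuous_snd
    have h2 := UpperHalfPlane.continuous_re.comp h1
    have h3 := UpperHalfPlane.continuous_im.comp h1
    exact continuous_fst.prodMk ((continuous_const.mul h2).prodMk (continuous_const.mul h3))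
  exact Th_continuousOn.comp hc.continuousOn
    (fun p hp => ⟨hp.1, mul_pos (by exact_mod_cast hl) (γ • p.2).im_pos⟩)

theorem Dl_bound {l : ℕ} (hl : 0 < l) (γ : SL(2, ℤ)) {σ : ℝ} (hσ : 1 < σ) :
    ∃ C : ℝ, 0 ≤ C ∧ ∀ u : ℝ, 0 < u → ∀ z ∈ 𝒟, Dl l γ u z - 1 ≤ C * u ^ (-σ) * z.im ^ σ := by
  obtain ⟨C, hC⟩ := Th_bound hσ
  have hl' : (0 : ℝ) < l := by exact_mod_cast hl
  refine ⟨|C| * (l : ℝ) ^ σ, by positivity, fun u hu z hz => ?_⟩
  have h1 := Th_smul_le hu hl γ z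
  have h2 := hC (u / l) z.re z.im (div_pos hu hl') (abs_re_le_of_mem_fd hz) (half_le_im_of_mem_fd hz)
  have h3 : (u / l) ^ (-σ) = (l : ℝ) ^ σ * u ^ (-σ) := by
    rw [Real.div_rpow hu.le hl'.le, Real.rpow_neg hl'.le, div_inv_eq_mul, mul_comm]
  have h4 : 0 ≤ (u / l) ^ (-σ) * z.im ^ σ := by
    have := z.im_pos
    positivity
  calc Dl l γ u z - 1 ≤ Th (u / l) z.re z.im - 1 := by unfold Dl; linarith
    _ ≤ C * (u / l) ^ (-σ) * z.im ^ σ := h2
    _ = C * ((u / l) ^ (-σ) * z.im ^ σ) := by ring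
    _ ≤ |C| * ((u / l) ^ (-σ) * z.im ^ σ) := mul_le_mul_of_nonneg_right (le_abs_self C) h4
    _ = |C| * (l : ℝ) ^ σ * u ^ (-σ) * z.im ^ σ := by rw [h3]; ring

theorem decay_bound (hF : RSFun N F) (γ : SL(2, ℤ)) (σ : ℝ) :
    ∃ K : ℝ, 0 ≤ K ∧ ∀ z ∈ 𝒟, ‖F (γ • z)‖ * z.im ^ σ ≤ K := by
  obtain ⟨C, a, ha, hC⟩ := hF.decay γ
  obtain ⟨n, hn⟩ := exists_nat_ge σ
  refine ⟨|C| * ((2 : ℝ) ^ (n - σ) * (n.factorial / a ^ n)), by positivity, fun z hz => ?_⟩
  have hy := half_le_im_of_mem_fd hz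
  have hy0 := z.im_pos
  have h1 : z.im ^ σ ≤ (2 : ℝ) ^ (n - σ) * z.im ^ n := by
    have e1 : z.im ^ σ = (2 : ℝ) ^ (-σ) * (2 * z.im) ^ σ := by
      rw [Real.mul_rpow (by norm_num) hy0.le, ← mul_assoc, ← Real.rpow_add (by norm_num)]
      simp
    have e2 : (2 * z.im) ^ σ ≤ (2 * z.im) ^ (n : ℝ) :=
      Real.rpow_le_rpow_of_exponent_le (by linarith) hn
    rw [e1]
    calc (2 : ℝ) ^ (-σ) * (2 * z.im) ^ σ ≤ (2 : ℝ) ^ (-σ) * (2 * z.im) ^ (n : ℝ) := by gcongr
      _ = (2 : ℝ) ^ (n - σ) * z.im ^ n := by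
        rw [Real.mul_rpow (by norm_num) hy0.le, ← mul_assoc, ← Real.rpow_add (by norm_num),
          Real.rpow_natCast z.im]
        congr 2
        ring
  have h2 : z.im ^ n ≤ n.factorial / a ^ n * Real.exp (a * z.im) := by
    have := Real.pow_div_factorial_le_exp (a * z.im) (by positivity) n
    rw [mul_pow, div_le_iff₀ (by positivity)] at this
    rw [div_mul_eq_mul_div, le_div_iff₀ (by positivity)]
    nlinarith
  calc ‖F (γ • z)‖ * z.im ^ σ ≤ (|C| * Real.exp (-(a * z.im))) * z.im ^ σ := by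
        gcongr
        exact (hC z hy).trans (mul_le_mul_of_nonneg_right (le_abs_self C) (Real.exp_nonneg _))
    _ ≤ (|C| * Real.exp (-(a * z.im))) * ((2 : ℝ) ^ (n - σ) * (n.factorial / a ^ n * Real.exp (a * z.im))) := by
        gcongr
        exact h1.trans (mul_le_mul_of_nonneg_left h2 (by positivity))
    _ = |C| * ((2 : ℝ) ^ (n - σ) * (n.factorial / a ^ n)) * (Real.exp (-(a * z.im)) * Real.exp (a * z.im)) := by
        ring
    _ = _ := by rw [← Real.exp_add]; simp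

theorem FD_bound (hF : RSFun N F) {l : ℕ} (hl : 0 < l) (γ : SL(2, ℤ)) {σ : ℝ} (hσ : 1 < σ) :
    ∃ C : ℝ, 0 ≤ C ∧ ∀ u : ℝ, 0 < u → ∀ z ∈ 𝒟,
      ‖F (γ • z) * ((Dl l γ u z - 1 : ℝ) : ℂ)‖ ≤ C * u ^ (-σ) := by
  obtain ⟨C, hC0, hC⟩ := Dl_bound hl γ hσ
  obtain ⟨K, hK0, hK⟩ := decay_bound hF γ σ
  refine ⟨C * K, by positivity, fun u hu z hz => ?_⟩
  rw [norm_mul, Complex.norm_real, Real.norm_of_nonneg (by linarith [one_le_Dl hl γ hu z])]
  calc ‖F (γ • z)‖ * (Dl l γ u z - 1) ≤ ‖F (γ • z)‖ * (C * u ^ (-σ) * z.im ^ σ) := by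
        gcongr
        exact hC u hu z hz
    _ = C * u ^ (-σ) * (‖F (γ • z)‖ * z.im ^ σ) := by ring
    _ ≤ C * u ^ (-σ) * K := by
        gcongr
        exact hK z hz
    _ = _ := by ring


theorem integrable_Fg (hF : RSFun N F) (γ : SL(2, ℤ)) : IntegrableOn (fun z : ℍ => F (γ • z)) 𝒟 := by
  obtain ⟨K, hK0, hK⟩ := decay_bound hF γ 0
  refine Measure.integrableOn_of_bounded (M := K) volume_fd_lt_top.ne
    (cont_smul hF γ).aestronglyMeasurable ?_
  refine (ae_restrict_iff' measurableSet_fd).2 (Filter.Eventually.of_forall fun z hz => ?_)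
  simpa using hK z hz

/-- the integrand of the Mellin transform -/
noncomputable def FD (F : ℍ → ℂ) (l : ℕ) (γ : SL(2, ℤ)) (u : ℝ) (z : ℍ) : ℂ :=
  F (γ • z) * ((Dl l γ u z - 1 : ℝ) : ℂ)

theorem FD_continuousOn (hF : RSFun N F) {l : ℕ} (hl : 0 < l) (γ : SL(2, ℤ)) :
    ContinuousOn (fun p : ℝ × ℍ => FD F l γ p.1 p.2) (Ioi 0 ×ˢ univ) := by
  unfold FD
  refine ((cont_smul hF γ).comp continuous_snd).continuousOn.mul ?_
  exact Complex.continuous_ofReal.comp_continuousOn ((Dl_continuousOn hl γ).sub continuousOn_const)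

theorem FD_continuous (hF : RSFun N F) {l : ℕ} (hl : 0 < l) (γ : SL(2, ℤ)) {u : ℝ} (hu : 0 < u) :
    Continuous (FD F l γ u) := by
  have h := (FD_continuousOn hF hl γ).comp (f := fun z : ℍ => ((u, z) : ℝ × ℍ)) (s := univ)
    (by fun_prop) (fun z _ => ⟨hu, mem_univ _⟩)
  exact continuousOn_univ.1 h

theorem FD_continuousOn_left (hF : RSFun N F) {l : ℕ} (hl : 0 < l) (γ : SL(2, ℤ)) (z : ℍ) :
    ContinuousOn (fun u => FD F l γ u z) (Ioi 0) :=
  (FD_continuousOn hF hl γ).comp (f := fun u : ℝ => ((u, z) : ℝ × ℍ)) (s := Ioi 0)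
    (by fun_prop) (fun u hu => ⟨hu, mem_univ _⟩)

theorem integrable_FD (hF : RSFun N F) {l : ℕ} (hl : 0 < l) (γ : SL(2, ℤ)) {u : ℝ} (hu : 0 < u) :
    IntegrableOn (FD F l γ u) 𝒟 := by
  obtain ⟨C, hC0, hC⟩ := FD_bound hF hl γ (σ := 2) (by norm_num)
  refine Measure.integrableOn_of_bounded (M := C * u ^ (-2 : ℝ)) volume_fd_lt_top.ne
    (FD_continuous hF hl γ hu).aestronglyMeasurable ?_
  exact (ae_restrict_iff' measurableSet_fd).2 (Filter.Eventually.of_forall fun z hz => hC u hu z hz)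

/-- the difference of the theta integral and its limit -/
noncomputable def Hd (F : ℍ → ℂ) (l : ℕ) (γ : SL(2, ℤ)) (u : ℝ) : ℂ := ∫ z in 𝒟, FD F l γ u z

theorem Hd_bound (hF : RSFun N F) {l : ℕ} (hl : 0 < l) (γ : SL(2, ℤ)) {σ : ℝ} (hσ : 1 < σ) :
    ∃ C : ℝ, ∀ u : ℝ, 0 < u → ‖Hd F l γ u‖ ≤ C * u ^ (-σ) := by
  obtain ⟨C, hC0, hC⟩ := FD_bound hF hl γ hσ
  refine ⟨C * (volume.real (𝒟 : Set ℍ)), fun u hu => ?_⟩
  have := norm_setIntegral_le_of_norm_le_const (μ := volume) (s := (𝒟 : Set ℍ)) (f := FD F l γ u)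
    (C := C * u ^ (-σ)) volume_fd_lt_top (fun z hz => hC u hu z hz)
  calc ‖Hd F l γ u‖ ≤ C * u ^ (-σ) * volume.real (𝒟 : Set ℍ) := this
    _ = _ := by ring

theorem Hd_continuousOn (hF : RSFun N F) {l : ℕ} (hl : 0 < l) (γ : SL(2, ℤ)) :
    ContinuousOn (Hd F l γ) (Ioi 0) := by
  obtain ⟨C, hC0, hC⟩ := FD_bound hF hl γ (σ := 2) (by norm_num)
  refine continuousOn_of_forall_continuousAt fun u₀ hu₀ => ?_
  have hu₀' : 0 < u₀ := hu₀
  have h : ContinuousOn (Hd F l γ) (Ioi (u₀ / 2)) := by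
    refine continuousOn_of_dominated (bound := fun _ => C * (u₀ / 2) ^ (-2 : ℝ)) ?_ ?_ ?_ ?_
    · intro u hu
      exact (FD_continuous hF hl γ (lt_trans (half_pos hu₀') hu)).aestronglyMeasurable
    · intro u hu
      refine (ae_restrict_iff' measurableSet_fd).2 (Filter.Eventually.of_forall fun z hz => ?_)
      have hu' : u₀ / 2 < u := hu
      refine (hC u (by linarith) z hz).trans ?_
      gcongr ?_ * ?_
      exact Real.rpow_le_rpow_of_nonpos (by positivity) hu'.le (by norm_num)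
    · exact integrable_const _
    · refine Filter.Eventually.of_forall fun z => ?_
      exact (FD_continuousOn_left hF hl γ z).mono (fun u hu => lt_trans (half_pos hu₀') hu)
  exact h.continuousAt (Ioi_mem_nhds (by linarith))

theorem Hd_eq (hF : RSFun N F) {l : ℕ} (hl : 0 < l) (γ : SL(2, ℤ)) {u : ℝ} (hu : 0 < u) :
    ∫ z in 𝒟, F (γ • z) * ((Dl l γ u z : ℝ) : ℂ) = Hd F l γ u + ∫ z in 𝒟, F (γ • z) := by
  unfold Hd
  rw [← integral_add (integrable_FD hF hl γ hu) (integrable_Fg hF γ)]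
  congr 1
  ext z
  unfold FD
  push_cast
  ring

/-- the majorant -/
theorem integrable_prod (hF : RSFun N F) {l : ℕ} (hl : 0 < l) (γ : SL(2, ℤ)) {s : ℂ}
    (hs : 1 < s.re) :
    Integrable (fun p : ℝ × ℍ => (p.1 : ℂ) ^ (s - 1) * FD F l γ p.1 p.2)
      ((volume.restrict (Ioi (0 : ℝ))).prod (volume.restrict (𝒟 : Set ℍ))) := by
  obtain ⟨C₁, hC₁0, hC₁⟩ := FD_bound hF hl γ (σ := (1 + s.re) / 2) (by linarith)
  obtain ⟨C₂, hC₂0, hC₂⟩ := FD_bound hF hl γ (σ := s.re + 1) (by linarith)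
  set g₁ : ℝ → ℝ := (Ioc (0 : ℝ) 1).indicator (fun u : ℝ => C₁ * u ^ ((s.re - 1) / 2 - 1)) with hg₁
  set g₂ : ℝ → ℝ := (Ioi (1 : ℝ)).indicator (fun u : ℝ => C₂ * u ^ (-2 : ℝ)) with hg₂
  set g : ℝ → ℝ := fun u : ℝ => g₁ u + g₂ u with hg
  have hg1 : Integrable g (volume.restrict (Ioi 0)) := by
    refine Integrable.add ?_ ?_
    · refine Integrable.integrableOn ?_
      refine (integrable_indicator_iff measurableSet_Ioc).2 (Integrable.const_mul ?_ _)
      have := intervalIntegral.intervalIntegrable_rpow' (a := 0) (b := 1)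
        (r := (s.re - 1) / 2 - 1) (by linarith)
      exact (intervalIntegrable_iff_integrableOn_Ioc_of_le zero_le_one).1 this
    · refine Integrable.integrableOn ?_
      refine (integrable_indicator_iff measurableSet_Ioi).2 (Integrable.const_mul ?_ _)
      exact integrableOn_Ioi_rpow_of_lt (by norm_num) (by norm_num)
  have hg2 : Integrable (fun p : ℝ × ℍ => g p.1 * 1)
      ((volume.restrict (Ioi (0 : ℝ))).prod (volume.restrict (𝒟 : Set ℍ))) :=
    hg1.mul_prod (g := fun _ : ℍ => (1 : ℝ)) (integrable_const _)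
  refine hg2.mono' ?_ ?_
  · rw [Measure.prod_restrict]
    refine ContinuousOn.aestronglyMeasurable ?_ (measurableSet_Ioi.prod measurableSet_fd)
    refine ContinuousOn.mul ?_ ((FD_continuousOn hF hl γ).mono
      (prod_mono_right (subset_univ _)))
    refine ContinuousOn.cpow_const (Complex.continuous_ofReal.comp continuous_fst).continuousOn ?_
    intro p hp
    exact Complex.ofReal_mem_slitPlane.2 hp.1
  · rw [Measure.prod_restrict]
    refine (ae_restrict_iff' (measurableSet_Ioi.prod measurableSet_fd)).2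
      (Filter.Eventually.of_forall fun p hp => ?_)
    obtain ⟨hp1, hp2⟩ := hp
    have hp1' : 0 < p.1 := hp1
    rw [norm_mul, Complex.norm_cpow_eq_rpow_re_of_pos hp1', mul_one]
    have e : (s - 1).re = s.re - 1 := by simp
    rw [e]
    rcases le_or_gt p.1 1 with h1 | h1
    · have hgv : g p.1 = C₁ * p.1 ^ ((s.re - 1) / 2 - 1) := by
        simp [hg, hg₁, hg₂, indicator_of_mem (show p.1 ∈ Ioc (0 : ℝ) 1 from ⟨hp1', h1⟩),
          indicator_of_notMem (show p.1 ∉ Ioi (1 : ℝ) from not_lt.2 h1)]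
      rw [hgv]
      calc p.1 ^ (s.re - 1) * ‖FD F l γ p.1 p.2‖
          ≤ p.1 ^ (s.re - 1) * (C₁ * p.1 ^ (-((1 + s.re) / 2))) := by
            gcongr
            exact hC₁ p.1 hp1' p.2 hp2
        _ = C₁ * (p.1 ^ (s.re - 1) * p.1 ^ (-((1 + s.re) / 2))) := by ring
        _ = _ := by
            rw [← Real.rpow_add hp1']
            congr 2
            ring
    · have hgv : g p.1 = C₂ * p.1 ^ (-2 : ℝ) := by
        simp [hg, hg₁, hg₂, indicator_of_notMem (show p.1 ∉ Ioc (0 : ℝ) 1 from fun h => not_lt.2 h.2 h1),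
          indicator_of_mem (show p.1 ∈ Ioi (1 : ℝ) from h1)]
      rw [hgv]
      calc p.1 ^ (s.re - 1) * ‖FD F l γ p.1 p.2‖
          ≤ p.1 ^ (s.re - 1) * (C₂ * p.1 ^ (-(s.re + 1))) := by
            gcongr
            exact hC₂ p.1 hp1' p.2 hp2
        _ = C₂ * (p.1 ^ (s.re - 1) * p.1 ^ (-(s.re + 1))) := by ring
        _ = _ := by
            rw [← Real.rpow_add hp1']
            congr 2
            ring

theorem inner_mellin {l : ℕ} (hl : 0 < l) (γ : SL(2, ℤ)) {s : ℂ} (hs : 1 < s.re) (z : ℍ) :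
    ∫ u in Ioi (0 : ℝ), (u : ℂ) ^ (s - 1) * FD F l γ u z =
      (Real.pi : ℂ) ^ (-s) * Complex.Gamma s *
        (F (γ • z) * Ep (l * (γ • z).re) (l * (γ • z).im) s) := by
  have h := (Th_mellin (x := l * (γ • z).re) (y := l * (γ • z).im)
    (mul_pos (by exact_mod_cast hl) (γ • z).im_pos) hs).2
  unfold mellin at h
  simp only [smul_eq_mul] at h
  calc ∫ u in Ioi (0 : ℝ), (u : ℂ) ^ (s - 1) * FD F l γ u z
      = ∫ u in Ioi (0 : ℝ), F (γ • z) * ((u : ℂ) ^ (s - 1) *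
          ((Th u (l * (γ • z).re) (l * (γ • z).im) - 1 : ℝ) : ℂ)) := by
        congr 1
        ext u
        unfold FD Dl
        ring
    _ = _ := by rw [integral_const_mul, h]; ring

theorem Hd_mellin (hF : RSFun N F) {l : ℕ} (hl : 0 < l) (γ : SL(2, ℤ)) {s : ℂ}
    (hs : 1 < s.re) :
    (∫ u in Ioi (0 : ℝ), (u : ℂ) ^ (s - 1) * Hd F l γ u) =
      (Real.pi : ℂ) ^ (-s) * Complex.Gamma s *
        ∫ z in 𝒟, F (γ • z) * Ep (l * (γ • z).re) (l * (γ • z).im) s := by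
  have h := integral_integral_swap (f := fun (u : ℝ) (z : ℍ) => (u : ℂ) ^ (s - 1) * FD F l γ u z)
    (integrable_prod hF hl γ hs)
  calc (∫ u in Ioi (0 : ℝ), (u : ℂ) ^ (s - 1) * Hd F l γ u)
      = ∫ u in Ioi (0 : ℝ), ∫ z in 𝒟, (u : ℂ) ^ (s - 1) * FD F l γ u z := by
        congr 1
        ext u
        rw [Hd, integral_const_mul]
    _ = ∫ z in 𝒟, ∫ u in Ioi (0 : ℝ), (u : ℂ) ^ (s - 1) * FD F l γ u z := h
    _ = _ := by
        rw [← integral_const_mul]
        congr 1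
        ext z
        exact inner_mellin hl γ hs z

theorem integrable_Ep (hF : RSFun N F) {l : ℕ} (hl : 0 < l) {s : ℂ} (hs : 1 < s.re)
    (γ : SL(2, ℤ)) :
    IntegrableOn (fun w => F (γ • w) * Ep (l * (γ • w).re) (l * (γ • w).im) s) 𝒟 := by
  have h := (integrable_prod hF hl γ hs).integral_prod_right
  have hc : (Real.pi : ℂ) ^ (-s) * Complex.Gamma s ≠ 0 := by
    refine mul_ne_zero ?_ (Complex.Gamma_ne_zero_of_re_pos (by linarith))
    rw [Complex.cpow_ne_zero_iff]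
    left
    exact_mod_cast Real.pi_ne_zero
  have h2 : IntegrableOn (fun z : ℍ => (Real.pi : ℂ) ^ (-s) * Complex.Gamma s *
        (F (γ • z) * Ep (l * (γ • z).re) (l * (γ • z).im) s)) 𝒟 := by
    refine h.congr (Filter.Eventually.of_forall fun z => ?_)
    exact inner_mellin hl γ hs z
  have h3 := h2.const_mul ((Real.pi : ℂ) ^ (-s) * Complex.Gamma s)⁻¹
  refine h3.congr (Filter.Eventually.of_forall fun z => ?_)
  simp only
  rw [← mul_assoc, inv_mul_cancel₀ hc, one_mul]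


theorem avg_eq_sum [NeZero N] (φ : ℍ → ℂ) [Fintype (SL(2, ℤ) ⧸ Gamma0 N)] :
    avg N φ = ∑ q : SL(2, ℤ) ⧸ Gamma0 N, ∫ z in 𝒟, φ ((Quotient.out q)⁻¹ • z) :=
  tsum_fintype _

end Ct

open Ct

variable {N : ℕ} {F : ℍ → ℂ}

theorem continuation [NeZero N] (hF : RSFun N F) {l : ℕ} (hl : 0 < l) :
    ∃ Λ₀ : ℂ → ℂ, Differentiable ℂ Λ₀ ∧ ∀ s : ℂ, 1 < s.re →
      (Real.pi : ℂ) ^ (-s) * Complex.Gamma s * avg N (fun w => F w * Ep (l * w.re) (l * w.im) s) =
        Λ₀ s - avg N F / s - avg N F / (1 - s) := by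
  classical
  have : Finite (SL(2, ℤ) ⧸ Gamma0 N) := Subgroup.finite_quotient_of_finiteIndex
  let _ : Fintype (SL(2, ℤ) ⧸ Gamma0 N) := Fintype.ofFinite _
  set g : (SL(2, ℤ) ⧸ Gamma0 N) → SL(2, ℤ) := fun q => (Quotient.out q)⁻¹ with hg
  set H : ℝ → ℂ := fun u => avg N (fun w => F w * ((Th u (l * w.re) (l * w.im) : ℝ) : ℂ)) with hH
  have hHd : ∀ u : ℝ, 0 < u → H u = (∑ q, Hd F l (g q) u) + avg N F := by
    intro u hu
    rw [hH]
    simp only
    rw [avg_eq_sum, avg_eq_sum, ← Finset.sum_add_distrib]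
    exact Finset.sum_congr rfl fun q _ => Hd_eq hF hl (g q) hu
  have hcont : ContinuousOn H (Ioi 0) := by
    have h1 : ContinuousOn (fun u => (∑ q, Hd F l (g q) u) + avg N F) (Ioi 0) := by
      refine ContinuousOn.add ?_ continuousOn_const
      exact continuousOn_finsetSum _ fun q _ => Hd_continuousOn hF hl (g q)
    exact h1.congr fun u hu => hHd u hu
  have hint : LocallyIntegrableOn H (Ioi 0) := hcont.locallyIntegrableOn measurableSet_Ioi
  have htop : ∀ r : ℝ, (fun u => H u - avg N F) =O[Filter.atTop] (fun u : ℝ => u ^ r) := by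
    intro r
    set σ : ℝ := max 2 (-r) with hσ
    have hσ1 : 1 < σ := lt_of_lt_of_le (by norm_num) (le_max_left _ _)
    have hσ2 : -σ ≤ r := by have := le_max_right 2 (-r); linarith
    choose C hC using fun q => Hd_bound hF hl (g q) hσ1
    refine Asymptotics.IsBigO.of_bound (∑ q, |C q|) ?_
    filter_upwards [Filter.eventually_ge_atTop (1 : ℝ)] with u hu
    have hu0 : 0 < u := by linarith
    rw [hHd u hu0, add_sub_cancel_right, Real.norm_of_nonneg (Real.rpow_nonneg hu0.le _),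
      Finset.sum_mul]
    refine (norm_sum_le _ _).trans (Finset.sum_le_sum fun q _ => ?_)
    calc ‖Hd F l (g q) u‖ ≤ C q * u ^ (-σ) := hC q u hu0
      _ ≤ |C q| * u ^ (-σ) := by
        gcongr
        exact le_abs_self _
      _ ≤ |C q| * u ^ r := by
        gcongr
  let P : WeakFEPair ℂ :=
    { f := H, g := H, k := 1, ε := 1, f₀ := avg N F, g₀ := avg N F
      hf_int := hint, hg_int := hint, hk := one_pos, hε := one_ne_zero
      h_feq := by
        intro u hu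
        have hu' : (0 : ℝ) < u := hu
        rw [hH]
        simp only
        rw [avg_eq_sum, avg_eq_sum, smul_eq_mul, Finset.mul_sum]
        refine Finset.sum_congr rfl fun q _ => ?_
        rw [← integral_const_mul]
        congr 1
        ext z
        have := Dl_inv hl ((Quotient.out q)⁻¹) hu' z
        unfold Dl at this
        rw [this]
        push_cast
        simp
        ring
      hf_top := htop, hg_top := htop }
  refine ⟨P.Λ₀, P.differentiable_Λ₀, fun s hs => ?_⟩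
  have hm := (P.hasMellin (s := s) (by simpa using hs)).2
  have e1 : P.Λ s = P.Λ₀ s - avg N F / s - avg N F / (1 - s) := by
    show P.Λ₀ s - (1 / s) • avg N F - ((1 : ℂ) / (((1 : ℝ) : ℂ) - s)) • avg N F = _
    simp only [smul_eq_mul, Complex.ofReal_one]
    ring
  rw [← e1, ← hm]
  show _ = mellin (fun u => H u - avg N F) s
  unfold mellin
  have e2 : (∫ t : ℝ in Ioi 0, (t : ℂ) ^ (s - 1) • (H t - avg N F)) =
      ∫ t : ℝ in Ioi 0, ∑ q, (t : ℂ) ^ (s - 1) * Hd F l (g q) t := by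
    refine setIntegral_congr_fun measurableSet_Ioi fun t ht => ?_
    simp only [smul_eq_mul]
    rw [hHd t ht, add_sub_cancel_right, Finset.mul_sum]
  rw [e2, integral_finsetSum]
  · rw [avg_eq_sum, Finset.mul_sum]
    exact Finset.sum_congr rfl fun q _ => (Hd_mellin hF hl (g q) hs).symm
  · intro q _
    have h := (integrable_prod hF hl (g q) hs).integral_prod_left
    refine h.congr (Filter.Eventually.of_forall fun u => ?_)
    simp only
    rw [Hd, integral_const_mul]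

/-- for every exponent -/
theorem avg_integrable [NeZero N] (hF : RSFun N F) {l : ℕ} (hl : 0 < l) {s : ℂ}
    (hs : 1 < s.re) (γ : SL(2, ℤ)) :
    IntegrableOn (fun w => F (γ • w) * Ep (l * (γ • w).re) (l * (γ • w).im) s) 𝒟 :=
  integrable_Ep hF hl hs γ

end Pool.Agent.Work.MP_2b9663_nt.Mo
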