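import Mathlib

set_option autoImplicit false

/-! Rankin-Selberg for cusp forms on `Γ₀(N)` with trivial character: definitions. -/

namespace Pool.Agent.Work.MP_2b9663_nt.Mo

open UpperHalfPlane ModularGroup MeasureTheory CongruenceSubgroup
open scoped MatrixGroups Modular

/-- `|m z + n| ^ 2 / Im z` for `z = x + i y`, `v = (m, n)`. -/
noncomputable def qf (x y : ℝ) (v : ℤ × ℤ) : ℝ :=
  ((v.1 * x + v.2) ^ 2 + (v.1 * y) ^ 2) / y

/-- The theta series of the lattice `ℤ z + ℤ`. -/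
noncomputable def Th (t x y : ℝ) : ℝ :=
  ∑' v : ℤ × ℤ, Real.exp (-(Real.pi * t * qf x y v))

/-- The Epstein zeta function (the term `v = 0` is `0 ^ (-s) = 0` for `s ≠ 0`). -/
noncomputable def Ep (x y : ℝ) (s : ℂ) : ℂ := ∑' v : ℤ × ℤ, (qf x y v : ℂ) ^ (-s)

/-- Continuous functions on `Γ₀(N) \ ℍ` which decay exponentially at all cusps. -/
structure RSFun (N : ℕ) (F : ℍ → ℂ) : Prop where
  inv : ∀ γ ∈ Gamma0 N, ∀ z, F (γ • z) = F z
  cont : Continuous F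
  decay : ∀ γ : SL(2, ℤ), ∃ C a : ℝ, 0 < a ∧
    ∀ z : ℍ, 1 / 2 ≤ z.im → ‖F (γ • z)‖ ≤ C * Real.exp (-(a * z.im))

/-- The integral of a `Γ₀(N)`-invariant function over `Γ₀(N) \ ℍ`. -/
noncomputable def avg (N : ℕ) (φ : ℍ → ℂ) : ℂ :=
  ∑' q : SL(2, ℤ) ⧸ Gamma0 N, ∫ z in 𝒟, φ ((Quotient.out q)⁻¹ • z)

/-- The strip `0 ≤ Re z < 1`. -/
def strip : Set ℍ := {z | 0 ≤ z.re ∧ z.re < 1}

/-- The zeta function without the Euler factors at `N`. -/
noncomputable def zetaN (N : ℕ) (s : ℂ) : ℂ :=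
  ∑' e : ℕ, if e.Coprime N then (e : ℂ) ^ (-s) else 0

/-- `a` is the sequence of the coefficients of a cusp form for `Γ₀(N)` of weight `k`, trivial
character, which is a normalised eigenform of all Hecke operators `T_p` (`p` prime to `N`) and `U_p`
(`p` a divisor of `N`), with the bounds of Deligne. -/
structure IsEigenform (k N : ℕ) (a : ℕ → ℝ) : Prop where
  cusp : ∃ f : CuspForm (Gamma0 N : Subgroup (GL (Fin 2) ℝ)) (k : ℤ), ∀ z : ℍ,
    HasSum (fun n : ℕ => (a n : ℂ) * Complex.exp (2 * Real.pi * Complex.I * n * z)) (f z)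
  zero : a 0 = 0
  one : a 1 = 1
  mul : ∀ m n : ℕ, m.Coprime n → a (m * n) = a m * a n
  good : ∀ p r : ℕ, p.Prime → ¬ p ∣ N → a (p ^ (r + 2)) = a p * a (p ^ (r + 1)) -
    (p : ℝ) ^ (k - 1) * a (p ^ r)
  bad : ∀ p r : ℕ, p.Prime → p ∣ N → a (p ^ (r + 1)) = a p * a (p ^ r)
  bound : ∀ p : ℕ, p.Prime → a p ^ 2 ≤ (if p ∣ N then 1 else 4) * (p : ℝ) ^ (k - 1)

/-- The trace of the `r`-th power of the Frobenius element at `p` on the Galois representation of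
the eigenform: `α_p ^ r + β_p ^ r`, if `1 - a_p X + p ^ (k - 1) X ^ 2 = (1 - α_p X) (1 - β_p X)`,
for `p` not dividing `N`, and `a_p ^ r` for `p` dividing `N` (`r ≥ 1`). -/
noncomputable def mtr (k N : ℕ) (a : ℕ → ℝ) (p r : ℕ) : ℝ :=
  if p ∣ N then a (p ^ r)
  else a (p ^ r) - if 2 ≤ r then (p : ℝ) ^ (k - 1) * a (p ^ (r - 2)) else 0

/-- The same, normalised to be unitary. -/
noncomputable def ntr (k N : ℕ) (a : ℕ → ℝ) (p r : ℕ) : ℝ :=
  mtr k N a p r / (p : ℝ) ^ ((r : ℝ) * ((k : ℝ) - 1) / 2)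

/-- The normalised coefficients. -/
noncomputable def lam (k : ℕ) (a : ℕ → ℝ) (n : ℕ) : ℝ := a n / (n : ℝ) ^ (((k : ℝ) - 1) / 2)

end Pool.Agent.Work.MP_2b9663_nt.Mo
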