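import Pool.Agent.Work.MP_2b9663_nt.Mo.Roots

set_option autoImplicit false

/-! The Euler product of the Rankin-Selberg series. -/

namespace Pool.Agent.Work.MP_2b9663_nt.Mo

open Complex

/-- A nonnegative multiplicative function is summable if the sum over the prime powers is. -/
lemma summable_of_mult {f : ℕ → ℝ} (h0 : ∀ n, 0 ≤ f n) (hf0 : f 0 = 0) (hf1 : f 1 = 1)
    (hmul : ∀ {m n : ℕ}, m.Coprime n → f (m * n) = f m * f n)
    (hp : ∀ {p : ℕ}, p.Prime → Summable fun e => f (p ^ e))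
    (hs : Summable fun p : Nat.Primes => ∑' e, f ((p : ℕ) ^ (e + 1))) : Summable f := by
  have hsn : ∀ {p : ℕ}, p.Prime → Summable fun e => ‖f (p ^ e)‖ := fun {p} h => (hp h).norm
  refine summable_of_sum_le h0 (c := Real.exp (∑' p : Nat.Primes, ∑' e, f ((p : ℕ) ^ (e + 1)))) ?_
  intro u
  classical
  set s : Finset ℕ := u.biUnion Nat.primeFactors with hsdef
  obtain ⟨h1, h2⟩ := EulerProduct.summable_and_hasSum_factoredNumbers_prod_filter_prime_tsum hf1 hmul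
    hsn s
  have h3 : ∑ n ∈ u, f n ≤ ∏ p ∈ s with p.Prime, ∑' n : ℕ, f (p ^ n) := by
    rw [← h2.tsum_eq]
    have h4 : ∑ n ∈ u, f n = ∑ n ∈ u.filter (· ≠ 0), f n := by
      rw [Finset.sum_filter]
      refine Finset.sum_congr rfl fun n _ => ?_
      by_cases hn : n = 0
      · simp [hn, hf0]
      · simp [hn]
    rw [h4]
    have h5 : ∀ n ∈ u.filter (· ≠ 0), n ∈ Nat.factoredNumbers s := by
      intro n hn
      rw [Finset.mem_filter] at hn
      exact Nat.mem_factoredNumbers_of_primeFactors_subset hn.2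
        (Finset.subset_biUnion_of_mem Nat.primeFactors hn.1)
    rw [tsum_subtype (Nat.factoredNumbers s) f]
    have h6 : ∑ n ∈ u.filter (· ≠ 0), f n =
        ∑ n ∈ u.filter (· ≠ 0), (Nat.factoredNumbers s).indicator f n :=
      Finset.sum_congr rfl fun n hn => (Set.indicator_of_mem (h5 n hn) f).symm
    rw [h6]
    refine Summable.sum_le_tsum _ (fun n _ => Set.indicator_nonneg (fun n _ => h0 n) n) ?_
    exact (summable_subtype_iff_indicator).1 h1.of_norm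
  refine h3.trans ?_
  have h7 : ∀ p ∈ s.filter Nat.Prime, ∑' n : ℕ, f (p ^ n) ≤
      Real.exp (∑' e, f (p ^ (e + 1))) := by
    intro p hpp
    rw [Finset.mem_filter] at hpp
    rw [(hp hpp.2).tsum_eq_zero_add, pow_zero, hf1, add_comm]
    exact Real.add_one_le_exp _
  refine (Finset.prod_le_prod (fun p _ => tsum_nonneg fun _ => h0 _) h7).trans ?_
  rw [← Real.exp_sum, Real.exp_le_exp]
  set g : ℕ → ℝ := fun p => ∑' e, f (p ^ (e + 1)) with hg
  have h8 : ∑ p ∈ s.filter Nat.Prime, g p = ∑ p ∈ (s.filter Nat.Prime).subtype Nat.Prime, g p := by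
    rw [Finset.sum_subtype_eq_sum_filter, Finset.filter_filter]
    simp
  rw [h8]
  exact hs.sum_le_tsum (f := fun p : Nat.Primes => g p) _ fun p _ => tsum_nonneg fun _ => h0 _

lemma norm_Xp_lt {s : ℂ} (hs : 1 < s.re) (p : Nat.Primes) :
    ‖((p : ℕ) : ℂ) ^ (-s)‖ = ((p : ℕ) : ℝ) ^ (-s.re) ∧ ‖((p : ℕ) : ℂ) ^ (-s)‖ < 1 / 2 := by
  have h1 : ‖((p : ℕ) : ℂ) ^ (-s)‖ = ((p : ℕ) : ℝ) ^ (-s.re) := by
    rw [Complex.norm_natCast_cpow_of_pos p.2.pos, Complex.neg_re]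
  refine ⟨h1, ?_⟩
  rw [h1, Real.rpow_neg (Nat.cast_nonneg _), one_div]
  have h2 : (2 : ℝ) < ((p : ℕ) : ℝ) ^ s.re := by
    have h3 : (2 : ℝ) ≤ ((p : ℕ) : ℝ) := by exact_mod_cast p.2.two_le
    calc (2 : ℝ) ≤ ((p : ℕ) : ℝ) := h3
      _ = ((p : ℕ) : ℝ) ^ (1 : ℝ) := (Real.rpow_one _).symm
      _ < ((p : ℕ) : ℝ) ^ s.re := Real.rpow_lt_rpow_of_exponent_lt (by linarith) hs
  exact inv_strictAnti₀ (by norm_num) h2

/-- the constant in the bound of the local series -/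
lemma local_bound {X : ℝ} (h0 : 0 ≤ X) (hX : X ≤ 1 / 2) :
    (Summable fun e : ℕ => ((e : ℝ) + 2) ^ 2 * X ^ (e + 1)) ∧
    ∑' e : ℕ, ((e : ℝ) + 2) ^ 2 * X ^ (e + 1) ≤ (∑' e : ℕ, ((e : ℝ) + 2) ^ 2 * (1 / 2) ^ e) * X := by
  have h1 : Summable fun e : ℕ => ((e : ℝ) + 2) ^ 2 * (1 / 2 : ℝ) ^ e := by
    have ha := summable_pow_mul_geometric_of_norm_lt_one (R := ℝ) 2 (r := 1 / 2) (by norm_num)
    have hb := summable_pow_mul_geometric_of_norm_lt_one (R := ℝ) 1 (r := 1 / 2) (by norm_num)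
    have hc := summable_pow_mul_geometric_of_norm_lt_one (R := ℝ) 0 (r := 1 / 2) (by norm_num)
    refine ((ha.add (hb.mul_left 4)).add (hc.mul_left 4)).congr ?_
    intro e
    ring
  have hle : ∀ e : ℕ, ((e : ℝ) + 2) ^ 2 * X ^ (e + 1) ≤ ((e : ℝ) + 2) ^ 2 * (1 / 2) ^ e * X := by
    intro e
    rw [pow_succ X e, ← mul_assoc]
    refine mul_le_mul_of_nonneg_right ?_ h0
    exact mul_le_mul_of_nonneg_left (pow_le_pow_left₀ h0 hX e) (by positivity)
  have h2 : Summable fun e : ℕ => ((e : ℝ) + 2) ^ 2 * X ^ (e + 1) :=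
    Summable.of_nonneg_of_le (fun e => by positivity) hle (h1.mul_right X)
  refine ⟨h2, ?_⟩
  rw [← tsum_mul_right]
  exact h2.tsum_le_tsum hle (h1.mul_right X)

section

variable {k N M : ℕ} {a b : ℕ → ℝ}

/-- the normalised product as a complex function -/
noncomputable def cc (k : ℕ) (a b : ℕ → ℝ) (s : ℂ) (n : ℕ) : ℂ :=
  ((a n * b n : ℝ) : ℂ) * (n : ℂ) ^ (-(s + k - 1))

lemma cc_zero (ha : IsEigenform k N a) (s : ℂ) : cc k a b s 0 = 0 := by
  simp [cc, ha.zero]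

lemma cc_one (ha : IsEigenform k N a) (hb : IsEigenform k M b) (s : ℂ) : cc k a b s 1 = 1 := by
  simp [cc, ha.one, hb.one]

lemma cc_mul (ha : IsEigenform k N a) (hb : IsEigenform k M b) (s : ℂ) {m n : ℕ}
    (h : m.Coprime n) : cc k a b s (m * n) = cc k a b s m * cc k a b s n := by
  unfold cc
  rw [ha.mul m n h, hb.mul m n h, Nat.cast_mul, Complex.natCast_mul_natCast_cpow]
  push_cast
  ring

lemma cc_pow (hk : 1 ≤ k) (s : ℂ) {p : ℕ} (hp : p.Prime) (e : ℕ) :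
    cc k a b s (p ^ e) = ((lam k a (p ^ e) : ℝ) : ℂ) * ((lam k b (p ^ e) : ℝ) : ℂ) *
      ((p : ℂ) ^ (-s)) ^ e := by
  have hP := PP_pos (k := k) hp
  have hPP := PP_sq hk hp
  have hp0 : (p : ℂ) ≠ 0 := by exact_mod_cast hp.ne_zero
  unfold cc
  rw [lam_pow, lam_pow]
  have h1 : ((p ^ e : ℕ) : ℂ) ^ (-(s + k - 1)) = ((p : ℂ) ^ (-s)) ^ e / (((PP k p : ℝ) : ℂ) ^ 2) ^ e := by
    have h2 : ((p ^ e : ℕ) : ℂ) ^ (-(s + k - 1)) = ((p : ℂ) ^ (-(s + k - 1))) ^ e := by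
      induction e with
      | zero => simp
      | succ e ih =>
        rw [pow_succ, Nat.cast_mul, Complex.natCast_mul_natCast_cpow, ih, pow_succ]
    have h3 : (p : ℂ) ^ (-(s + k - 1)) = (p : ℂ) ^ (-s) / ((PP k p : ℝ) : ℂ) ^ 2 := by
      rw [← Complex.ofReal_pow, hPP]
      push_cast
      rw [show -(s + k - 1) = -s - ((k - 1 : ℕ) : ℂ) by rw [Nat.cast_sub hk]; push_cast; ring,
        Complex.cpow_sub _ _ hp0, Complex.cpow_natCast]
    rw [h2, h3, div_pow]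
  rw [h1]
  have hPc : ((PP k p : ℝ) : ℂ) ≠ 0 := by exact_mod_cast hP.ne'
  push_cast
  field_simp
  ring

lemma norm_lam_pow_le (hk : 1 ≤ k) (ha : IsEigenform k N a) {p : ℕ} (hp : p.Prime) (e : ℕ) :
    ‖((lam k a (p ^ e) : ℝ) : ℂ)‖ ≤ e + 1 := by
  obtain ⟨α, β, hα, hβ, -, h1, -⟩ := exists_roots hk ha hp
  rw [h1]
  exact norm_hh_le hα hβ e

lemma norm_cc_pow_le (hk : 1 ≤ k) (ha : IsEigenform k N a) (hb : IsEigenform k M b) (s : ℂ)
    {p : ℕ} (hp : p.Prime) (e : ℕ) :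
    ‖cc k a b s (p ^ e)‖ ≤ ((e : ℝ) + 1) ^ 2 * ‖(p : ℂ) ^ (-s)‖ ^ e := by
  rw [cc_pow hk s hp, norm_mul, norm_mul, norm_pow, sq]
  refine mul_le_mul_of_nonneg_right ?_ (by positivity)
  exact mul_le_mul (norm_lam_pow_le hk ha hp e) (norm_lam_pow_le hk hb hp e) (norm_nonneg _)
    (by positivity)

/-- Absolute convergence of the Rankin-Selberg series. -/
theorem cc_summable (hk : 1 ≤ k) (ha : IsEigenform k N a) (hb : IsEigenform k M b) {s : ℂ}
    (hs : 1 < s.re) : Summable fun n => ‖cc k a b s n‖ := by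
  set C : ℝ := ∑' e : ℕ, ((e : ℝ) + 2) ^ 2 * (1 / 2) ^ e with hC
  have hsucc : ∀ p : Nat.Primes, (Summable fun e => ‖cc k a b s ((p : ℕ) ^ (e + 1))‖) ∧
      ∑' e, ‖cc k a b s ((p : ℕ) ^ (e + 1))‖ ≤ C * ((p : ℕ) : ℝ) ^ (-s.re) := by
    intro p
    obtain ⟨h1, h2⟩ := norm_Xp_lt hs p
    obtain ⟨h3, h4⟩ := local_bound (norm_nonneg (((p : ℕ) : ℂ) ^ (-s))) h2.le
    have hle : ∀ e : ℕ, ‖cc k a b s ((p : ℕ) ^ (e + 1))‖ ≤
        ((e : ℝ) + 2) ^ 2 * ‖((p : ℕ) : ℂ) ^ (-s)‖ ^ (e + 1) := by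
      intro e
      refine (norm_cc_pow_le hk ha hb s p.2 (e + 1)).trans (le_of_eq ?_)
      push_cast
      ring
    have h5 : Summable fun e => ‖cc k a b s ((p : ℕ) ^ (e + 1))‖ :=
      Summable.of_nonneg_of_le (fun _ => norm_nonneg _) hle h3
    refine ⟨h5, (h5.tsum_le_tsum hle h3).trans (h4.trans (le_of_eq ?_))⟩
    rw [h1]
  refine summable_of_mult (fun _ => norm_nonneg _) (by rw [cc_zero ha, norm_zero])
    (by rw [cc_one ha hb, norm_one]) (fun {m n} h => by rw [cc_mul ha hb s h, norm_mul]) ?_ ?_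
  · intro p hp
    exact (summable_nat_add_iff 1).1 (hsucc ⟨p, hp⟩).1
  · refine Summable.of_nonneg_of_le (fun p => tsum_nonneg fun _ => norm_nonneg _)
      (fun p => (hsucc p).2) ?_
    exact (Nat.Primes.summable_rpow.2 (by linarith)).mul_left C

/-- The sum over the prime powers in the logarithm of the Rankin-Selberg series. -/
noncomputable def locE (k N M : ℕ) (a b : ℕ → ℝ) (s : ℂ) (p : ℕ) : ℂ :=
  ∑' r : ℕ, ((ntr k N a p (r + 1) * ntr k M b p (r + 1) : ℝ) : ℂ) *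
    (p : ℂ) ^ (-(((r : ℂ) + 1) * s)) / (r + 1)

/-- the function `n ↦ n ^ (-2 s)`, `n` prime to `L` -/
noncomputable def zz (L : ℕ) (s : ℂ) (e : ℕ) : ℂ := if e.Coprime L then (e : ℂ) ^ (-s) else 0

lemma zz_zero {L : ℕ} {s : ℂ} (hs : 0 < s.re) : zz L s 0 = 0 := by
  unfold zz
  split_ifs with h
  · rw [Nat.cast_zero, Complex.zero_cpow]
    intro h0
    rw [neg_eq_zero] at h0
    rw [h0] at hs
    simp at hs
  · rfl

lemma zz_one {L : ℕ} {s : ℂ} : zz L s 1 = 1 := by simp [zz]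

lemma zz_mul {L : ℕ} {s : ℂ} {m n : ℕ} (_h : m.Coprime n) : zz L s (m * n) = zz L s m * zz L s n := by
  unfold zz
  by_cases h1 : m.Coprime L
  · by_cases h2 : n.Coprime L
    · rw [if_pos (h1.mul_left h2), if_pos h1, if_pos h2, Nat.cast_mul,
        Complex.natCast_mul_natCast_cpow]
    · rw [if_neg (fun h3 => h2 (Nat.Coprime.coprime_mul_left h3)), if_neg h2, mul_zero]
  · rw [if_neg (fun h3 => h1 (Nat.Coprime.coprime_mul_right h3)), if_neg h1, zero_mul]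

lemma zz_summable {L : ℕ} {s : ℂ} (hs : 1 < s.re) : Summable fun n => ‖zz L s n‖ := by
  have h1 : Summable fun n : ℕ => ‖(n : ℂ) ^ (-s)‖ := by
    have h2 := (Complex.summable_one_div_nat_cpow (p := s)).2 hs
    refine h2.norm.congr fun n => ?_
    rw [Complex.cpow_neg, one_div]
  refine Summable.of_nonneg_of_le (fun _ => norm_nonneg _) (fun n => ?_) h1
  unfold zz
  split_ifs
  · exact le_rfl
  · rw [norm_zero]; exact norm_nonneg _

lemma zz_pow {L : ℕ} {s : ℂ} {p : ℕ} (hp : p.Prime) (e : ℕ) :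
    zz L (2 * s) (p ^ e) = ((if p ∣ L then 0 else 1) * ((p : ℂ) ^ (-s)) ^ 2) ^ e := by
  have h2 : ((p ^ e : ℕ) : ℂ) ^ (-(2 * s)) = ((p : ℂ) ^ (-(2 * s))) ^ e := by
    induction e with
    | zero => simp
    | succ e ih =>
      rw [pow_succ, Nat.cast_mul, Complex.natCast_mul_natCast_cpow, ih, pow_succ]
  have h3 : (p : ℂ) ^ (-(2 * s)) = ((p : ℂ) ^ (-s)) ^ 2 := by
    rw [← Complex.cpow_nat_mul]
    congr 1
    push_cast
    ring
  unfold zz
  by_cases hL : p ∣ L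
  · rw [if_pos hL, zero_mul]
    rcases Nat.eq_zero_or_pos e with rfl | he
    · simp
    · rw [zero_pow he.ne', if_neg]
      rw [Nat.coprime_pow_left_iff he, Nat.Prime.coprime_iff_not_dvd hp]
      exact not_not.2 hL
  · rw [if_neg hL, one_mul, if_pos (Nat.Coprime.pow_left _ ((Nat.Prime.coprime_iff_not_dvd hp).2 hL)),
      h2, h3]

/-- logarithm of a geometric series -/
lemma exp_geom {z : ℂ} (hz : ‖z‖ < 1) :
    HasSum (fun r : ℕ => z ^ (r + 1) / (r + 1)) (-Complex.log (1 - z)) ∧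
      Complex.exp (-Complex.log (1 - z)) = (1 - z)⁻¹ := by
  constructor
  · have h := Complex.hasSum_taylorSeries_neg_log hz
    have h2 := (hasSum_nat_add_iff' 1).2 h
    simpa using h2
  · rw [Complex.exp_neg, Complex.exp_log]
    intro h0
    have h1 : z = 1 := by linear_combination -h0
    rw [h1, norm_one] at hz
    exact lt_irrefl _ hz

/-- The local identity. -/
lemma local_identity (hk : 1 ≤ k) (ha : IsEigenform k N a) (hb : IsEigenform k M b) {s : ℂ}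
    (hs : 1 < s.re) (p : Nat.Primes) :
    (∑' e, zz (N.lcm M) (2 * s) ((p : ℕ) ^ e)) * ∑' e, cc k a b s ((p : ℕ) ^ e) =
      Complex.exp (locE k N M a b s p) := by
  obtain ⟨α, β, hα, hβ, hαβ, h1, h2⟩ := exists_roots hk ha p.2
  obtain ⟨γ, δ, hγ, hδ, hγδ, h3, h4⟩ := exists_roots hk hb p.2
  set X : ℂ := ((p : ℕ) : ℂ) ^ (-s) with hXdef
  have hX := (norm_Xp_lt hs p).2
  rw [← hXdef] at hX
  have hX1 : ‖X‖ < 1 := by linarith
  obtain ⟨g1, g2⟩ := hh_gen hα hβ hγ hδ hX1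
  -- the values of the four products
  have hz : ∀ {u v : ℂ}, ‖u‖ ≤ 1 → ‖v‖ ≤ 1 → ‖u * v * X‖ < 1 := by
    intro u v hu hv
    rw [norm_mul, norm_mul]
    calc ‖u‖ * ‖v‖ * ‖X‖ ≤ 1 * 1 * ‖X‖ := by
          refine mul_le_mul_of_nonneg_right ?_ (norm_nonneg _)
          exact mul_le_mul hu hv (norm_nonneg _) zero_le_one
      _ < 1 := by simpa using hX1
  have hne : ∀ {u v : ℂ}, ‖u‖ ≤ 1 → ‖v‖ ≤ 1 → 1 - u * v * X ≠ 0 := by
    intro u v hu hv h0
    have h5 : u * v * X = 1 := by linear_combination -h0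
    have h6 := hz hu hv
    rw [h5, norm_one] at h6
    exact lt_irrefl _ h6
  have hL : α * β * γ * δ = if (p : ℕ) ∣ N.lcm M then 0 else 1 := by
    have h5 : α * β * γ * δ = (α * β) * (γ * δ) := by ring
    rw [h5, hαβ, hγδ]
    by_cases hN : (p : ℕ) ∣ N
    · rw [if_pos hN, if_pos (hN.trans (Nat.dvd_lcm_left N M)), zero_mul]
    · by_cases hM : (p : ℕ) ∣ M
      · rw [if_pos hM, if_pos (hM.trans (Nat.dvd_lcm_right N M)), mul_zero]
      · rw [if_neg hN, if_neg hM, if_neg, one_mul]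
        intro h6
        have h7 := h6.trans (Nat.lcm_dvd_mul N M)
        rcases (Nat.Prime.dvd_mul p.2).1 h7 with h8 | h8
        · exact hN h8
        · exact hM h8
  -- the zeta factor
  have hc : ‖α * β * γ * δ * X ^ 2‖ < 1 := by
    have h5 : α * β * γ * δ * X ^ 2 = (α * γ * X) * (β * δ * X) := by ring
    rw [h5, norm_mul]
    have h6 := hz hα hγ
    have h7 := hz hβ hδ
    nlinarith [norm_nonneg (α * γ * X), norm_nonneg (β * δ * X)]
  have hzeta : ∑' e, zz (N.lcm M) (2 * s) ((p : ℕ) ^ e) = (1 - α * β * γ * δ * X ^ 2)⁻¹ := by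
    rw [← tsum_geometric_of_norm_lt_one hc]
    refine tsum_congr fun e => ?_
    rw [zz_pow p.2, hL]
  have hcc : ∑' e, cc k a b s ((p : ℕ) ^ e) = ∑' e, hh α β e * hh γ δ e * X ^ e := by
    refine tsum_congr fun e => ?_
    rw [cc_pow hk s p.2, h1, h3]
  have hE : locE k N M a b s p = -Complex.log (1 - α * γ * X) + -Complex.log (1 - α * δ * X) +
      -Complex.log (1 - β * γ * X) + -Complex.log (1 - β * δ * X) := by
    have hs' := (((exp_geom (hz hα hγ)).1.add (exp_geom (hz hα hδ)).1).add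
      (exp_geom (hz hβ hγ)).1).add (exp_geom (hz hβ hδ)).1
    rw [← hs'.tsum_eq, locE]
    refine tsum_congr fun r => ?_
    have h5 : ((p : ℕ) : ℂ) ^ (-(((r : ℂ) + 1) * s)) = X ^ (r + 1) := by
      rw [hXdef, ← Complex.cpow_nat_mul]
      congr 1
      push_cast
      ring
    rw [h5, Complex.ofReal_mul, h2 (r + 1) (Nat.succ_pos r), h4 (r + 1) (Nat.succ_pos r)]
    ring
  rw [hzeta, hcc, hE, Complex.exp_add, Complex.exp_add, Complex.exp_add, (exp_geom (hz hα hγ)).2,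
    (exp_geom (hz hα hδ)).2, (exp_geom (hz hβ hγ)).2, (exp_geom (hz hβ hδ)).2]
  have hq : 1 - α * β * γ * δ * X ^ 2 ≠ 0 := by
    intro h0
    have h5 : α * β * γ * δ * X ^ 2 = 1 := by linear_combination -h0
    rw [h5, norm_one] at hc
    exact lt_irrefl _ hc
  have e1 := hne hα hγ
  have e2 := hne hα hδ
  have e3 := hne hβ hγ
  have e4 := hne hβ hδ
  rw [inv_mul_eq_iff_eq_mul₀ hq, ← g2]
  have key : ∀ T u v w x : ℂ, u ≠ 0 → v ≠ 0 → w ≠ 0 → x ≠ 0 →
      T = T * (u * v * w * x) * (u⁻¹ * v⁻¹ * w⁻¹ * x⁻¹) := by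
    intro T u v w x hu hv hw hx
    field_simp
  exact key _ _ _ _ _ e1 e2 e3 e4

lemma ntr_abs_le (hk : 1 ≤ k) (ha : IsEigenform k N a) {p r : ℕ} (hp : p.Prime) (hr : 1 ≤ r) :
    |ntr k N a p r| ≤ 2 := by
  obtain ⟨α, β, hα, hβ, -, -, h1⟩ := exists_roots hk ha hp
  rw [← Real.norm_eq_abs, ← Complex.norm_real, h1 r hr]
  refine (norm_add_le _ _).trans ?_
  rw [norm_pow, norm_pow]
  have h2 := pow_le_one₀ (n := r) (norm_nonneg α) hα
  have h3 := pow_le_one₀ (n := r) (norm_nonneg β) hβ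
  linarith

/-- Bound for the local logarithm. -/
lemma norm_locE_le (hk : 1 ≤ k) (ha : IsEigenform k N a) (hb : IsEigenform k M b) {s : ℂ}
    (hs : 1 < s.re) (p : Nat.Primes) :
    ‖locE k N M a b s p‖ ≤ 8 * ((p : ℕ) : ℝ) ^ (-s.re) := by
  obtain ⟨h1, h2⟩ := norm_Xp_lt hs p
  set X : ℂ := ((p : ℕ) : ℂ) ^ (-s) with hXdef
  have hterm : ∀ r : ℕ, ‖((ntr k N a p (r + 1) * ntr k M b p (r + 1) : ℝ) : ℂ) *
      ((p : ℕ) : ℂ) ^ (-(((r : ℂ) + 1) * s)) / (r + 1)‖ ≤ 4 * ‖X‖ * (1 / 2) ^ r := by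
    intro r
    have h5 : ((p : ℕ) : ℂ) ^ (-(((r : ℂ) + 1) * s)) = X ^ (r + 1) := by
      rw [hXdef, ← Complex.cpow_nat_mul]
      congr 1
      push_cast
      ring
    rw [h5, norm_div, norm_mul, norm_pow, Complex.norm_real, Real.norm_eq_abs, abs_mul]
    have h6 : |ntr k N a p (r + 1)| * |ntr k M b p (r + 1)| ≤ 2 * 2 :=
      mul_le_mul (ntr_abs_le hk ha p.2 (Nat.succ_pos r)) (ntr_abs_le hk hb p.2 (Nat.succ_pos r))
        (abs_nonneg _) (by norm_num)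
    have h7 : (1 : ℝ) ≤ ‖((r : ℂ) + 1)‖ := by
      have : ((r : ℂ) + 1) = ((r + 1 : ℕ) : ℂ) := by push_cast; ring
      rw [this, Complex.norm_natCast]
      push_cast
      linarith [Nat.cast_nonneg (α := ℝ) r]
    have h8 : ‖X‖ ^ (r + 1) ≤ ‖X‖ * (1 / 2) ^ r := by
      rw [pow_succ, mul_comm]
      exact mul_le_mul_of_nonneg_left (pow_le_pow_left₀ (norm_nonneg _) h2.le r) (norm_nonneg _)
    calc |ntr k N a p (r + 1)| * |ntr k M b p (r + 1)| * ‖X‖ ^ (r + 1) / ‖((r : ℂ) + 1)‖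
        ≤ |ntr k N a p (r + 1)| * |ntr k M b p (r + 1)| * ‖X‖ ^ (r + 1) :=
          div_le_self (by positivity) h7
      _ ≤ 2 * 2 * (‖X‖ * (1 / 2) ^ r) := mul_le_mul h6 h8 (by positivity) (by norm_num)
      _ = 4 * ‖X‖ * (1 / 2) ^ r := by ring
  have hsum : Summable fun r : ℕ => 4 * ‖X‖ * (1 / 2 : ℝ) ^ r :=
    (summable_geometric_of_lt_one (by norm_num) (by norm_num)).mul_left _
  have h9 := tsum_of_norm_bounded hsum.hasSum hterm
  rw [tsum_mul_left, tsum_geometric_of_lt_one (by norm_num) (by norm_num), h1] at h9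
  refine h9.trans (le_of_eq ?_)
  ring

/-- **The Euler product of the Rankin-Selberg series.** -/
theorem euler_rs (hk : 1 ≤ k) (ha : IsEigenform k N a) (hb : IsEigenform k M b) {s : ℂ}
    (hs : 1 < s.re) :
    zetaN (N.lcm M) (2 * s) * ∑' n : ℕ, ((a n * b n : ℝ) : ℂ) * (n : ℂ) ^ (-(s + k - 1)) =
      Complex.exp (∑' p : Nat.Primes, locE k N M a b s p) := by
  have h2s : 1 < (2 * s).re := by
    simp only [Complex.mul_re, Complex.re_ofNat, Complex.im_ofNat, zero_mul, sub_zero]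
    linarith
  have h1 := EulerProduct.eulerProduct_hasProd (f := zz (N.lcm M) (2 * s)) zz_one zz_mul
    (zz_summable h2s) (zz_zero (by linarith))
  have h2 := EulerProduct.eulerProduct_hasProd (f := cc k a b s) (cc_one ha hb s)
    (fun {m n} h => cc_mul ha hb s h) (cc_summable hk ha hb hs) (cc_zero ha s)
  have h3 := h1.mul h2
  have h4 : Summable fun p : Nat.Primes => locE k N M a b s p := by
    refine Summable.of_norm_bounded ?_ (fun p => norm_locE_le hk ha hb hs p)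
    exact (Nat.Primes.summable_rpow.2 (by linarith)).mul_left 8
  have h5 := h4.hasSum.cexp
  have h6 : (fun p : Nat.Primes => (∑' e, zz (N.lcm M) (2 * s) ((p : ℕ) ^ e)) *
      ∑' e, cc k a b s ((p : ℕ) ^ e)) = cexp ∘ fun p : Nat.Primes => locE k N M a b s p := by
    funext p
    exact local_identity hk ha hb hs p
  rw [h6] at h3
  exact h3.unique h5

end

end Pool.Agent.Work.MP_2b9663_nt.Mo
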