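import Pool.Agent.Work.MP_2b9663_nt.Mo.Euler

set_option autoImplicit false

/-! Landau's lemma for exponentials of Dirichlet series supported on the prime powers. -/

namespace Pool.Agent.Work.MP_2b9663_nt.Mo

open Complex Filter Topology
open scoped ComplexOrder

/-- The iterated derivatives of `exp ∘ G` alternate if those of `G` do. -/
lemma exp_alternating {G : ℂ → ℂ} {U : Set ℂ} (hU : IsOpen U) {c : ℂ} (hc : c ∈ U)
    (hG : DifferentiableOn ℂ G U) (h : ∀ n, 0 ≤ (-1) ^ n * iteratedDeriv n G c) (n : ℕ) :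
    0 ≤ (-1) ^ n * iteratedDeriv n (fun s => Complex.exp (G s)) c := by
  have hGa : ∀ z ∈ U, AnalyticAt ℂ G z := fun z hz => hG.analyticAt (hU.mem_nhds hz)
  have hEa : AnalyticAt ℂ (fun s => Complex.exp (G s)) c := (hGa c hc).cexp
  have hGc : AnalyticAt ℂ (deriv G) c := (hGa c hc).deriv
  induction n using Nat.strong_induction_on with
  | _ n ih =>
    match n, ih with
    | 0, _ =>
      have h0 := h 0
      simp only [pow_zero, one_mul, iteratedDeriv_zero] at h0 ⊢
      rw [Complex.nonneg_iff] at h0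
      have h1 : G c = ((G c).re : ℂ) := by
        apply Complex.ext
        · simp
        · simp [h0.2.symm]
      rw [h1, ← Complex.ofReal_exp]
      exact_mod_cast (Real.exp_pos _).le
    | (n + 1), ih =>
      have h1 : deriv (fun s => Complex.exp (G s)) =ᶠ[𝓝 c]
          ((fun s => Complex.exp (G s)) * deriv G) := by
        filter_upwards [hU.mem_nhds hc] with z hz
        rw [Pi.mul_apply]
        exact ((hGa z hz).differentiableAt.hasDerivAt.cexp).deriv
      rw [iteratedDeriv_succ', h1.iteratedDeriv_eq, iteratedDeriv_mul hEa.contDiffAt hGc.contDiffAt,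
        Finset.mul_sum]
      refine Finset.sum_nonneg fun i hi => ?_
      have hi' : i ≤ n := Nat.lt_succ_iff.1 (Finset.mem_range.1 hi)
      have h2 := ih i (by omega)
      have h3 := h (n - i + 1)
      rw [iteratedDeriv_succ'] at h3
      have h4 : (-1 : ℂ) ^ (n + 1) = (-1) ^ i * (-1) ^ (n - i + 1) := by
        rw [← pow_add]
        congr 1
        omega
      have h5 : (-1 : ℂ) ^ (n + 1) * ((n.choose i : ℂ) *
          iteratedDeriv i (fun s => Complex.exp (G s)) c * iteratedDeriv (n - i) (deriv G) c) =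
          (n.choose i : ℂ) * (((-1) ^ i * iteratedDeriv i (fun s => Complex.exp (G s)) c) *
            ((-1) ^ (n - i + 1) * iteratedDeriv (n - i) (deriv G) c)) := by
        rw [h4]
        ring
      rw [h5]
      exact mul_nonneg (by exact_mod_cast Nat.zero_le _) (mul_nonneg h2 h3)

section

variable {c : ℕ → ℕ → ℝ} {C : ℝ}

open Classical in
/-- the coefficients at the prime powers -/
noncomputable def ell (c : ℕ → ℕ → ℝ) (n : ℕ) : ℂ :=
  if IsPrimePow n then ((c n.minFac (n.factorization n.minFac) /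
    (n.factorization n.minFac : ℝ) : ℝ) : ℂ) else 0

lemma ell_pow (p : Nat.Primes) (r : ℕ) :
    ell c ((p : ℕ) ^ (r + 1)) = ((c p (r + 1) / ((r : ℝ) + 1) : ℝ) : ℂ) := by
  unfold ell
  rw [if_pos (p.2.isPrimePow.pow (Nat.succ_ne_zero r)), Nat.Prime.pow_minFac p.2 (Nat.succ_ne_zero r),
    Nat.Prime.factorization_pow p.2]
  simp

lemma ell_bound (h0 : ∀ p r, 0 ≤ c p r) (hC : ∀ p r, c p r ≤ C) (n : ℕ) : ‖ell c n‖ ≤ C := by
  have hC0 : 0 ≤ C := (h0 0 0).trans (hC 0 0)
  unfold ell
  split_ifs with h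
  · rw [Complex.norm_real, Real.norm_eq_abs, abs_of_nonneg (div_nonneg (h0 _ _) (Nat.cast_nonneg _))]
    rcases Nat.eq_zero_or_pos (n.factorization n.minFac) with h1 | h1
    · rw [h1, Nat.cast_zero, div_zero]
      exact hC0
    · refine (div_le_self (h0 _ _) (by exact_mod_cast h1)).trans (hC _ _)
  · rw [norm_zero]
    exact hC0

lemma ell_nonneg (h0 : ∀ p r, 0 ≤ c p r) : 0 ≤ ell c := by
  intro n
  rw [Pi.zero_apply]
  unfold ell
  split_ifs with h
  · rw [Complex.zero_le_real]
    exact div_nonneg (h0 _ _) (Nat.cast_nonneg _)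
  · exact le_rfl

lemma ell_summable (h0 : ∀ p r, 0 ≤ c p r) (hC : ∀ p r, c p r ≤ C) {s : ℂ} (hs : 1 < s.re) :
    LSeriesSummable (ell c) s :=
  LSeriesSummable_of_bounded_of_one_lt_re (fun n _ => ell_bound h0 hC n) hs

lemma ell_abscissa (h0 : ∀ p r, 0 ≤ c p r) (hC : ∀ p r, c p r ≤ C) :
    LSeries.abscissaOfAbsConv (ell c) ≤ 1 := by
  refine LSeries.abscissaOfAbsConv_le_of_forall_lt_LSeriesSummable fun y hy => ?_
  exact ell_summable h0 hC (by simpa using hy)

lemma ell_LSeries (h0 : ∀ p r, 0 ≤ c p r) (hC : ∀ p r, c p r ≤ C) {s : ℂ} (hs : 1 < s.re) :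
    LSeries (ell c) s = ∑' p : Nat.Primes, ∑' r : ℕ, ((c p (r + 1) : ℝ) : ℂ) *
      ((p : ℕ) : ℂ) ^ (-(((r : ℂ) + 1) * s)) / (r + 1) := by
  have h1 : Summable (LSeries.term (ell c) s) := ell_summable h0 hC hs
  have h2 : Function.support (LSeries.term (ell c) s) ⊆ {n | IsPrimePow n} := by
    intro n hn
    by_contra h3
    apply hn
    rw [Set.mem_setOf_eq] at h3
    rw [LSeries.term_def]
    split_ifs with h4
    · rfl
    · unfold ell
      rw [if_neg h3, zero_div]
  rw [LSeries, tsum_eq_tsum_primes_of_support_subset_prime_powers h1 h2]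
  refine tsum_congr fun p => tsum_congr fun r => ?_
  rw [LSeries.term_of_ne_zero (pow_ne_zero _ p.2.ne_zero), ell_pow]
  have h5 : (((p : ℕ) ^ (r + 1) : ℕ) : ℂ) ^ s = ((p : ℕ) : ℂ) ^ ((((r : ℂ) + 1)) * s) := by
    have h6 : (((p : ℕ) ^ (r + 1) : ℕ) : ℂ) = ((p : ℕ) : ℂ) ^ (((r + 1 : ℕ)) : ℂ) := by
      rw [Complex.cpow_natCast]
      push_cast
      rfl
    rw [h6]
    have h7 := Complex.natCast_cpow_natCast_mul (p : ℕ) (r + 1) s
    rw [← Complex.cpow_natCast] at h7
    rw [← h7]
    push_cast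
    rfl
  rw [h5, Complex.cpow_neg]
  push_cast
  have hr : ((r : ℂ) + 1) ≠ 0 := Nat.cast_add_one_ne_zero r
  have hp : ((p : ℕ) : ℂ) ^ ((((r : ℂ) + 1)) * s) ≠ 0 := by
    rw [Ne, Complex.cpow_eq_zero_iff]
    push Not
    intro h8
    exact absurd h8 (by exact_mod_cast p.2.ne_zero)
  field_simp

/-- **Landau's lemma.** An entire function which is, for `Re s > 1`, the exponential of a Dirichlet
series with nonnegative bounded coefficients on the prime powers has no real zero. -/
theorem landau_exp (h0 : ∀ p r, 0 ≤ c p r) (hC : ∀ p r, c p r ≤ C) {Z : ℂ → ℂ}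
    (hZ : Differentiable ℂ Z)
    (hZ' : ∀ s : ℂ, 1 < s.re → Z s = Complex.exp (∑' p : Nat.Primes, ∑' r : ℕ,
      ((c p (r + 1) : ℝ) : ℂ) * ((p : ℕ) : ℂ) ^ (-(((r : ℂ) + 1) * s)) / (r + 1)))
    {y : ℝ} (hy : y ≤ 2) : Z y ≠ 0 := by
  set U : Set ℂ := {s | 1 < s.re} with hU
  have hUo : IsOpen U := continuous_re.isOpen_preimage _ isOpen_Ioi
  have h2 : (2 : ℂ) ∈ U := by simp [hU]
  have hab := ell_abscissa h0 hC
  have hG : DifferentiableOn ℂ (LSeries (ell c)) U := by
    refine (LSeries_differentiableOn (ell c)).mono fun s hs => ?_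
    exact hab.trans_lt (by exact_mod_cast (show (1 : ℝ) < s.re from hs))
  have halt : ∀ n, 0 ≤ (-1) ^ n * iteratedDeriv n (LSeries (ell c)) (2 : ℂ) := by
    intro n
    have := LSeries.iteratedDeriv_alternating (ell_nonneg h0) (x := 2)
      (hab.trans_lt (by norm_cast)) n
    simpa using this
  have hEq : Set.EqOn Z (fun s => Complex.exp (LSeries (ell c) s)) U := by
    intro s hs
    rw [hZ' s hs]
    beta_reduce
    rw [ell_LSeries h0 hC hs]
  have hZalt : ∀ n ≠ 0, 0 ≤ (-1) ^ n * iteratedDeriv n Z (2 : ℂ) := by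
    intro n _
    rw [hEq.iteratedDeriv_of_isOpen hUo n h2]
    exact exp_alternating hUo h2 hG halt n
  have hle := hZ.apply_le_of_iteratedDeriv_alternating hZalt
    (z := (y : ℂ)) (by exact_mod_cast hy)
  have hpos : 0 < Z 2 := by
    rw [hEq h2]
    beta_reduce
    have h3 := halt 0
    simp only [pow_zero, one_mul, iteratedDeriv_zero] at h3
    rw [Complex.nonneg_iff] at h3
    have h4 : LSeries (ell c) 2 = ((LSeries (ell c) 2).re : ℂ) := by
      apply Complex.ext
      · simp
      · simp [h3.2.symm]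
    rw [h4, ← Complex.ofReal_exp]
    exact_mod_cast Real.exp_pos _
  exact (hpos.trans_le hle).ne'

end

end Pool.Agent.Work.MP_2b9663_nt.Mo
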