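import Pool.Agent.Work.MP_2b9663_nt.Mo.Unfold

set_option autoImplicit false

/-! The invariance of the integral under the normaliser of `Γ₀(N)`. -/

namespace Pool.Agent.Work.MP_2b9663_nt.Mo

open UpperHalfPlane ModularGroup MeasureTheory CongruenceSubgroup Set
open scoped MatrixGroups Modular

/-! ### The volume of the fundamental domain -/

theorem volume_fd_lt_top : volume (𝒟 : Set ℍ) < ⊤ := by
  rw [volume_eq_lintegral]
  have hsub : UpperHalfPlane.coe '' (𝒟 : Set ℍ) ⊆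
      Complex.measurableEquivRealProd ⁻¹' (Icc (-(1 / 2)) (1 / 2) ×ˢ Ioi (1 / 2)) := by
    rintro _ ⟨z, hz, rfl⟩
    have h1 := abs_le.1 hz.2
    have h2 := three_le_four_mul_im_sq_of_mem_fd hz
    have h3 := z.im_pos
    have h4 : 1 / 2 < z.im := by nlinarith
    simp only [mem_preimage, Complex.measurableEquivRealProd_apply, mem_prod, mem_Icc, mem_Ioi,
      coe_re, coe_im]
    exact ⟨⟨h1.1, h1.2⟩, h4⟩
  refine lt_of_le_of_lt (lintegral_mono_set hsub) ?_
  have h1 : ∫⁻ z in Complex.measurableEquivRealProd ⁻¹' (Icc (-(1 / 2)) (1 / 2) ×ˢ Ioi (1 / 2)),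
      (((1 / ‖z.im‖₊) ^ 2 : NNReal) : ENNReal) =
      ∫⁻ p in (Icc (-(1 / 2)) (1 / 2) ×ˢ Ioi (1 / 2) : Set (ℝ × ℝ)),
        (((1 / ‖p.2‖₊) ^ 2 : NNReal) : ENNReal) := by
    rw [← Complex.volume_preserving_equiv_real_prod.setLIntegral_comp_preimage_emb
      Complex.measurableEquivRealProd.measurableEmbedding]
    rfl
  rw [h1, Measure.volume_eq_prod, ← Measure.prod_restrict]
  rw [lintegral_prod_symm' _ (by fun_prop)]
  simp only [lintegral_const, Measure.restrict_apply MeasurableSet.univ, univ_inter,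
    Real.volume_Icc]
  rw [lintegral_mul_const _ (by fun_prop)]
  refine ENNReal.mul_lt_top ?_ ENNReal.ofReal_lt_top
  have h2 : IntegrableOn (fun y : ℝ => y ^ (-2 : ℝ)) (Ioi (1 / 2)) :=
    integrableOn_Ioi_rpow_of_lt (by norm_num) (by norm_num)
  have h3 := h2.2
  rw [HasFiniteIntegral] at h3
  refine lt_of_le_of_lt (le_of_eq ?_) h3
  refine setLIntegral_congr_fun measurableSet_Ioi fun y hy => ?_
  have hy0 : (0 : ℝ) < y := lt_trans (by norm_num) hy
  rw [enorm_eq_nnnorm]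
  congr 1
  rw [← NNReal.coe_inj]
  push_cast
  rw [Real.norm_of_nonneg (Real.rpow_nonneg hy0.le _), Real.rpow_neg hy0.le,
    show (2 : ℝ) = ((2 : ℕ) : ℝ) by norm_num, Real.rpow_natCast]
  first
    | rw [Real.norm_of_nonneg hy0.le, one_div, inv_pow]
    | rw [one_div, inv_pow]

theorem integrable_part_of_bdd {φ : ℍ → ℂ} (hc : Continuous φ) {C : ℝ} (hb : ∀ z, ‖φ z‖ ≤ C)
    (γ : SL(2, ℤ)) : Integrable (part φ γ) := by
  unfold part
  rw [integrable_indicator_iff (measurableSet_part γ)]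
  have hv : volume {w : ℍ | γ • w ∈ 𝒟} < ⊤ := by
    rw [show {w : ℍ | γ • w ∈ 𝒟} = (fun z : ℍ => γ • z) ⁻¹' 𝒟 from rfl,
      (mp_smul γ).measure_preimage measurableSet_fd.nullMeasurableSet]
    exact volume_fd_lt_top
  haveI : IsFiniteMeasure (volume.restrict {w : ℍ | γ • w ∈ 𝒟}) :=
    ⟨by rw [Measure.restrict_apply_univ]; exact hv⟩
  exact Integrable.of_bound hc.aestronglyMeasurable C (Filter.Eventually.of_forall hb)

/-! ### The average as an integral over the half plane -/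

variable {N : ℕ} [NeZero N]

instance : Finite (SL(2, ℤ) ⧸ Gamma0 N) := inferInstance

/-- The number of the translates of the fundamental domain over a point. -/
noncomputable def wt (N : ℕ) (z : ℍ) : ℂ :=
  ∑' q : SL(2, ℤ) ⧸ Gamma0 N, part (fun _ => (1 : ℂ)) (Quotient.out q) z

theorem part_mul (φ : ℍ → ℂ) (γ : SL(2, ℤ)) (z : ℍ) :
    part (fun _ => (1 : ℂ)) γ z * φ z = part φ γ z := by
  unfold part
  by_cases h : z ∈ {w : ℍ | γ • w ∈ 𝒟}
  · rw [indicator_of_mem h, indicator_of_mem h, one_mul]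
  · rw [indicator_of_notMem h, indicator_of_notMem h, zero_mul]

theorem wt_mul (φ : ℍ → ℂ) (z : ℍ) :
    wt N z * φ z = ∑' q : SL(2, ℤ) ⧸ Gamma0 N, part φ (Quotient.out q) z := by
  unfold wt
  rw [← tsum_mul_right]
  exact tsum_congr fun q => part_mul φ _ z

theorem integrable_wt_mul {φ : ℍ → ℂ} (hc : Continuous φ) {C : ℝ} (hb : ∀ z, ‖φ z‖ ≤ C) :
    Integrable fun z => wt N z * φ z := by
  haveI := Fintype.ofFinite (SL(2, ℤ) ⧸ Gamma0 N)
  simp only [wt_mul, tsum_fintype]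
  exact integrable_finset_sum _ fun q _ => integrable_part_of_bdd hc hb _

theorem integral_wt_mul {φ : ℍ → ℂ} (hc : Continuous φ) {C : ℝ} (hb : ∀ z, ‖φ z‖ ≤ C) :
    ∫ z, wt N z * φ z = avg N φ := by
  haveI := Fintype.ofFinite (SL(2, ℤ) ⧸ Gamma0 N)
  unfold avg
  simp only [wt_mul, tsum_fintype]
  rw [integral_finset_sum _ fun q _ => integrable_part_of_bdd hc hb _]
  exact Finset.sum_congr rfl fun q _ => integral_part φ _

/-- `SL(2, ℤ)` as the product of `Γ₀(N)` and the cosets, in the other order. -/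
noncomputable def cosetEquiv' (N : ℕ) : Gamma0 N × (SL(2, ℤ) ⧸ Gamma0 N) ≃ SL(2, ℤ) :=
  ((Equiv.prodComm _ _).trans ((Equiv.prodCongr (Equiv.refl _) (Equiv.inv _)).trans
    (cosetEquiv N))).trans (Equiv.inv _)

theorem cosetEquiv'_apply (N : ℕ) (q : SL(2, ℤ) ⧸ Gamma0 N) (δ : Gamma0 N) :
    cosetEquiv' N (δ, q) = Quotient.out q * (δ : SL(2, ℤ)) := by
  show ((((δ⁻¹ : Gamma0 N) : SL(2, ℤ)) * (Quotient.out q)⁻¹))⁻¹ = _
  rw [mul_inv_rev, inv_inv]
  simp

/-- The weights add up to `2`. -/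
theorem tsum_wt : ∀ᵐ z : ℍ, ∑' δ : Gamma0 N, wt N ((δ : SL(2, ℤ)) • z) = 2 := by
  filter_upwards [hasSum_part fun _ => (1 : ℂ)] with z hz
  haveI := Fintype.ofFinite (SL(2, ℤ) ⧸ Gamma0 N)
  rw [mul_one] at hz
  have h1 := (cosetEquiv' N).hasSum_iff.2 hz
  have h2 := h1.prod_fiberwise (g := fun δ : Gamma0 N => wt N ((δ : SL(2, ℤ)) • z)) (by
    intro δ
    have h3 := hasSum_fintype fun q : SL(2, ℤ) ⧸ Gamma0 N =>
      ((fun γ => part (fun _ => (1 : ℂ)) γ z) ∘ cosetEquiv' N) (δ, q)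
    convert! h3 using 1
    unfold wt
    rw [tsum_fintype]
    refine Finset.sum_congr rfl fun q _ => ?_
    simp only [Function.comp_apply, cosetEquiv'_apply]
    unfold part
    by_cases h : Quotient.out q • ((δ : SL(2, ℤ)) • z) ∈ 𝒟
    · rw [indicator_of_mem, indicator_of_mem]
      · show (Quotient.out q * (δ : SL(2, ℤ))) • z ∈ 𝒟
        rw [mul_smul]
        exact h
      · exact h
    · rw [indicator_of_notMem, indicator_of_notMem]
      · show ¬ (Quotient.out q * (δ : SL(2, ℤ))) • z ∈ 𝒟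
        rw [mul_smul]
        exact h
      · exact h)
  exact h2.tsum_eq

theorem avg_congr {φ ψ : ℍ → ℂ} (h : ∀ᵐ z : ℍ, φ z = ψ z) : avg N φ = avg N ψ := by
  unfold avg
  refine tsum_congr fun q => ?_
  refine integral_congr_ae (ae_restrict_of_ae ?_)
  exact (mp_smul (Quotient.out q)⁻¹).quasiMeasurePreserving.ae h

theorem avg_const_mul (c : ℂ) (φ : ℍ → ℂ) : avg N (fun z => c * φ z) = c * avg N φ := by
  unfold avg
  rw [← tsum_mul_left]
  exact tsum_congr fun q => integral_const_mul _ _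

/-- **The invariance of the average under the normaliser.** -/
theorem avg_normalizer {φ : ℍ → ℂ} (hφ : ∀ γ ∈ Gamma0 N, ∀ z, φ (γ • z) = φ z)
    (hc : Continuous φ) (hb : ∃ C, ∀ z, ‖φ z‖ ≤ C) (W : GL (Fin 2) ℝ) (hdet : 0 < W.det.val)
    (hW : ∀ γ : GL (Fin 2) ℝ, γ ∈ (Gamma0 N : Subgroup (GL (Fin 2) ℝ)) ↔
      W * γ * W⁻¹ ∈ (Gamma0 N : Subgroup (GL (Fin 2) ℝ))) :
    avg N (fun z => φ (W • z)) = avg N φ := by
  obtain ⟨C, hC⟩ := hb
  have hmp : MeasurePreserving (fun z : ℍ => W • z) volume volume := measurePreserving_smul W volume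
  have hme : MeasurableEmbedding (fun z : ℍ => W • z) := (MeasurableEquiv.smul W).measurableEmbedding
  have hmp' : MeasurePreserving (fun z : ℍ => W⁻¹ • z) volume volume :=
    measurePreserving_smul W⁻¹ volume
  have hcW : Continuous fun z : ℍ => φ (W • z) := hc.comp (continuous_const_smul W)
  -- the integral over the half plane
  rw [← integral_wt_mul hcW fun z => hC _]
  have h1 : ∫ z, wt N z * φ (W • z) = ∫ z, wt N (W⁻¹ • z) * φ z := by
    rw [← hmp.integral_comp hme fun z => wt N (W⁻¹ • z) * φ z]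
    simp only [inv_smul_smul]
  have h2 : Integrable fun z => wt N (W⁻¹ • z) * φ z := by
    have h3 := integrable_wt_mul (N := N) hcW fun z => hC _
    have h4 := (hmp.integrable_comp_emb hme (g := fun z => wt N (W⁻¹ • z) * φ z)).1
    apply h4
    simp only [Function.comp_def, inv_smul_smul]
    exact h3
  rw [h1, unfold hφ h2]
  -- conjugation by `W`
  have hinj : Function.Injective (Matrix.SpecialLinearGroup.mapGL ℝ :
      SL(2, ℤ) →* GL (Fin 2) ℝ) := Matrix.SpecialLinearGroup.mapGL_injective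
  have hconj : ∀ δ : Gamma0 N, ∃ δ' : Gamma0 N,
      (Matrix.SpecialLinearGroup.mapGL ℝ (δ' : SL(2, ℤ)) : GL (Fin 2) ℝ) =
        W⁻¹ * Matrix.SpecialLinearGroup.mapGL ℝ (δ : SL(2, ℤ)) * W := by
    intro δ
    have h5 : W⁻¹ * Matrix.SpecialLinearGroup.mapGL ℝ (δ : SL(2, ℤ)) * W ∈
        (Gamma0 N : Subgroup (GL (Fin 2) ℝ)) := by
      rw [hW]
      have e : W * (W⁻¹ * Matrix.SpecialLinearGroup.mapGL ℝ (δ : SL(2, ℤ)) * W) * W⁻¹ =
          Matrix.SpecialLinearGroup.mapGL ℝ (δ : SL(2, ℤ)) := by group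
      rw [e]
      exact Subgroup.mem_map_of_mem _ δ.2
    obtain ⟨δ', hδ', he⟩ := Subgroup.mem_map.1 h5
    exact ⟨⟨δ', hδ'⟩, he⟩
  have hconj' : ∀ δ : Gamma0 N, ∃ δ' : Gamma0 N,
      (Matrix.SpecialLinearGroup.mapGL ℝ (δ' : SL(2, ℤ)) : GL (Fin 2) ℝ) =
        W * Matrix.SpecialLinearGroup.mapGL ℝ (δ : SL(2, ℤ)) * W⁻¹ := by
    intro δ
    have h5 := (hW _).1 (Subgroup.mem_map_of_mem (Matrix.SpecialLinearGroup.mapGL ℝ) δ.2)
    obtain ⟨δ', hδ', he⟩ := Subgroup.mem_map.1 h5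
    exact ⟨⟨δ', hδ'⟩, he⟩
  choose f hf using hconj
  choose g hg using hconj'
  let e : Gamma0 N ≃ Gamma0 N :=
    { toFun := f
      invFun := g
      left_inv := fun δ => by
        apply Subtype.ext
        apply hinj
        rw [hg, hf]
        group
      right_inv := fun δ => by
        apply Subtype.ext
        apply hinj
        rw [hf, hg]
        group }
  have h6 : ∀ w : ℍ, ∑' δ : Gamma0 N, wt N (W⁻¹ • ((δ : SL(2, ℤ)) • w)) =
      ∑' δ : Gamma0 N, wt N ((δ : SL(2, ℤ)) • (W⁻¹ • w)) := by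
    intro w
    rw [← e.tsum_eq fun δ : Gamma0 N => wt N ((δ : SL(2, ℤ)) • (W⁻¹ • w))]
    refine tsum_congr fun δ => ?_
    congr 1
    show W⁻¹ • ((Matrix.SpecialLinearGroup.mapGL ℝ (δ : SL(2, ℤ)) : GL (Fin 2) ℝ) • w) =
      (Matrix.SpecialLinearGroup.mapGL ℝ (f δ : SL(2, ℤ)) : GL (Fin 2) ℝ) • (W⁻¹ • w)
    rw [hf, ← mul_smul, ← mul_smul]
    congr 1
    group
  have h7 : ∀ᵐ w : ℍ, (∑' δ : Gamma0 N, wt N (W⁻¹ • ((δ : SL(2, ℤ)) • w))) * φ w = 2 * φ w := by
    filter_upwards [hmp'.quasiMeasurePreserving.ae (tsum_wt (N := N))] with w hw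
    rw [h6, hw]
  rw [avg_congr h7, avg_const_mul]
  ring

end Pool.Agent.Work.MP_2b9663_nt.Mo
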