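import Pool.Agent.Work.MP_2b9663_nt.Mo.Strip

set_option autoImplicit false

/-! Orthogonality of two eigenforms of `T_p` with different eigenvalues. -/

namespace Pool.Agent.Work.MP_2b9663_nt.Mo

open UpperHalfPlane ModularGroup MeasureTheory CongruenceSubgroup Set Filter Topology
open scoped MatrixGroups Modular ConjAct Pointwise ModularForm

namespace Or

/-- `diag(p, 1)` -/
noncomputable def dg (p : ℕ) (hp : p ≠ 0) : GL (Fin 2) ℝ :=
  Matrix.GeneralLinearGroup.mkOfDetNeZero !![(p : ℝ), 0; 0, 1] (by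
    rw [Matrix.det_fin_two_of]
    simpa using hp)

theorem dg_coe (p : ℕ) (hp : p ≠ 0) : (dg p hp : Matrix (Fin 2) (Fin 2) ℝ) = !![(p : ℝ), 0; 0, 1] :=
  rfl

theorem mapGL_coe (s : SL(2, ℤ)) : ((Matrix.SpecialLinearGroup.mapGL ℝ s : GL (Fin 2) ℝ) :
    Matrix (Fin 2) (Fin 2) ℝ) = !![(s 0 0 : ℝ), s 0 1; s 1 0, s 1 1] := by
  rw [Matrix.SpecialLinearGroup.mapGL_coe_matrix]
  ext i j
  fin_cases i <;> fin_cases j <;> simp

theorem mem_Gamma0 {N : ℕ} {s : SL(2, ℤ)} : s ∈ Gamma0 N ↔ (N : ℤ) ∣ s 1 0 := by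
  rw [Gamma0_mem, ZMod.intCast_zmod_eq_zero_iff_dvd]

theorem det_eq (s : SL(2, ℤ)) : s 0 0 * s 1 1 - s 0 1 * s 1 0 = 1 := by
  have := s.2
  rwa [Matrix.det_fin_two] at this

/-- an element of `SL(2, ℤ)` -/
def mk (a b c d : ℤ) (h : a * d - b * c = 1) : SL(2, ℤ) :=
  ⟨!![a, b; c, d], by rw [Matrix.det_fin_two_of]; exact h⟩

theorem mk_coe (a b c d : ℤ) (h : a * d - b * c = 1) :
    ((Matrix.SpecialLinearGroup.mapGL ℝ (mk a b c d h) : GL (Fin 2) ℝ) :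
    Matrix (Fin 2) (Fin 2) ℝ) = !![(a : ℝ), b; c, d] := by
  rw [mapGL_coe]
  rfl

/-- `W = (p x, y; p L, p)` -/
noncomputable def WW (p : ℕ) (hp : p ≠ 0) (L x y : ℤ) (h : x * p - y * L = 1) : GL (Fin 2) ℝ :=
  Matrix.SpecialLinearGroup.mapGL ℝ (mk x y L p h) * dg p hp

theorem WW_coe (p : ℕ) (hp : p ≠ 0) (L x y : ℤ) (h : x * p - y * L = 1) :
    (WW p hp L x y h : Matrix (Fin 2) (Fin 2) ℝ) = !![(p * x : ℝ), y; p * L, p] := by
  rw [WW, Units.val_mul, mk_coe, dg_coe, Matrix.mul_fin_two]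
  ext i j
  fin_cases i <;> fin_cases j <;> simp <;> ring

theorem WW_det (p : ℕ) (hp : p ≠ 0) (L x y : ℤ) (h : x * p - y * L = 1) :
    ((WW p hp L x y h).det.val : ℝ) = p := by
  rw [WW, map_mul, Matrix.SpecialLinearGroup.det_mapGL, one_mul]
  show (dg p hp : Matrix (Fin 2) (Fin 2) ℝ).det = p
  rw [dg_coe, Matrix.det_fin_two_of]
  ring

section

variable {p : ℕ} (hp : p ≠ 0) {L x y : ℤ} (h : x * p - y * L = 1)

include h

theorem conj_forw {N : ℕ} (hN : (N : ℤ) = p * L) {s : SL(2, ℤ)} (hs : s ∈ Gamma0 N) :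
    ∃ t ∈ Gamma0 N, WW p hp L x y h * Matrix.SpecialLinearGroup.mapGL ℝ s * (WW p hp L x y h)⁻¹ =
      Matrix.SpecialLinearGroup.mapGL ℝ t := by
  rw [mem_Gamma0, hN] at hs
  obtain ⟨C, hC⟩ := hs
  have hdet := det_eq s
  rw [hC] at hdet
  refine ⟨mk (p * x * s 0 0 + p * y * L * C - p * L * x * s 0 1 - L * y * s 1 1)
    (-(x * y * s 0 0) - y ^ 2 * L * C + p * x ^ 2 * s 0 1 + x * y * s 1 1)
    (p * L * (s 0 0 + p * C - L * s 0 1 - s 1 1))
    (-(y * L * s 0 0) - p * y * L * C + p * x * L * s 0 1 + p * x * s 1 1) ?_, ?_, ?_⟩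
  · have h1 : (x * p - y * L) ^ 2 * (s 0 0 * s 1 1 - s 0 1 * (p * L * C)) = 1 := by
      rw [h, hdet]; ring
    refine Eq.trans ?_ h1
    ring
  · rw [mem_Gamma0, hN]
    exact ⟨_, rfl⟩
  · rw [mul_inv_eq_iff_eq_mul]
    apply Units.ext
    rw [Units.val_mul, Units.val_mul, WW_coe, mk_coe, mapGL_coe, Matrix.mul_fin_two,
      Matrix.mul_fin_two]
    have hr : (x : ℝ) * p - y * L = 1 := by exact_mod_cast h
    have hCr : ((s 1 0 : ℤ) : ℝ) = p * L * C := by rw [hC]; push_cast; ring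
    rw [hCr]
    push_cast
    congr 1
    ext i j
    fin_cases i <;> fin_cases j <;> simp only [Matrix.cons_val', Matrix.cons_val_zero,
      Matrix.cons_val_one, Fin.zero_eta, Fin.mk_one, Fin.isValue, Matrix.cons_val_fin_one]
    · linear_combination (-(p * x * (s 0 0 : ℝ) + y * (p * L * C))) * hr
    · linear_combination (-(p * x * (s 0 1 : ℝ) + y * (s 1 1 : ℝ))) * hr
    · linear_combination (-(p * L * (s 0 0 : ℝ) + p * (p * L * C))) * hr
    · linear_combination (-(p * L * (s 0 1 : ℝ) + p * (s 1 1 : ℝ))) * hr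

theorem conj_back {N : ℕ} (hN : (N : ℤ) = p * L) {s : SL(2, ℤ)} (hs : s ∈ Gamma0 N) :
    ∃ t ∈ Gamma0 N, (WW p hp L x y h)⁻¹ * Matrix.SpecialLinearGroup.mapGL ℝ s * WW p hp L x y h =
      Matrix.SpecialLinearGroup.mapGL ℝ t := by
  rw [mem_Gamma0, hN] at hs
  obtain ⟨C, hC⟩ := hs
  have hdet := det_eq s
  rw [hC] at hdet
  refine ⟨mk (x * (p * s 0 0 - y * p * L * C) + L * (p * s 0 1 - y * s 1 1))
    (y * s 0 0 - y ^ 2 * L * C + p * s 0 1 - y * s 1 1)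
    (p * L * (-(x * s 0 0) + p * x ^ 2 * C - L * s 0 1 + x * s 1 1))
    (-(y * L * s 0 0) + p * x * y * L * C - p * L * s 0 1 + p * x * s 1 1) ?_, ?_, ?_⟩
  · have h1 : (x * p - y * L) ^ 2 * (s 0 0 * s 1 1 - s 0 1 * (p * L * C)) = 1 := by
      rw [h, hdet]; ring
    refine Eq.trans ?_ h1
    ring
  · rw [mem_Gamma0, hN]
    exact ⟨_, rfl⟩
  · rw [mul_assoc, inv_mul_eq_iff_eq_mul]
    apply Units.ext
    rw [Units.val_mul, Units.val_mul, WW_coe, mk_coe, mapGL_coe, Matrix.mul_fin_two,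
      Matrix.mul_fin_two]
    have hr : (x : ℝ) * p - y * L = 1 := by exact_mod_cast h
    have hCr : ((s 1 0 : ℤ) : ℝ) = p * L * C := by rw [hC]; push_cast; ring
    rw [hCr]
    push_cast
    congr 1
    ext i j
    fin_cases i <;> fin_cases j <;> simp only [Matrix.cons_val', Matrix.cons_val_zero,
      Matrix.cons_val_one, Fin.zero_eta, Fin.mk_one, Fin.isValue, Matrix.cons_val_fin_one]
    · linear_combination (-((s 0 0 : ℝ) * (p * x) + (s 0 1 : ℝ) * (p * L))) * hr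
    · linear_combination (-((s 0 0 : ℝ) * y + (s 0 1 : ℝ) * p)) * hr
    · linear_combination (-((p * L * C) * (p * x) + (s 1 1 : ℝ) * (p * L))) * hr
    · linear_combination (-((p * L * C) * y + (s 1 1 : ℝ) * p)) * hr

/-- `W` normalises `Γ₀(p L)`. -/
theorem WW_norm {N : ℕ} (hN : (N : ℤ) = p * L) (γ : GL (Fin 2) ℝ) :
    γ ∈ (Gamma0 N : Subgroup (GL (Fin 2) ℝ)) ↔
      WW p hp L x y h * γ * (WW p hp L x y h)⁻¹ ∈ (Gamma0 N : Subgroup (GL (Fin 2) ℝ)) := by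
  constructor
  · rintro ⟨s, hs, rfl⟩
    obtain ⟨t, ht, he⟩ := conj_forw hp h hN hs
    exact ⟨t, ht, he.symm⟩
  · rintro ⟨s, hs, he⟩
    obtain ⟨t, ht, he'⟩ := conj_back hp h hN hs
    refine ⟨t, ht, ?_⟩
    rw [← he', he]
    group

end

/-! ### forms -/

variable {k : ℤ}

/-- restriction to a subgroup -/
def restr {Γ Γ' : Subgroup (GL (Fin 2) ℝ)} (h : Γ' ≤ Γ) (f : CuspForm Γ k) : CuspForm Γ' k where
  toFun := f.toFun
  slash_action_eq' γ hγ := f.slash_action_eq' γ (h hγ)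
  holo' := f.holo'
  zero_at_cusps' hc := f.zero_at_cusps' (hc.mono h)

theorem restr_coe {Γ Γ' : Subgroup (GL (Fin 2) ℝ)} (h : Γ' ≤ Γ) (f : CuspForm Γ k) :
    (restr h f : ℍ → ℂ) = f := rfl

theorem le_one {N L : ℕ} (h : L ∣ N) :
    (Gamma0 N : Subgroup (GL (Fin 2) ℝ)) ≤ (Gamma0 L : Subgroup (GL (Fin 2) ℝ)) := by
  apply Subgroup.map_mono
  intro s hs
  rw [mem_Gamma0] at hs ⊢
  exact (Int.natCast_dvd_natCast.2 h).trans hs

theorem le_dg {L p : ℕ} (hp : p ≠ 0) :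
    (Gamma0 (p * L) : Subgroup (GL (Fin 2) ℝ)) ≤
      ConjAct.toConjAct (dg p hp)⁻¹ • (Gamma0 L : Subgroup (GL (Fin 2) ℝ)) := by
  rintro _ ⟨s, hs, rfl⟩
  rw [Subgroup.mem_pointwise_smul_iff_inv_smul_mem, ← ConjAct.toConjAct_inv, inv_inv,
    ConjAct.toConjAct_smul]
  have hs' : s ∈ Gamma0 (p * L) := hs
  rw [mem_Gamma0] at hs'
  obtain ⟨C, hC⟩ := hs'
  have hdet := det_eq s
  rw [hC] at hdet
  refine ⟨mk (s 0 0) (p * s 0 1) (L * C) (s 1 1) ?_, ?_, ?_⟩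
  · refine Eq.trans ?_ hdet
    push_cast
    ring
  · show _ ∈ Gamma0 L
    rw [mem_Gamma0]
    exact ⟨C, rfl⟩
  · rw [eq_mul_inv_iff_mul_eq]
    apply Units.ext
    rw [Units.val_mul, Units.val_mul, dg_coe, mk_coe, mapGL_coe, Matrix.mul_fin_two,
      Matrix.mul_fin_two]
    have hCr : ((s 1 0 : ℤ) : ℝ) = p * L * C := by rw [hC]; push_cast; ring
    rw [hCr]
    push_cast
    congr 1
    ext i j
    fin_cases i <;> fin_cases j <;> simp only [Matrix.cons_val', Matrix.cons_val_zero,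
      Matrix.cons_val_one, Fin.zero_eta, Fin.mk_one, Fin.isValue, Matrix.cons_val_fin_one] <;> ring

/-- `p ^ (k - 1) f(p z)` -/
noncomputable def lift {L p : ℕ} (hp : p ≠ 0) (f : CuspForm (Gamma0 L : Subgroup (GL (Fin 2) ℝ)) k) :
    CuspForm (Gamma0 (p * L) : Subgroup (GL (Fin 2) ℝ)) k :=
  restr (le_dg hp) (CuspForm.translate f (dg p hp))

theorem lift_coe {L p : ℕ} (hp : p ≠ 0) (f : CuspForm (Gamma0 L : Subgroup (GL (Fin 2) ℝ)) k) :
    (lift hp f : ℍ → ℂ) = (f : ℍ → ℂ) ∣[k] dg p hp := rfl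

theorem det_dg {p : ℕ} (hp : p ≠ 0) : (dg p hp).det.val = (p : ℝ) := by
  show (dg p hp : Matrix (Fin 2) (Fin 2) ℝ).det = p
  rw [dg_coe, Matrix.det_fin_two_of]
  ring

theorem det_dg_pos {p : ℕ} (hp : p ≠ 0) : 0 < (dg p hp).det.val := by
  rw [det_dg]
  exact_mod_cast Nat.pos_of_ne_zero hp

theorem dg_smul {p : ℕ} (hp : p ≠ 0) (z : ℍ) : ((dg p hp • z : ℍ) : ℂ) = p * z := by
  rw [coe_smul_of_det_pos (det_dg_pos hp)]
  simp [num, denom, dg_coe]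

theorem σ_pos {g : GL (Fin 2) ℝ} (h : 0 < g.det.val) (z : ℂ) : σ g z = z := by
  unfold σ
  rw [if_pos h]
  rfl

theorem lift_apply {L p : ℕ} (hp : p ≠ 0) (f : CuspForm (Gamma0 L : Subgroup (GL (Fin 2) ℝ)) k)
    (z : ℍ) : lift hp f z = (p : ℂ) ^ (k - 1) * f (dg p hp • z) := by
  show ((f : ℍ → ℂ) ∣[k] dg p hp) z = _
  rw [ModularForm.slash_apply, σ_pos (det_dg_pos hp), det_dg]
  simp [denom, dg_coe]
  ring

/-- the scalar matrix -/
noncomputable def sc (p : ℕ) (hp : p ≠ 0) : GL (Fin 2) ℝ :=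
  Matrix.GeneralLinearGroup.mkOfDetNeZero !![(p : ℝ), 0; 0, p] (by
    rw [Matrix.det_fin_two_of]
    simpa using hp)

theorem sc_coe (p : ℕ) (hp : p ≠ 0) : (sc p hp : Matrix (Fin 2) (Fin 2) ℝ) = !![(p : ℝ), 0; 0, p] :=
  rfl

theorem det_sc {p : ℕ} (hp : p ≠ 0) : (sc p hp).det.val = (p : ℝ) ^ 2 := by
  show (sc p hp : Matrix (Fin 2) (Fin 2) ℝ).det = p ^ 2
  rw [sc_coe, Matrix.det_fin_two_of]
  ring

theorem sc_smul {p : ℕ} (hp : p ≠ 0) (z : ℍ) : sc p hp • z = z := by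
  have hd : 0 < (sc p hp).det.val := by
    rw [det_sc]
    positivity
  apply UpperHalfPlane.ext
  rw [coe_smul_of_det_pos hd]
  have hp' : (p : ℂ) ≠ 0 := by exact_mod_cast hp
  simp [num, denom, sc_coe, hp']

theorem slash_sc {p : ℕ} (hp : p ≠ 0) (f : ℍ → ℂ) : f ∣[k] sc p hp = fun z => (p : ℂ) ^ (k - 2) * f z := by
  have hd : 0 < (sc p hp).det.val := by
    rw [det_sc]
    positivity
  have hp' : (p : ℂ) ≠ 0 := by exact_mod_cast hp
  funext z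
  rw [ModularForm.slash_apply, σ_pos hd, sc_smul, det_sc]
  have h1 : denom (sc p hp) z = p := by simp [denom, sc_coe]
  have h2 : |(p : ℝ) ^ 2| = (p : ℝ) ^ 2 := abs_of_nonneg (by positivity)
  rw [h1, h2, mul_assoc]
  have h3 : (((p : ℝ) ^ 2 : ℝ) : ℂ) ^ (k - 1) * (p : ℂ) ^ (-k) = (p : ℂ) ^ (k - 2) := by
    push_cast
    rw [← zpow_natCast, ← zpow_mul, ← zpow_add₀ hp']
    congr 1
    push_cast
    ring
  rw [h3, mul_comm]

theorem dg_mul_WW {p : ℕ} (hp : p ≠ 0) {L x y : ℤ} (h : x * p - y * L = 1) :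
    dg p hp * WW p hp L x y h =
      Matrix.SpecialLinearGroup.mapGL ℝ (mk (p * x) y L 1 (by linear_combination h)) * sc p hp := by
  apply Units.ext
  rw [Units.val_mul, Units.val_mul, dg_coe, mk_coe, WW_coe, sc_coe, Matrix.mul_fin_two,
    Matrix.mul_fin_two]
  push_cast
  congr 1
  ext i j
  fin_cases i <;> fin_cases j <;> simp only [Matrix.cons_val', Matrix.cons_val_zero,
    Matrix.cons_val_one, Fin.zero_eta, Fin.mk_one, Fin.isValue, Matrix.cons_val_fin_one] <;> ring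

theorem slash_mapGL {L : ℕ} (f : CuspForm (Gamma0 L : Subgroup (GL (Fin 2) ℝ)) k) {s : SL(2, ℤ)}
    (hs : s ∈ Gamma0 L) : (f : ℍ → ℂ) ∣[k] (Matrix.SpecialLinearGroup.mapGL ℝ s : GL (Fin 2) ℝ) = f :=
  f.slash_action_eq' _ (Subgroup.mem_map_of_mem _ hs)

theorem slash_WW {p L : ℕ} (hp : p ≠ 0) {x y : ℤ} (h : x * p - y * (L : ℤ) = 1)
    (f : CuspForm (Gamma0 L : Subgroup (GL (Fin 2) ℝ)) k) :
    (f : ℍ → ℂ) ∣[k] WW p hp L x y h = lift hp f := by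
  rw [WW, SlashAction.slash_mul, slash_mapGL f (by rw [mem_Gamma0]; exact dvd_rfl), lift_coe]

theorem lift_slash_WW {p L : ℕ} (hp : p ≠ 0) {x y : ℤ} (h : x * p - y * (L : ℤ) = 1)
    (f : CuspForm (Gamma0 L : Subgroup (GL (Fin 2) ℝ)) k) :
    (lift hp f : ℍ → ℂ) ∣[k] WW p hp L x y h = fun z => (p : ℂ) ^ (k - 2) * f z := by
  rw [lift_coe, ← SlashAction.slash_mul, dg_mul_WW, SlashAction.slash_mul,
    slash_mapGL f (by rw [mem_Gamma0]; exact dvd_rfl), slash_sc]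

theorem pet_WW {p L : ℕ} (hp : p ≠ 0) {x y : ℤ} (h : x * p - y * (L : ℤ) = 1)
    (f g : CuspForm (Gamma0 L : Subgroup (GL (Fin 2) ℝ)) k) (z : ℍ) :
    petersson k (lift hp g) f (WW p hp L x y h • z) = petersson k g (lift hp f) z := by
  have hp' : (p : ℂ) ≠ 0 := by exact_mod_cast hp
  have hdet := WW_det p hp L x y h
  have hpos : 0 < (WW p hp L x y h).det.val := by
    rw [hdet]
    exact_mod_cast Nat.pos_of_ne_zero hp
  have h1 := petersson_slash k (lift hp g) f (WW p hp L x y h) z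
  rw [lift_slash_WW, slash_WW, σ_pos hpos, hdet] at h1
  have h2 : petersson k (fun z => (p : ℂ) ^ (k - 2) * g z) (lift hp f) z =
      (p : ℂ) ^ (k - 2) * petersson k g (lift hp f) z := by
    simp only [petersson, map_mul, map_zpow₀, Complex.conj_natCast]
    ring
  rw [h2] at h1
  have h3 : ((|(p : ℝ)| : ℝ) : ℂ) = p := by rw [Nat.abs_cast]; simp
  rw [h3] at h1
  exact (mul_left_cancel₀ (zpow_ne_zero _ hp') h1).symm

/-! ### coefficients -/

/-- the coefficients of `p ^ (k - 1) f(p z)` -/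
noncomputable def up (k p : ℕ) (a : ℕ → ℝ) (n : ℕ) : ℝ :=
  if p ∣ n then (p : ℝ) ^ (k - 1) * a (n / p) else 0

theorem up_mul {p : ℕ} (hp : p ≠ 0) (k : ℕ) (a : ℕ → ℝ) (n : ℕ) :
    up k p a (p * n) = (p : ℝ) ^ (k - 1) * a n := by
  rw [up, if_pos (dvd_mul_right _ _), Nat.mul_div_cancel_left _ (Nat.pos_of_ne_zero hp)]

theorem up_zero {p : ℕ} (k : ℕ) {a : ℕ → ℝ} (a0 : a 0 = 0) : up k p a 0 = 0 := by
  rw [up, if_pos (dvd_zero _), Nat.zero_div, a0, mul_zero]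

theorem inj_mul {p : ℕ} (hp : p ≠ 0) : Function.Injective fun n : ℕ => p * n :=
  fun _ _ h => Nat.eq_of_mul_eq_mul_left (Nat.pos_of_ne_zero hp) h

theorem up_out {p : ℕ} (k : ℕ) (a : ℕ → ℝ) {n : ℕ} (h : n ∉ Set.range fun n : ℕ => p * n) :
    up k p a n = 0 := by
  rw [up, if_neg]
  rintro ⟨m, rfl⟩
  exact h ⟨m, rfl⟩

theorem hasSum_lift {k L p : ℕ} (hk : 1 ≤ k) (hp : p ≠ 0)
    (f : CuspForm (Gamma0 L : Subgroup (GL (Fin 2) ℝ)) (k : ℤ)) {a : ℕ → ℝ}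
    (hf : ∀ z : ℍ, HasSum (fun n : ℕ => (a n : ℂ) *
      Complex.exp (2 * Real.pi * Complex.I * n * z)) (f z)) (z : ℍ) :
    HasSum (fun n : ℕ => (up k p a n : ℂ) * Complex.exp (2 * Real.pi * Complex.I * n * z))
      (lift hp f z) := by
  rw [← (inj_mul hp).hasSum_iff, lift_apply]
  · have h1 := (hf (dg p hp • z)).mul_left ((p : ℂ) ^ ((k : ℤ) - 1))
    refine h1.congr_fun fun n => ?_
    simp only [Function.comp]
    rw [up_mul hp, dg_smul]
    have h2 : (p : ℂ) ^ ((k : ℤ) - 1) = (p : ℂ) ^ (k - 1) := by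
      rw [← zpow_natCast, Nat.cast_sub hk, Nat.cast_one]
    rw [h2]
    push_cast
    rw [mul_assoc]
    congr 3
    ring
  · intro n hn
    rw [up_out k a hn]
    simp

theorem summable_up {k p : ℕ} (hp : p ≠ 0) {a b : ℕ → ℝ} {x : ℝ}
    (h : Summable fun n : ℕ => |a n * b (p * n)| * (n : ℝ) ^ (-x)) :
    Summable fun n : ℕ => |up k p a n * b n| * (n : ℝ) ^ (-x) := by
  rw [← (inj_mul hp).summable_iff]
  · refine (h.mul_left ((p : ℝ) ^ (k - 1) * (p : ℝ) ^ (-x))).congr fun n => ?_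
    simp only [Function.comp]
    rw [up_mul hp, Nat.cast_mul, Real.mul_rpow (Nat.cast_nonneg _) (Nat.cast_nonneg _), mul_assoc,
      mul_assoc, abs_mul ((p : ℝ) ^ (k - 1)), abs_of_nonneg (by positivity : (0 : ℝ) ≤ (p : ℝ) ^ (k - 1))]
    ring
  · intro n hn
    rw [up_out k a hn]
    simp

/-- the Dirichlet series -/
noncomputable def DS (a b : ℕ → ℝ) (w : ℂ) : ℂ := ∑' n : ℕ, ((a n * b n : ℝ) : ℂ) * (n : ℂ) ^ (-w)

theorem summable_DS {a b : ℕ → ℝ} {w : ℂ} (hw : 0 < w.re)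
    (h : Summable fun n : ℕ => |a n * b n| * (n : ℝ) ^ (-w.re)) :
    Summable fun n : ℕ => ((a n * b n : ℝ) : ℂ) * (n : ℂ) ^ (-w) := by
  refine Summable.of_norm_bounded h fun n => ?_
  rw [norm_mul, Complex.norm_real, Real.norm_eq_abs]
  rcases Nat.eq_zero_or_pos n with rfl | hn
  · have h1 : -w ≠ 0 := by
      intro h
      rw [neg_eq_zero] at h
      rw [h] at hw
      simp at hw
    have h2 : -w.re ≠ 0 := by linarith
    rw [Nat.cast_zero, Complex.zero_cpow h1, Nat.cast_zero, Real.zero_rpow h2]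
    simp
  · rw [Complex.norm_natCast_cpow_of_pos hn, Complex.neg_re]

theorem DS_up {k p : ℕ} (hp : p ≠ 0) (a b : ℕ → ℝ) (w : ℂ) :
    DS (up k p a) b w = (p : ℂ) ^ (k - 1) * (p : ℂ) ^ (-w) * DS a (fun n => b (p * n)) w := by
  rw [DS, DS, ← tsum_mul_left, ← (inj_mul hp).tsum_eq]
  · refine tsum_congr fun n => ?_
    rw [up_mul hp, Nat.cast_mul, Complex.natCast_mul_natCast_cpow]
    push_cast
    ring
  · intro n hn
    by_contra hc
    apply hn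
    simp only
    rw [up_out k a hc]
    simp

theorem DS_comm (a b : ℕ → ℝ) (w : ℂ) : DS a b w = DS b a w := by
  rw [DS, DS]
  refine tsum_congr fun n => ?_
  rw [mul_comm (a n)]

/-- the recursion -/
theorem DS_rec {k p : ℕ} {a b : ℕ → ℝ} {w : ℂ} (hw : 0 < w.re)
    (Ta : ∀ n, a (p * n) + (if p ∣ n then (p : ℝ) ^ (k - 1) * a (n / p) else 0) = a p * a n)
    (h0 : Summable fun n : ℕ => |a n * b n| * (n : ℝ) ^ (-w.re))
    (h1 : Summable fun n : ℕ => |up k p a n * b n| * (n : ℝ) ^ (-w.re)) :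
    DS (fun n => a (p * n)) b w = a p * DS a b w - DS (up k p a) b w := by
  rw [DS, DS, DS, ← tsum_mul_left, ← ((summable_DS hw h0).mul_left _).tsum_sub (summable_DS hw h1)]
  refine tsum_congr fun n => ?_
  have h2 : a (p * n) = a p * a n - up k p a n := by
    rw [← Ta n, up]
    ring
  rw [h2]
  push_cast
  ring

/-- the strip integral -/
noncomputable def SI (F : ℍ → ℂ) (s : ℝ) : ℂ :=
  ∫ z, (strip.indicator (fun z : ℍ => (z.im : ℂ) ^ (s : ℂ))) z * F z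

theorem SI_eq {k N : ℕ} [NeZero N] (hk : 1 ≤ k)
    (f g : CuspForm (Gamma0 N : Subgroup (GL (Fin 2) ℝ)) (k : ℤ)) {a b : ℕ → ℝ} (a0 : a 0 = 0)
    (hf : ∀ z : ℍ, HasSum (fun n : ℕ => (a n : ℂ) *
      Complex.exp (2 * Real.pi * Complex.I * n * z)) (f z))
    (hg : ∀ z : ℍ, HasSum (fun n : ℕ => (b n : ℂ) *
      Complex.exp (2 * Real.pi * Complex.I * n * z)) (g z)) {s : ℝ} (hs : 1 < s)
    (hsum : Summable fun n : ℕ => |a n * b n| * (n : ℝ) ^ (-(s + k - 1))) :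
    SI (petersson k f g) s = Complex.Gamma (s + k - 1) * (4 * Real.pi : ℂ) ^ (-((s : ℂ) + k - 1)) *
      DS a b ((s : ℂ) + k - 1) := by
  have hs' : 1 < (s : ℂ).re := by simpa using hs
  refine strip_integral hk f g a b hf hg a0 hs' ?_ (strip_integrable (RSFun.petersson f g) hs')
  simpa using hsum

/-- the limit of `(s - 1) ∫ y ^ s F` over the strip, as `s → 1` -/
def ResStrip (N : ℕ) : Prop :=
  ∃ c : ℝ, 0 < c ∧ ∀ F : ℍ → ℂ, RSFun N F →
    Tendsto (fun s : ℝ => ((s : ℂ) - 1) * SI F s) (𝓝[>] 1) (𝓝 (c * avg N F))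

/-- invariance of the average under the normaliser -/
def NormInv (N : ℕ) : Prop :=
  ∀ φ : ℍ → ℂ, (∀ γ ∈ Gamma0 N, ∀ z, φ (γ • z) = φ z) → Continuous φ → (∃ C, ∀ z, ‖φ z‖ ≤ C) →
    ∀ W : GL (Fin 2) ℝ, 0 < W.det.val → (∀ γ : GL (Fin 2) ℝ,
      γ ∈ (Gamma0 N : Subgroup (GL (Fin 2) ℝ)) ↔
      W * γ * W⁻¹ ∈ (Gamma0 N : Subgroup (GL (Fin 2) ℝ))) →
    avg N (fun z => φ (W • z)) = avg N φ

theorem main {L k p : ℕ} [NeZero L] (hk : 1 ≤ k) (hp : p.Prime) (hpL : ¬ p ∣ L)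
    (f g : CuspForm (Gamma0 L : Subgroup (GL (Fin 2) ℝ)) (k : ℤ)) {a b : ℕ → ℝ}
    (a0 : a 0 = 0) (b0 : b 0 = 0)
    (hf : ∀ z : ℍ, HasSum (fun n : ℕ => (a n : ℂ) *
      Complex.exp (2 * Real.pi * Complex.I * n * z)) (f z))
    (hg : ∀ z : ℍ, HasSum (fun n : ℕ => (b n : ℂ) *
      Complex.exp (2 * Real.pi * Complex.I * n * z)) (g z))
    (Ta : ∀ n, a (p * n) + (if p ∣ n then (p : ℝ) ^ (k - 1) * a (n / p) else 0) = a p * a n)
    (Tb : ∀ n, b (p * n) + (if p ∣ n then (p : ℝ) ^ (k - 1) * b (n / p) else 0) = b p * b n)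
    (hab : a p ≠ b p)
    (hs0 : ∀ σ : ℝ, 1 < σ → Summable fun n : ℕ => |a n * b n| * (n : ℝ) ^ (-(σ + k - 1)))
    (hs1 : ∀ σ : ℝ, 1 < σ → Summable fun n : ℕ => |a (p * n) * b n| * (n : ℝ) ^ (-(σ + k - 1)))
    (hs2 : ∀ σ : ℝ, 1 < σ → Summable fun n : ℕ => |a n * b (p * n)| * (n : ℝ) ^ (-(σ + k - 1)))
    (hresL : ResStrip L) (hresP : ResStrip (p * L)) (hnorm : NormInv (p * L)) :
    avg L (UpperHalfPlane.petersson k f g) = 0 := by
  have hp0 : p ≠ 0 := hp.ne_zero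
  have : NeZero (p * L) := ⟨mul_ne_zero hp0 (NeZero.ne L)⟩
  -- the matrix
  obtain ⟨x, y, hxy⟩ : ∃ x y : ℤ, x * p - y * (L : ℤ) = 1 := by
    have h1 : IsCoprime (p : ℤ) (L : ℤ) :=
      Nat.isCoprime_iff_coprime.2 ((Nat.Prime.coprime_iff_not_dvd hp).2 hpL)
    obtain ⟨u, v, huv⟩ := h1
    exact ⟨u, -v, by rw [← huv]; ring⟩
  set f1 : CuspForm (Gamma0 (p * L) : Subgroup (GL (Fin 2) ℝ)) (k : ℤ) :=
    restr (le_one (dvd_mul_left L p)) f with hf1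
  set g1 : CuspForm (Gamma0 (p * L) : Subgroup (GL (Fin 2) ℝ)) (k : ℤ) :=
    restr (le_one (dvd_mul_left L p)) g with hg1
  set φ1 := petersson k (lift hp0 g) f1 with hφ1
  set φ2 := petersson k g1 (lift hp0 f) with hφ2
  have hR1 : RSFun (p * L) φ1 := RSFun.petersson _ _
  have hR2 : RSFun (p * L) φ2 := RSFun.petersson _ _
  have hR0 : RSFun L (petersson k f g) := RSFun.petersson _ _
  have havg : avg (p * L) φ2 = avg (p * L) φ1 := by
    rw [← hnorm φ1 hR1.inv hR1.cont hR1.bdd (WW p hp0 L x y hxy) ?_ ?_]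
    · congr 1
      funext z
      exact (pet_WW hp0 hxy f g z).symm
    · rw [WW_det]
      exact_mod_cast hp.pos
    · exact WW_norm hp0 hxy (by push_cast; rfl)
  obtain ⟨cP, hcP, hP⟩ := hresP
  obtain ⟨cL, hcL, hLim⟩ := hresL
  have hT := (hP φ1 hR1).sub (hP φ2 hR2)
  rw [havg, sub_self] at hT
  have hT0 := hLim _ hR0
  have hpc : Tendsto (fun s : ℝ => (p : ℂ) ^ (-(s : ℂ))) (𝓝[>] 1) (𝓝 ((p : ℂ) ^ (-(1 : ℂ)))) := by
    have h1 : Continuous fun s : ℝ => (p : ℂ) ^ (-(s : ℂ)) := by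
      refine Continuous.const_cpow (by fun_prop) (Or.inl ?_)
      exact_mod_cast hp0
    have h2 := h1.tendsto 1
    rw [Complex.ofReal_one] at h2
    exact h2.mono_left nhdsWithin_le_nhds
  -- the identity
  have hid : ∀ s : ℝ, 1 < s → (SI φ1 s - SI φ2 s) * (1 - (p : ℂ) ^ (-(s : ℂ))) =
      (p : ℂ) ^ (-(s : ℂ)) * ((a p : ℂ) - b p) * SI (petersson k f g) s := by
    intro s hs
    have hwre : ((s : ℂ) + k - 1).re = s + k - 1 := by simp
    have hw : 0 < ((s : ℂ) + k - 1).re := by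
      rw [hwre]
      have : (0 : ℝ) ≤ k := Nat.cast_nonneg _
      linarith
    have e0 := hs0 s hs
    have e0' : Summable fun n : ℕ => |b n * a n| * (n : ℝ) ^ (-(s + k - 1)) :=
      e0.congr fun n => by rw [mul_comm (a n)]
    have e2 := summable_up (k := k) hp0 (hs2 s hs)
    have e1 : Summable fun n : ℕ => |up k p b n * a n| * (n : ℝ) ^ (-(s + k - 1)) :=
      summable_up (k := k) hp0 ((hs1 s hs).congr fun n => by rw [mul_comm (a (p * n))])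
    have E2' : Summable fun n : ℕ => |b n * up k p a n| * (n : ℝ) ^ (-(s + k - 1)) :=
      e2.congr fun n => by rw [mul_comm (b n)]
    have I0 := SI_eq hk f g a0 hf hg hs e0
    have I1 := SI_eq hk (lift hp0 g) f1 (up_zero k b0) (hasSum_lift hk hp0 g hg) hf hs e1
    have I2 := SI_eq hk g1 (lift hp0 f) b0 hg (hasSum_lift hk hp0 f hf) hs E2'
    have hpp : (p : ℂ) ^ (k - 1) * (p : ℂ) ^ (-((s : ℂ) + k - 1)) = (p : ℂ) ^ (-(s : ℂ)) := by
      have hpC : (p : ℂ) ≠ 0 := by exact_mod_cast hp0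
      rw [← Complex.cpow_natCast, ← Complex.cpow_add _ _ hpC, Nat.cast_sub hk]
      congr 1
      push_cast
      ring
    have D1 := DS_rec (b := b) (w := (s : ℂ) + k - 1) hw Ta (by rw [hwre]; exact e0)
      (by rw [hwre]; exact e2)
    have D2 := DS_rec (b := a) (w := (s : ℂ) + k - 1) hw Tb (by rw [hwre]; exact e0')
      (by rw [hwre]; exact e1)
    have U1 := DS_up (k := k) hp0 b a ((s : ℂ) + k - 1)
    have U2 := DS_up (k := k) hp0 a b ((s : ℂ) + k - 1)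
    rw [hpp] at U1 U2
    rw [DS_comm b (fun n => a (p * n))] at U1
    rw [DS_comm a (fun n => b (p * n))] at U2
    rw [D1] at U1
    rw [D2] at U2
    rw [DS_comm b a] at U2
    rw [hφ1, hφ2, I0, I1, I2, DS_comm b (up k p a)]
    set G := Complex.Gamma ((s : ℂ) + k - 1) * (4 * Real.pi : ℂ) ^ (-((s : ℂ) + k - 1))
    set X := DS (up k p b) a ((s : ℂ) + k - 1)
    set Y := DS (up k p a) b ((s : ℂ) + k - 1)
    linear_combination G * U1 - G * U2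
  -- the limit
  have hlim1 : Tendsto (fun s : ℝ => (((s : ℂ) - 1) * SI φ1 s - ((s : ℂ) - 1) * SI φ2 s) *
      (1 - (p : ℂ) ^ (-(s : ℂ)))) (𝓝[>] 1) (𝓝 (0 * (1 - (p : ℂ) ^ (-(1 : ℂ))))) :=
    hT.mul (tendsto_const_nhds.sub hpc)
  have hlim2 : Tendsto (fun s : ℝ => (p : ℂ) ^ (-(s : ℂ)) * ((a p : ℂ) - b p) *
      (((s : ℂ) - 1) * SI (petersson k f g) s)) (𝓝[>] 1)
      (𝓝 ((p : ℂ) ^ (-(1 : ℂ)) * ((a p : ℂ) - b p) * (cL * avg L (petersson k f g)))) :=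
    (hpc.mul tendsto_const_nhds).mul hT0
  have heq : (fun s : ℝ => (p : ℂ) ^ (-(s : ℂ)) * ((a p : ℂ) - b p) *
      (((s : ℂ) - 1) * SI (petersson k f g) s)) =ᶠ[𝓝[>] 1] fun s : ℝ =>
      (((s : ℂ) - 1) * SI φ1 s - ((s : ℂ) - 1) * SI φ2 s) * (1 - (p : ℂ) ^ (-(s : ℂ))) := by
    filter_upwards [self_mem_nhdsWithin] with s hs
    have := hid s hs
    linear_combination (-((s : ℂ) - 1)) * this
  have hfin := tendsto_nhds_unique (hlim2.congr' heq) hlim1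
  rw [zero_mul] at hfin
  have hpC : (p : ℂ) ^ (-(1 : ℂ)) ≠ 0 := by
    rw [Complex.cpow_neg_one]
    exact inv_ne_zero (by exact_mod_cast hp0)
  have habC : (a p : ℂ) - b p ≠ 0 := sub_ne_zero.2 (by exact_mod_cast hab)
  have hcC : (cL : ℂ) ≠ 0 := by exact_mod_cast hcL.ne'
  rcases mul_eq_zero.1 hfin with h | h
  · exact absurd h (mul_ne_zero hpC habC)
  · exact (mul_eq_zero.1 h).resolve_left hcC

end Or

end Pool.Agent.Work.MP_2b9663_nt.Mo
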