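import Pool.Agent.Work.MP_2b9663_nt.Mo.Assembly

set_option autoImplicit false

/-! The Rankin-Selberg `L`-function of two eigenforms. -/

namespace Pool.Agent.Work.MP_2b9663_nt.Mo

open UpperHalfPlane ModularGroup MeasureTheory CongruenceSubgroup Filter Topology
open scoped MatrixGroups Modular

lemma Gamma0_mono {N L : ℕ} (h : N ∣ L) : Gamma0 L ≤ Gamma0 N := by
  intro γ hγ
  rw [Gamma0_mem] at hγ ⊢
  have h1 : ((γ 1 0 : ℤ) : ZMod L) = 0 := hγ
  rw [ZMod.intCast_zmod_eq_zero_iff_dvd] at h1 ⊢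
  exact (Int.natCast_dvd_natCast.2 h).trans h1

lemma Gamma0_mono' {N L : ℕ} (h : N ∣ L) :
    (Gamma0 L : Subgroup (GL (Fin 2) ℝ)) ≤ (Gamma0 N : Subgroup (GL (Fin 2) ℝ)) :=
  Subgroup.map_mono (Gamma0_mono h)

/-- a form of level `N` as a form of level `L` -/
noncomputable def restrictForm {N L : ℕ} {k : ℤ} (h : N ∣ L)
    (f : CuspForm (Gamma0 N : Subgroup (GL (Fin 2) ℝ)) k) :
    CuspForm (Gamma0 L : Subgroup (GL (Fin 2) ℝ)) k where
  toFun := f
  slash_action_eq' γ hγ := f.slash_action_eq' γ (Gamma0_mono' h hγ)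
  holo' := f.holo'
  zero_at_cusps' hc := f.zero_at_cusps' (hc.mono (Gamma0_mono' h))

section

variable {k N M : ℕ} {a b : ℕ → ℝ}

/-- the forms of common level -/
lemma exists_forms (ha : IsEigenform k N a) (hb : IsEigenform k M b) :
    ∃ f g : CuspForm (Gamma0 (N.lcm M) : Subgroup (GL (Fin 2) ℝ)) (k : ℤ),
      (∀ z : ℍ, HasSum (fun n : ℕ => (a n : ℂ) * Complex.exp (2 * Real.pi * Complex.I * n * z)) (f z)) ∧
      ∀ z : ℍ, HasSum (fun n : ℕ => (b n : ℂ) * Complex.exp (2 * Real.pi * Complex.I * n * z)) (g z) := by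
  obtain ⟨f, hf⟩ := ha.cusp
  obtain ⟨g, hg⟩ := hb.cusp
  exact ⟨restrictForm (Nat.dvd_lcm_left N M) f, restrictForm (Nat.dvd_lcm_right N M) g, hf, hg⟩

/-- **The Rankin-Selberg theorem.** -/
theorem rankin_selberg [NeZero N] [NeZero M] (hk : 1 ≤ k) (ha : IsEigenform k N a)
    (hb : IsEigenform k M b) (f g : CuspForm (Gamma0 (N.lcm M) : Subgroup (GL (Fin 2) ℝ)) (k : ℤ))
    (hf : ∀ z : ℍ, HasSum (fun n : ℕ => (a n : ℂ) * Complex.exp (2 * Real.pi * Complex.I * n * z)) (f z))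
    (hg : ∀ z : ℍ, HasSum (fun n : ℕ => (b n : ℂ) * Complex.exp (2 * Real.pi * Complex.I * n * z)) (g z)) :
    ∃ Φ : ℂ → ℂ, IsRS k N M a b Φ ∧ (avg (N.lcm M) (petersson k f g) = 0 → Φ 1 = 0) := by
  haveI : NeZero (N.lcm M) := ⟨Nat.lcm_ne_zero (NeZero.ne N) (NeZero.ne M)⟩
  have hF : RSFun (N.lcm M) (petersson k f g) := RSFun.petersson f g
  obtain ⟨Q, hQd, hQ1, hQ⟩ := completed hF
  refine ⟨fun s => Q s * (Real.pi : ℂ) ^ s * (4 * Real.pi : ℂ) ^ (s + k - 1) *
    (Complex.Gamma (s + k - 1))⁻¹ * (Complex.Gamma (s + 1))⁻¹, ⟨?_, ?_, ?_⟩, ?_⟩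
  · have hpi : (Real.pi : ℂ) ≠ 0 := by exact_mod_cast Real.pi_ne_zero
    have h4 : (4 * Real.pi : ℂ) ≠ 0 := mul_ne_zero (by norm_num) hpi
    have h1 : Differentiable ℂ (fun s : ℂ => (Real.pi : ℂ) ^ s) := fun s =>
      differentiableAt_id.const_cpow (Or.inl hpi)
    have h2 : Differentiable ℂ (fun s : ℂ => (4 * Real.pi : ℂ) ^ (s + k - 1)) := fun s =>
      ((differentiableAt_id.add_const (k : ℂ)).sub_const 1).const_cpow (Or.inl h4)
    have h3 : Differentiable ℂ (fun s : ℂ => (Complex.Gamma (s + k - 1))⁻¹) :=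
      Complex.differentiable_one_div_Gamma.comp ((differentiable_id.add_const (k : ℂ)).sub_const 1)
    have h5 : Differentiable ℂ (fun s : ℂ => (Complex.Gamma (s + 1))⁻¹) :=
      Complex.differentiable_one_div_Gamma.comp (differentiable_id.add_const (1 : ℂ))
    exact (((hQd.mul h1).mul h2).mul h3).mul h5
  · intro s hs
    have hsum : Summable fun n : ℕ => |a n * b n| * (n : ℝ) ^ (-(s.re + k - 1)) := by
      refine (cc_summable hk ha hb hs).congr fun n => ?_
      unfold cc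
      rw [norm_mul, Complex.norm_real, Real.norm_eq_abs]
      rcases Nat.eq_zero_or_pos n with rfl | hn
      · rw [ha.zero]
        simp
      · rw [Complex.norm_natCast_cpow_of_pos hn]
        simp
    have h1 := strip_integral hk f g a b hf hg ha.zero hs hsum (strip_integrable hF hs)
    have h2 := euler_rs hk ha hb hs
    have h3 := hQ s hs
    have h4 : SI (petersson k f g) s = Complex.Gamma (s + k - 1) *
      (4 * Real.pi : ℂ) ^ (-(s + k - 1)) *
        ∑' n : ℕ, ((a n * b n : ℝ) : ℂ) * (n : ℂ) ^ (-(s + k - 1)) := h1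
    have h5 : zetaN (N.lcm M) (2 * s) * SI (petersson k f g) s = Complex.Gamma (s + k - 1) *
        (4 * Real.pi : ℂ) ^ (-(s + k - 1)) * Complex.exp (LE k N M a b s) := by
      unfold LE
      rw [h4, ← h2]
      ring
    rw [h5] at h3
    have hpi : (Real.pi : ℂ) ≠ 0 := by exact_mod_cast Real.pi_ne_zero
    have h4pi : (4 * Real.pi : ℂ) ≠ 0 := mul_ne_zero (by norm_num) hpi
    have hs0 : s ≠ 0 := by
      intro h
      rw [h] at hs
      simp at hs
      linarith
    have hG1 : Complex.Gamma s ≠ 0 := Complex.Gamma_ne_zero_of_re_pos (by linarith)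
    have hG2 : Complex.Gamma (s + k - 1) ≠ 0 := by
      refine Complex.Gamma_ne_zero_of_re_pos ?_
      simp only [Complex.sub_re, Complex.add_re, Complex.natCast_re, Complex.one_re]
      have : (1 : ℝ) ≤ k := by exact_mod_cast hk
      linarith
    have e1 : (Real.pi : ℂ) ^ s ≠ 0 := by simp [Complex.cpow_eq_zero_iff, hpi]
    have e2 : (4 * Real.pi : ℂ) ^ (s + k - 1) ≠ 0 := by
      rw [Ne, Complex.cpow_eq_zero_iff]
      exact fun h => h4pi h.1
    rw [Complex.Gamma_add_one s hs0, ← h3, Complex.cpow_neg, Complex.cpow_neg]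
    field_simp
  · have : (-1 + 1 : ℂ) = 0 := by ring
    simp [Complex.Gamma_zero]
  · intro h0
    rw [h0, zero_mul] at hQ1
    beta_reduce
    rw [hQ1]
    ring

end

end Pool.Agent.Work.MP_2b9663_nt.Mo
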