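import Pool.Agent.Work.MP_2b9663_nt.Mo.Defs

set_option autoImplicit false

/-! Satake parameters of an eigenform and the local Rankin-Selberg identity. -/

namespace Pool.Agent.Work.MP_2b9663_nt.Mo

open Complex

/-- complete homogeneous symmetric functions of two variables -/
noncomputable def hh (α β : ℂ) : ℕ → ℂ
  | 0 => 1
  | (e + 1) => α * hh α β e + β ^ (e + 1)

lemma hh_zero (α β : ℂ) : hh α β 0 = 1 := rfl
lemma hh_succ (α β : ℂ) (e : ℕ) : hh α β (e + 1) = α * hh α β e + β ^ (e + 1) := rfl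

lemma hh_succ' (α β : ℂ) (e : ℕ) : hh α β (e + 1) - β * hh α β e = α ^ (e + 1) := by
  induction e with
  | zero => simp [hh_succ, hh_zero]
  | succ e ih =>
    rw [hh_succ α β (e + 1), hh_succ α β e] at *
    linear_combination α * ih

lemma hh_rec (α β : ℂ) (e : ℕ) :
    hh α β (e + 2) = (α + β) * hh α β (e + 1) - α * β * hh α β e := by
  rw [hh_succ α β (e + 1), hh_succ α β e]
  ring

lemma hh_trace (α β : ℂ) (e : ℕ) :
    hh α β (e + 2) - α * β * hh α β e = α ^ (e + 2) + β ^ (e + 2) := by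
  have h := hh_succ' α β e
  rw [hh_succ α β (e + 1)]
  linear_combination α * h

lemma norm_hh_le {α β : ℂ} (hα : ‖α‖ ≤ 1) (hβ : ‖β‖ ≤ 1) (e : ℕ) : ‖hh α β e‖ ≤ e + 1 := by
  induction e with
  | zero => simp [hh_zero]
  | succ e ih =>
    rw [hh_succ]
    refine (norm_add_le _ _).trans ?_
    rw [norm_mul, norm_pow]
    have h1 : ‖α‖ * ‖hh α β e‖ ≤ 1 * (e + 1) :=
      mul_le_mul hα ih (norm_nonneg _) zero_le_one
    have h2 : ‖β‖ ^ (e + 1) ≤ 1 := pow_le_one₀ (norm_nonneg _) hβ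
    push_cast
    linarith

lemma hh_unique {x y : ℂ} {u : ℕ → ℂ} {α β : ℂ} (hx : α + β = x) (hy : α * β = y) (h0 : u 0 = 1)
    (h1 : u 1 = x) (h2 : ∀ e, u (e + 2) = x * u (e + 1) - y * u e) (e : ℕ) : u e = hh α β e := by
  induction e using Nat.strong_induction_on with
  | _ e ih =>
    match e, ih with
    | 0, _ => rw [h0, hh_zero]
    | 1, _ => rw [h1, hh_succ, hh_zero, ← hx]; ring
    | (e + 2), ih =>
      rw [h2, hh_rec, ih (e + 1) (by omega), ih e (by omega), hx, hy]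

section

variable {k N : ℕ} {a : ℕ → ℝ}

/-- the normalising factor -/
noncomputable def PP (k p : ℕ) : ℝ := (p : ℝ) ^ (((k : ℝ) - 1) / 2)

lemma PP_pos {p : ℕ} (hp : p.Prime) : 0 < PP k p :=
  Real.rpow_pos_of_pos (by exact_mod_cast hp.pos) _

lemma PP_sq (hk : 1 ≤ k) {p : ℕ} (hp : p.Prime) : PP k p ^ 2 = (p : ℝ) ^ (k - 1) := by
  have h0 : (0 : ℝ) ≤ p := Nat.cast_nonneg _
  unfold PP
  rw [← Real.rpow_natCast, ← Real.rpow_mul h0, ← Real.rpow_natCast, Nat.cast_sub hk]
  congr 1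
  push_cast
  ring

lemma lam_pow {p : ℕ} (e : ℕ) : lam k a (p ^ e) = a (p ^ e) / PP k p ^ e := by
  unfold lam PP
  congr 1
  push_cast
  rw [← Real.rpow_natCast, ← Real.rpow_natCast, ← Real.rpow_mul (Nat.cast_nonneg _),
    ← Real.rpow_mul (Nat.cast_nonneg _), mul_comm]

lemma ntr_eq {p : ℕ} (r : ℕ) : ntr k N a p r = mtr k N a p r / PP k p ^ r := by
  unfold ntr PP
  congr 1
  rw [← Real.rpow_natCast, ← Real.rpow_mul (Nat.cast_nonneg _)]
  congr 1
  ring

/-- The Satake parameters. -/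
lemma exists_roots (hk : 1 ≤ k) (ha : IsEigenform k N a) {p : ℕ} (hp : p.Prime) :
    ∃ α β : ℂ, ‖α‖ ≤ 1 ∧ ‖β‖ ≤ 1 ∧ α * β = (if p ∣ N then 0 else 1) ∧
      (∀ e, ((lam k a (p ^ e) : ℝ) : ℂ) = hh α β e) ∧
      ∀ r, 1 ≤ r → ((ntr k N a p r : ℝ) : ℂ) = α ^ r + β ^ r := by
  have hP := PP_pos (k := k) hp
  have hPP := PP_sq hk hp
  have hb := ha.bound p hp
  set P := PP k p with hPdef
  by_cases hN : p ∣ N
  · rw [if_pos hN, one_mul, ← hPP] at hb
    have hpow : ∀ e, a (p ^ e) = a p ^ e := by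
      intro e
      induction e with
      | zero => simp [ha.one]
      | succ e ih => rw [ha.bad p e hp hN, ih]; ring
    refine ⟨((a p / P : ℝ) : ℂ), 0, ?_, by simp, by simp [hN], ?_, ?_⟩
    · rw [Complex.norm_real, Real.norm_eq_abs, abs_div, abs_of_pos hP, div_le_one hP]
      exact abs_le_of_sq_le_sq hb hP.le
    · intro e
      rw [lam_pow, hpow, ← hPdef]
      have h1 : ∀ e, hh ((a p / P : ℝ) : ℂ) 0 e = ((a p / P : ℝ) : ℂ) ^ e := by
        intro e
        induction e with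
        | zero => simp [hh_zero]
        | succ e ih => rw [hh_succ, ih]; ring
      rw [h1]
      push_cast
      rw [div_pow]
    · intro r hr
      rw [ntr_eq, mtr, if_pos hN, hpow, ← hPdef, zero_pow (by omega), add_zero]
      push_cast
      rw [div_pow]
  · rw [if_neg hN, ← hPP] at hb
    set x : ℝ := a p / P with hx
    have hx4 : x ^ 2 ≤ 4 := by
      rw [hx, div_pow, div_le_iff₀ (by positivity)]
      exact hb
    set y : ℝ := Real.sqrt (4 - x ^ 2) with hy
    have hy2 : y ^ 2 = 4 - x ^ 2 := Real.sq_sqrt (by linarith)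
    have hyc : (y : ℂ) ^ 2 = 4 - (x : ℂ) ^ 2 := by exact_mod_cast hy2
    set α : ℂ := ⟨x / 2, y / 2⟩ with hα
    set β : ℂ := ⟨x / 2, -(y / 2)⟩ with hβ
    have hn : ‖α‖ = 1 := by
      rw [← sq_eq_sq₀ (norm_nonneg _) zero_le_one, ← Complex.normSq_eq_norm_sq, Complex.normSq_apply]
      simp only [hα]
      nlinarith
    have hn' : ‖β‖ = 1 := by
      rw [← sq_eq_sq₀ (norm_nonneg _) zero_le_one, ← Complex.normSq_eq_norm_sq, Complex.normSq_apply]
      simp only [hβ]
      nlinarith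
    have hsum : α + β = (x : ℂ) := by
      apply Complex.ext <;> simp [hα, hβ]
    have hprod : α * β = 1 := by
      apply Complex.ext
      · simp only [hα, hβ, Complex.mul_re, Complex.one_re]
        nlinarith
      · simp only [hα, hβ, Complex.mul_im, Complex.one_im]
        ring
    have hu : ∀ e, ((lam k a (p ^ e) : ℝ) : ℂ) = hh α β e := by
      refine hh_unique (x := (x : ℂ)) (y := 1) hsum hprod ?_ ?_ ?_
      · rw [lam_pow]
        simp [ha.one]
      · rw [lam_pow, ← hPdef, pow_one, pow_one, ← hx]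
      · intro e
        have h1 : lam k a (p ^ (e + 2)) = x * lam k a (p ^ (e + 1)) - 1 * lam k a (p ^ e) := by
          rw [lam_pow, lam_pow, lam_pow, ha.good p e hp hN, ← hPP, ← hPdef, hx]
          field_simp
          ring
        rw [h1]
        push_cast
        ring
    refine ⟨α, β, hn.le, hn'.le, by simp [hN, hprod], hu, ?_⟩
    intro r hr
    obtain rfl | hr2 := Nat.eq_or_lt_of_le hr
    · rw [ntr_eq, mtr, if_neg hN, if_neg (by norm_num), ← hPdef]
      have h1 := hu 1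
      rw [lam_pow, ← hPdef, hh_succ, hh_zero] at h1
      rw [sub_zero, h1]
      ring
    · obtain ⟨e, rfl⟩ := Nat.exists_eq_add_of_le' (show 2 ≤ r by omega)
      have h1 := hh_trace α β e
      rw [hprod, one_mul, ← hu, ← hu] at h1
      rw [← h1, ntr_eq, mtr, if_neg hN, if_pos (by omega), lam_pow, lam_pow, ← hPP, ← hPdef,
        show e + 2 - 2 = e by omega]
      rw [← Complex.ofReal_sub]
      congr 1
      field_simp
      ring

end

/-- The generating function of the products. -/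
lemma hh_gen {α β γ δ X : ℂ} (hα : ‖α‖ ≤ 1) (hβ : ‖β‖ ≤ 1) (hγ : ‖γ‖ ≤ 1) (hδ : ‖δ‖ ≤ 1)
    (hX : ‖X‖ < 1) :
    (Summable fun e => ‖hh α β e * hh γ δ e * X ^ e‖) ∧
    (∑' e, hh α β e * hh γ δ e * X ^ e) * ((1 - α * γ * X) * (1 - α * δ * X) * (1 - β * γ * X) *
      (1 - β * δ * X)) = 1 - α * β * γ * δ * X ^ 2 := by
  set u : ℕ → ℂ := fun e => hh α β e * hh γ δ e with hu
  have hbd : ∀ e, ‖u e‖ ≤ ((e : ℝ) + 1) ^ 2 := by
    intro e
    rw [hu]
    simp only [norm_mul]
    rw [sq]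
    exact mul_le_mul (norm_hh_le hα hβ e) (norm_hh_le hγ hδ e) (norm_nonneg _) (by positivity)
  have hsum : ∀ j, Summable fun e => ‖u (e + j) * X ^ e‖ := by
    intro j
    have h1 : Summable fun e : ℕ => ((e : ℝ) + ((j : ℝ) + 1)) ^ 2 * ‖X‖ ^ e := by
      have ha := summable_pow_mul_geometric_of_norm_lt_one (R := ℝ) 2 (r := ‖X‖) (by simpa using hX)
      have hb := summable_pow_mul_geometric_of_norm_lt_one (R := ℝ) 1 (r := ‖X‖) (by simpa using hX)
      have hc := summable_pow_mul_geometric_of_norm_lt_one (R := ℝ) 0 (r := ‖X‖) (by simpa using hX)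
      refine ((ha.add (hb.mul_left (2 * ((j : ℝ) + 1)))).add
        (hc.mul_left (((j : ℝ) + 1) ^ 2))).congr ?_
      intro e
      ring
    refine Summable.of_nonneg_of_le (fun e => norm_nonneg _) (fun e => ?_) h1
    rw [norm_mul, norm_pow]
    refine mul_le_mul_of_nonneg_right ?_ (by positivity)
    refine (hbd _).trans (le_of_eq ?_)
    push_cast
    ring
  have hs : ∀ j, Summable fun e => u (e + j) * X ^ e := fun j => (hsum j).of_norm
  set T : ℕ → ℂ := fun j => ∑' e, u (e + j) * X ^ e with hT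
  have hstep : ∀ j, T j = u j + X * T (j + 1) := by
    intro j
    simp only [hT]
    rw [(hs j).tsum_eq_zero_add, ← tsum_mul_left]
    simp only [zero_add, pow_zero, mul_one]
    congr 1
    refine tsum_congr fun e => ?_
    rw [show e + 1 + j = e + (j + 1) by ring]
    ring
  have hrec : ∀ e, u (e + 4) - (α * γ + α * δ + β * γ + β * δ) * u (e + 3) +
      (α * γ * (α * δ) + α * γ * (β * γ) + α * γ * (β * δ) + α * δ * (β * γ) + α * δ * (β * δ) +
        β * γ * (β * δ)) * u (e + 2) -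
      (α * γ * (α * δ) * (β * γ) + α * γ * (α * δ) * (β * δ) + α * γ * (β * γ) * (β * δ) +
        α * δ * (β * γ) * (β * δ)) * u (e + 1) + α * γ * (α * δ) * (β * γ) * (β * δ) * u e = 0 := by
    intro e
    simp only [hu]
    rw [show e + 4 = (e + 2) + 2 by ring, hh_rec α β (e + 2), hh_rec γ δ (e + 2),
      show e + 2 + 1 = (e + 1) + 2 by ring, show e + 3 = (e + 1) + 2 by ring,
      hh_rec α β (e + 1), hh_rec γ δ (e + 1), show e + 1 + 1 = e + 2 by ring,
      hh_rec α β e, hh_rec γ δ e]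
    ring
  have hTrec : T 4 - (α * γ + α * δ + β * γ + β * δ) * T 3 +
      (α * γ * (α * δ) + α * γ * (β * γ) + α * γ * (β * δ) + α * δ * (β * γ) + α * δ * (β * δ) +
        β * γ * (β * δ)) * T 2 -
      (α * γ * (α * δ) * (β * γ) + α * γ * (α * δ) * (β * δ) + α * γ * (β * γ) * (β * δ) +
        α * δ * (β * γ) * (β * δ)) * T 1 + α * γ * (α * δ) * (β * γ) * (β * δ) * T 0 = 0 := by
    simp only [hT]
    rw [← tsum_mul_left, ← tsum_mul_left, ← tsum_mul_left, ← tsum_mul_left,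
      ← (hs 4).tsum_sub ((hs 3).mul_left _), ← ((hs 4).sub ((hs 3).mul_left _)).tsum_add
        ((hs 2).mul_left _), ← (((hs 4).sub ((hs 3).mul_left _)).add ((hs 2).mul_left _)).tsum_sub
        ((hs 1).mul_left _), ← ((((hs 4).sub ((hs 3).mul_left _)).add ((hs 2).mul_left _)).sub
        ((hs 1).mul_left _)).tsum_add ((hs 0).mul_left _)]
    refine (tsum_congr fun e => ?_).trans (tsum_zero (α := ℂ) (β := ℕ))
    have := hrec e
    simp only [add_zero]
    linear_combination X ^ e * this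
  refine ⟨hsum 0, ?_⟩
  have h0 := hstep 0
  have h1 := hstep 1
  have h2 := hstep 2
  have h3 := hstep 3
  have hu0 : u 0 = 1 := by simp [hu, hh_zero]
  have hu1 : u 1 = (α + β) * (γ + δ) := by simp only [hu, hh_succ, hh_zero]; ring
  have hu2 : u 2 = ((α + β) ^ 2 - α * β) * ((γ + δ) ^ 2 - γ * δ) := by
    simp only [hu, hh_succ, hh_zero]; ring
  have hu3 : u 3 = ((α + β) ^ 3 - 2 * (α * β) * (α + β)) * ((γ + δ) ^ 3 - 2 * (γ * δ) * (γ + δ)) := by
    simp only [hu, hh_succ, hh_zero]; ring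
  have hT0 : ∑' e, hh α β e * hh γ δ e * X ^ e = T 0 := by simp [hT, hu]
  rw [hT0]
  simp only [zero_add] at h0 h1 h2 h3
  norm_num at h0 h1 h2 h3
  rw [hu0] at h0
  rw [hu1] at h1
  rw [hu2] at h2
  rw [hu3] at h3
  linear_combination X ^ 4 * hTrec + (1 - (α * γ + α * δ + β * γ + β * δ) * X +
    (α * γ * (α * δ) + α * γ * (β * γ) + α * γ * (β * δ) + α * δ * (β * γ) + α * δ * (β * δ) +
        β * γ * (β * δ)) * X ^ 2 -
    (α * γ * (α * δ) * (β * γ) + α * γ * (α * δ) * (β * δ) + α * γ * (β * γ) * (β * δ) +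
        α * δ * (β * γ) * (β * δ)) * X ^ 3) * h0 +
    X * (1 - (α * γ + α * δ + β * γ + β * δ) * X +
    (α * γ * (α * δ) + α * γ * (β * γ) + α * γ * (β * δ) + α * δ * (β * γ) + α * δ * (β * δ) +
        β * γ * (β * δ)) * X ^ 2) * h1 +
    X ^ 2 * (1 - (α * γ + α * δ + β * γ + β * δ) * X) * h2 + X ^ 3 * h3

end Pool.Agent.Work.MP_2b9663_nt.Mo
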