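import Pool.Agent.Work.MP_2b9663_nt.Mo.Defs

set_option autoImplicit false

/-! The theta function and the Epstein zeta function of the lattice `ℤ z + ℤ`. -/

namespace Pool.Agent.Work.MP_2b9663_nt.Mo

open UpperHalfPlane ModularGroup MeasureTheory CongruenceSubgroup Set
open scoped MatrixGroups Modular

namespace Tt

/-- the sum of the squares -/
noncomputable def nn (v : ℤ × ℤ) : ℝ := (v.1 : ℝ) ^ 2 + (v.2 : ℝ) ^ 2

theorem nn_nonneg (v : ℤ × ℤ) : 0 ≤ nn v := by unfold nn; positivity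

theorem nn_zero : nn 0 = 0 := by simp [nn]

theorem nn_pos {v : ℤ × ℤ} (hv : v ≠ 0) : 0 < nn v := by
  refine lt_of_le_of_ne (nn_nonneg v) fun h => hv ?_
  unfold nn at h
  have h1 : (v.1 : ℝ) ^ 2 = 0 := by nlinarith [sq_nonneg (v.1 : ℝ), sq_nonneg (v.2 : ℝ)]
  have h2 : (v.2 : ℝ) ^ 2 = 0 := by nlinarith [sq_nonneg (v.1 : ℝ), sq_nonneg (v.2 : ℝ)]
  have h1' : (v.1 : ℝ) = 0 := by simpa using h1
  have h2' : (v.2 : ℝ) = 0 := by simpa using h2
  ext
  · simpa using h1'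
  · simpa using h2'

/-- a lower bound of the quadratic form -/
noncomputable def kap (x y : ℝ) : ℝ := y / (2 * y ^ 2 + 2 * x ^ 2 + 1)

theorem kap_pos {x y : ℝ} (hy : 0 < y) : 0 < kap x y := by unfold kap; positivity

theorem kap_le {x y : ℝ} (hy : 0 < y) (v : ℤ × ℤ) : kap x y * nn v ≤ qf x y v := by
  unfold kap nn qf
  rw [div_mul_eq_mul_div, div_le_div_iff₀ (by positivity) hy]
  have : ((v.1 * x + v.2) ^ 2 + (v.1 * y) ^ 2) * (2 * y ^ 2 + 2 * x ^ 2 + 1) -
      y * ((v.1 : ℝ) ^ 2 + (v.2 : ℝ) ^ 2) * y =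
      (2 * x ^ 2 + 1) * (v.1 * x + v.2) ^ 2 + 2 * y ^ 4 * (v.1 : ℝ) ^ 2 +
        y ^ 2 * (2 * v.1 * x + v.2) ^ 2 := by ring
  have h2 : 0 ≤ (2 * x ^ 2 + 1) * (v.1 * x + v.2) ^ 2 + 2 * y ^ 4 * (v.1 : ℝ) ^ 2 +
        y ^ 2 * (2 * v.1 * x + v.2) ^ 2 := by positivity
  linarith

theorem qf_zero (x y : ℝ) : qf x y 0 = 0 := by simp [qf]

theorem qf_pos {x y : ℝ} (hy : 0 < y) {v : ℤ × ℤ} (hv : v ≠ 0) : 0 < qf x y v :=
  lt_of_lt_of_le (mul_pos (kap_pos hy) (nn_pos hv)) (kap_le hy v)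

theorem qf_nonneg {x y : ℝ} (hy : 0 < y) (v : ℤ × ℤ) : 0 ≤ qf x y v :=
  le_trans (mul_nonneg (kap_pos hy).le (nn_nonneg v)) (kap_le hy v)

theorem nnr_summable {σ : ℝ} (hσ : 1 < σ) : Summable fun v : ℤ × ℤ => nn v ^ (-σ) := by
  have h := EisensteinSeries.summable_one_div_norm_rpow (k := 2 * σ) (by linarith)
  have h2 := (finTwoArrowEquiv ℤ).symm.summable_iff.2 h
  refine h2.of_nonneg_of_le (fun v => Real.rpow_nonneg (nn_nonneg v) _) fun v => ?_
  by_cases hv : v = 0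
  · subst hv
    rw [nn_zero, Real.zero_rpow (by linarith)]
    exact Real.rpow_nonneg (norm_nonneg _) _
  · simp only [Function.comp]
    set w : Fin 2 → ℤ := (finTwoArrowEquiv ℤ).symm v with hw
    have hw0 : w 0 = v.1 := rfl
    have hw1 : w 1 = v.2 := rfl
    have hn : ‖w‖ ^ 2 ≤ nn v := by
      have h1 : ‖w‖ ≤ Real.sqrt (nn v) := by
        rw [pi_norm_le_iff_of_nonneg (Real.sqrt_nonneg _)]
        intro i
        refine Real.le_sqrt_of_sq_le ?_
        unfold nn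
        fin_cases i
        · simp only [Fin.zero_eta, hw0, Int.norm_eq_abs, sq_abs]
          nlinarith [sq_nonneg (v.2 : ℝ)]
        · simp only [Fin.mk_one, hw1, Int.norm_eq_abs, sq_abs]
          nlinarith [sq_nonneg (v.1 : ℝ)]
      calc ‖w‖ ^ 2 ≤ (Real.sqrt (nn v)) ^ 2 := by gcongr
        _ = nn v := Real.sq_sqrt (nn_nonneg v)
    have hw2 : w ≠ 0 := by
      intro h0
      apply hv
      ext
      · rw [← hw0, h0]; rfl
      · rw [← hw1, h0]; rfl
    have hwp : 0 < ‖w‖ := norm_pos_iff.2 hw2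
    calc nn v ^ (-σ) ≤ (‖w‖ ^ 2) ^ (-σ) :=
          Real.rpow_le_rpow_of_nonpos (by positivity) hn (by linarith)
      _ = ‖w‖ ^ (-(2 * σ)) := by
          rw [← Real.rpow_natCast, ← Real.rpow_mul hwp.le]
          congr 1
          push_cast
          ring

theorem exp_le {σ : ℝ} (h0 : 0 ≤ σ) {X : ℝ} (hX : 0 < X) :
    Real.exp (-X) ≤ (⌈σ⌉₊.factorial : ℝ) * X ^ (-σ) := by
  have hf : (1 : ℝ) ≤ (⌈σ⌉₊.factorial : ℝ) := by exact_mod_cast Nat.factorial_pos _
  rw [Real.rpow_neg hX.le, Real.exp_neg, ← div_eq_mul_inv, le_div_iff₀ (Real.rpow_pos_of_pos hX _),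
    inv_mul_le_iff₀ (Real.exp_pos _)]
  rcases le_or_gt 1 X with h1 | h1
  · have h2 : X ^ σ ≤ X ^ ⌈σ⌉₊ := by
      rw [← Real.rpow_natCast]
      exact Real.rpow_le_rpow_of_exponent_le h1 (Nat.le_ceil σ)
    have h3 := Real.pow_div_factorial_le_exp X hX.le ⌈σ⌉₊
    rw [div_le_iff₀ (by positivity)] at h3
    exact h2.trans h3
  · have h2 : X ^ σ ≤ 1 := Real.rpow_le_one hX.le h1.le h0
    have h3 : 1 ≤ Real.exp X := Real.one_le_exp hX.le
    nlinarith

theorem gauss_summable {c : ℝ} (hc : 0 < c) : Summable fun v : ℤ × ℤ => Real.exp (-(c * nn v)) := by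
  have h1 := (nnr_summable (σ := 2) (by norm_num)).mul_left
    ((⌈(2 : ℝ)⌉₊.factorial : ℝ) * c ^ (-(2 : ℝ)))
  have h2 : Summable fun v : ℤ × ℤ => if v = 0 then (1 : ℝ) else 0 :=
    summable_of_ne_finset_zero (s := {0}) fun v hv => by
      rw [if_neg (by simpa using hv)]
  refine (h1.add h2).of_nonneg_of_le (fun v => (Real.exp_pos _).le) fun v => ?_
  by_cases hv : v = 0
  · subst hv
    rw [nn_zero, if_pos rfl, Real.zero_rpow (by norm_num)]
    simp
  · rw [if_neg hv, add_zero]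
    refine (exp_le (σ := 2) (by norm_num) (mul_pos hc (nn_pos hv))).trans (le_of_eq ?_)
    rw [Real.mul_rpow hc.le (nn_nonneg v)]
    ring

theorem term_le {κ t x y : ℝ} (ht : 0 < t) (hκ : ∀ v, κ * nn v ≤ qf x y v) (v : ℤ × ℤ) :
    Real.exp (-(Real.pi * t * qf x y v)) ≤ Real.exp (-(Real.pi * t * κ * nn v)) := by
  rw [Real.exp_le_exp, neg_le_neg_iff]
  calc Real.pi * t * κ * nn v = Real.pi * t * (κ * nn v) := by ring
    _ ≤ Real.pi * t * qf x y v := mul_le_mul_of_nonneg_left (hκ v) (by positivity)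

end Tt

open Tt

theorem Th_summable {t x y : ℝ} (ht : 0 < t) (hy : 0 < y) :
    Summable fun v : ℤ × ℤ => Real.exp (-(Real.pi * t * qf x y v)) := by
  have hk := kap_pos (x := x) hy
  exact (gauss_summable (c := Real.pi * t * kap x y) (by positivity)).of_nonneg_of_le
    (fun v => (Real.exp_pos _).le) (term_le ht (kap_le hy))

theorem one_le_Th {t x y : ℝ} (ht : 0 < t) (hy : 0 < y) : 1 ≤ Th t x y := by
  have h := (Th_summable (x := x) ht hy).le_tsum 0 (fun v _ => (Real.exp_pos _).le)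
  rw [qf_zero] at h
  simpa [Th] using h

namespace Tt

theorem hasSum_sub {t x y : ℝ} (ht : 0 < t) (hy : 0 < y) :
    HasSum (fun v : ℤ × ℤ => if v = 0 then 0 else Real.exp (-(Real.pi * t * qf x y v)))
      (Th t x y - 1) := by
  have h1 := (Th_summable (x := x) ht hy).hasSum
  have h2 : HasSum (fun v : ℤ × ℤ => if v = 0 then (1 : ℝ) else 0) 1 := hasSum_ite_eq 0 1
  refine (h1.sub h2).congr_fun ?_
  intro v
  by_cases hv : v = 0
  · subst hv
    simp [qf_zero]
  · simp [hv]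

theorem gen_bound {σ κ t x y : ℝ} (hσ : 1 < σ) (hκ0 : 0 < κ) (ht : 0 < t) (hy : 0 < y)
    (hκ : ∀ v, κ * nn v ≤ qf x y v) :
    Th t x y - 1 ≤ (⌈σ⌉₊.factorial : ℝ) * (∑' v, nn v ^ (-σ)) * (Real.pi * κ) ^ (-σ) *
      t ^ (-σ) := by
  have h1 := (nnr_summable hσ).hasSum.mul_left
    ((⌈σ⌉₊.factorial : ℝ) * (Real.pi * κ) ^ (-σ) * t ^ (-σ))
  have h3 := hasSum_le (fun v => ?_) (hasSum_sub (x := x) ht hy) h1
  · refine h3.trans (le_of_eq ?_)
    ring
  · by_cases hv : v = 0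
    · subst hv
      rw [if_pos rfl]
      exact mul_nonneg (by positivity) (Real.rpow_nonneg (nn_nonneg _) _)
    · rw [if_neg hv]
      refine (term_le ht hκ v).trans ?_
      refine (exp_le (σ := σ) (by linarith) (mul_pos (by positivity) (nn_pos hv))).trans
        (le_of_eq ?_)
      rw [Real.mul_rpow (by positivity) (nn_nonneg v),
        show Real.pi * t * κ = Real.pi * κ * t by ring,
        Real.mul_rpow (by positivity) ht.le]
      ring

end Tt

theorem Th_bound {σ : ℝ} (hσ : 1 < σ) : ∃ C : ℝ, ∀ t x y : ℝ, 0 < t → |x| ≤ 1 / 2 → 1 / 2 ≤ y →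
    Th t x y - 1 ≤ C * t ^ (-σ) * y ^ σ := by
  refine ⟨(⌈σ⌉₊.factorial : ℝ) * (∑' v, nn v ^ (-σ)) * (Real.pi / 8) ^ (-σ), ?_⟩
  intro t x y ht hx hy
  have hy0 : 0 < y := by linarith
  have hx2 : x ^ 2 ≤ 1 / 4 := by
    rw [← sq_abs]
    nlinarith [abs_nonneg x]
  have hk : 1 / (8 * y) ≤ kap x y := by
    unfold kap
    rw [div_le_div_iff₀ (by positivity) (by positivity)]
    nlinarith
  refine (gen_bound (κ := 1 / (8 * y)) (x := x) hσ (by positivity) ht hy0
    (fun v => (mul_le_mul_of_nonneg_right hk (nn_nonneg v)).trans (kap_le hy0 v))).trans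
    (le_of_eq ?_)
  rw [show Real.pi * (1 / (8 * y)) = (Real.pi / 8) * y⁻¹ by field_simp,
    Real.mul_rpow (by positivity) (by positivity), Real.inv_rpow hy0.le, Real.rpow_neg hy0.le,
    inv_inv]
  ring

theorem Ep_summable {x y : ℝ} {s : ℂ} (hy : 0 < y) (hs : 1 < s.re) :
    Summable fun v : ℤ × ℤ => ‖(qf x y v : ℂ) ^ (-s)‖ := by
  have hk := kap_pos (x := x) hy
  have hs0 : s ≠ 0 := by
    rintro rfl
    simp at hs
    linarith
  refine ((nnr_summable hs).mul_left (kap x y ^ (-s.re))).of_nonneg_of_le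
    (fun v => norm_nonneg _) fun v => ?_
  by_cases hv : v = 0
  · subst hv
    rw [qf_zero, Complex.ofReal_zero, Complex.zero_cpow (neg_ne_zero.2 hs0), norm_zero]
    exact mul_nonneg (by positivity) (Real.rpow_nonneg (nn_nonneg _) _)
  · rw [Complex.norm_cpow_eq_rpow_re_of_pos (qf_pos hy hv), Complex.neg_re,
      ← Real.mul_rpow hk.le (nn_nonneg v)]
    exact Real.rpow_le_rpow_of_nonpos (mul_pos hk (nn_pos hv)) (kap_le hy v) (by linarith)

theorem Th_continuousOn : ContinuousOn (fun p : ℝ × ℝ × ℝ => Th p.1 p.2.1 p.2.2)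
    {p | 0 < p.1 ∧ 0 < p.2.2} := by
  rintro ⟨t₀, x₀, y₀⟩ ⟨ht₀, hy₀⟩
  simp only at ht₀ hy₀
  refine ContinuousAt.continuousWithinAt ?_
  have hk := kap_pos (x := x₀) hy₀
  set c : ℝ := t₀ * kap x₀ y₀ / 2 with hc
  have hc0 : 0 < c := by positivity
  have hkc : Continuous fun p : ℝ × ℝ × ℝ => p.1 * kap p.2.1 p.2.2 := by
    unfold kap
    refine Continuous.mul (by fun_prop) (Continuous.div (by fun_prop) (by fun_prop) ?_)
    intro p
    positivity
  have hU : IsOpen {p : ℝ × ℝ × ℝ | 0 < p.1 ∧ 0 < p.2.2 ∧ c < p.1 * kap p.2.1 p.2.2} := by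
    exact IsOpen.inter (isOpen_lt continuous_const (f := fun _ : ℝ × ℝ × ℝ => (0 : ℝ))
      (g := fun p : ℝ × ℝ × ℝ => p.1) (by fun_prop)) (IsOpen.inter
      (isOpen_lt (f := fun _ : ℝ × ℝ × ℝ => (0 : ℝ)) (g := fun p : ℝ × ℝ × ℝ => p.2.2)
        continuous_const (by fun_prop)) (isOpen_lt continuous_const hkc))
  have hp : (t₀, x₀, y₀) ∈ {p : ℝ × ℝ × ℝ | 0 < p.1 ∧ 0 < p.2.2 ∧ c < p.1 * kap p.2.1 p.2.2} := by
    refine ⟨ht₀, hy₀, ?_⟩
    simp only [hc]
    have : 0 < t₀ * kap x₀ y₀ := by positivity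
    linarith
  refine ContinuousOn.continuousAt ?_ (hU.mem_nhds hp)
  unfold Th
  refine continuousOn_tsum (u := fun v => Real.exp (-(Real.pi * c * nn v))) (fun v => ?_)
    (gauss_summable (by positivity)) fun v p hp => ?_
  · unfold qf
    refine ContinuousOn.rexp (ContinuousOn.neg (ContinuousOn.mul (by fun_prop)
      (ContinuousOn.div (by fun_prop) (by fun_prop) ?_)))
    intro p hp
    exact hp.2.1.ne'
  · obtain ⟨h1, h2, h3⟩ := hp
    rw [Real.norm_eq_abs, abs_of_pos (Real.exp_pos _)]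
    refine (term_le h1 (kap_le h2) v).trans ?_
    rw [Real.exp_le_exp, neg_le_neg_iff]
    refine mul_le_mul_of_nonneg_right ?_ (nn_nonneg v)
    rw [mul_assoc]
    exact mul_le_mul_of_nonneg_left h3.le (by positivity)

theorem Th_mellin {x y : ℝ} {s : ℂ} (hy : 0 < y) (hs : 1 < s.re) :
    MellinConvergent (fun t => ((Th t x y - 1 : ℝ) : ℂ)) s ∧
    mellin (fun t => ((Th t x y - 1 : ℝ) : ℂ)) s =
      (Real.pi : ℂ) ^ (-s) * Complex.Gamma s * Ep x y s := by
  have hk := kap_pos (x := x) hy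
  have hs0 : s ≠ 0 := by
    rintro rfl
    simp at hs
    linarith
  have hnn : ∀ t : ℝ, 0 < t → 0 ≤ Th t x y - 1 := fun t ht => by
    have := one_le_Th (x := x) ht hy
    linarith
  have hO : ∀ σ : ℝ, 1 < σ → ∃ C : ℝ, ∀ t : ℝ, 0 < t →
      ‖((Th t x y - 1 : ℝ) : ℂ)‖ ≤ C * ‖t ^ (-σ)‖ := by
    intro σ hσ
    refine ⟨(⌈σ⌉₊.factorial : ℝ) * (∑' v, nn v ^ (-σ)) * (Real.pi * kap x y) ^ (-σ), ?_⟩
    intro t ht
    rw [Complex.norm_real, Real.norm_eq_abs, abs_of_nonneg (hnn t ht), Real.norm_eq_abs,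
      abs_of_nonneg (by positivity)]
    exact gen_bound hσ hk ht hy (kap_le hy)
  refine ⟨?_, ?_⟩
  · refine mellinConvergent_of_isBigO_rpow (a := s.re + 1) (b := (1 + s.re) / 2) ?_ ?_
      (by linarith) ?_ (by linarith)
    · refine ContinuousOn.locallyIntegrableOn ?_ measurableSet_Ioi
      refine Complex.continuous_ofReal.comp_continuousOn ?_
      refine ContinuousOn.sub ?_ continuousOn_const
      refine Th_continuousOn.comp (f := fun t : ℝ => (t, x, y)) (by fun_prop) ?_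
      intro t ht
      exact ⟨ht, hy⟩
    · obtain ⟨C, hC⟩ := hO (s.re + 1) (by linarith)
      refine Asymptotics.IsBigO.of_bound C ?_
      filter_upwards [Filter.eventually_gt_atTop 0] with t ht
      exact hC t ht
    · obtain ⟨C, hC⟩ := hO ((1 + s.re) / 2) (by linarith)
      refine Asymptotics.IsBigO.of_bound C ?_
      filter_upwards [self_mem_nhdsWithin] with t ht
      exact hC t ht
  · have h1 := hasSum_mellin_pi_mul₀ (a := fun _ : ℤ × ℤ => (1 : ℂ)) (p := fun v => qf x y v)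
      (F := fun t => ((Th t x y - 1 : ℝ) : ℂ)) (s := s) (fun v => qf_nonneg hy v) (by linarith)
      ?_ ?_
    · rw [← h1.tsum_eq, Ep, ← tsum_mul_left]
      refine tsum_congr fun v => ?_
      rw [Complex.cpow_neg (qf x y v : ℂ), mul_one, div_eq_mul_inv]
    · intro t ht
      have h2 := Complex.hasSum_ofReal.2 (hasSum_sub (x := x) (y := y) ht hy)
      refine h2.congr_fun ?_
      intro v
      by_cases hv : v = 0
      · subst hv
        simp [qf_zero]
      · rw [if_neg (qf_pos hy hv).ne', if_neg hv, one_mul]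
        congr 2
        ring
    · refine (Ep_summable (x := x) hy hs).congr fun v => ?_
      by_cases hv : v = 0
      · subst hv
        rw [qf_zero, Complex.ofReal_zero, Complex.zero_cpow (neg_ne_zero.2 hs0), norm_zero,
          Real.zero_rpow (by linarith), div_zero]
      · rw [Complex.norm_cpow_eq_rpow_re_of_pos (qf_pos hy hv), Complex.neg_re,
          Real.rpow_neg (qf_nonneg hy v), norm_one, one_div]

theorem Th_smul_le {t : ℝ} (ht : 0 < t) {l : ℕ} (hl : 0 < l) (γ : SL(2, ℤ)) (z : ℍ) :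
    Th t (l * (γ • z).re) (l * (γ • z).im) ≤ Th (t / l) z.re z.im := by
  have hl0 : (0 : ℝ) < l := by exact_mod_cast hl
  have hzim := z.im_pos
  set a : ℤ := γ 0 0 with ha
  set b : ℤ := γ 0 1 with hb
  set c : ℤ := γ 1 0 with hc
  set d : ℤ := γ 1 1 with hd
  have hdet : a * d - b * c = 1 := by
    have := γ.det_coe
    rw [Matrix.det_fin_two] at this
    exact this
  let φ : ℤ × ℤ → ℤ × ℤ := fun v => (v.1 * l * a + v.2 * c, v.1 * l * b + v.2 * d)
  have hφ : Function.Injective φ := by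
    rintro ⟨m, n⟩ ⟨m', n'⟩ h
    simp only [φ, Prod.mk.injEq] at h
    obtain ⟨h1, h2⟩ := h
    have hlz : (l : ℤ) ≠ 0 := by exact_mod_cast hl.ne'
    have h3 : (m - m') * l = 0 := by linear_combination d * h1 - c * h2 + (m' - m) * l * hdet
    have h4 : n - n' = 0 := by linear_combination a * h2 - b * h1 + (n' - n) * hdet
    have h5 : m - m' = 0 := by
      rcases mul_eq_zero.1 h3 with h | h
      · exact h
      · exact absurd h hlz
    ext
    · simp only; linarith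
    · simp only; linarith
  have hq : ∀ v, qf (l * (γ • z).re) (l * (γ • z).im) v = qf z.re z.im (φ v) / l := by
    intro v
    have hl1 : (l : ℝ) ≠ 0 := hl0.ne'
    have hw := (γ • z).im_pos
    have hden : (c : ℂ) * z + d ≠ 0 := by
      have := denom_ne_zero γ z
      rwa [denom_apply] at this
    have hnz : Complex.normSq ((c : ℂ) * z + d) ≠ 0 := by
      rwa [ne_eq, Complex.normSq_eq_zero]
    have him : (γ • z).im = z.im / Complex.normSq ((c : ℂ) * z + d) := by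
      rw [ModularGroup.im_smul_eq_div_normSq, denom_apply]
    have hcoe : ((γ • z : ℍ) : ℂ) = ((a : ℂ) * z + b) / ((c : ℂ) * z + d) := by
      rw [UpperHalfPlane.coe_specialLinearGroup_apply]
      simp [ha, hb, hc, hd]
    have h1 : qf (l * (γ • z).re) (l * (γ • z).im) v =
        Complex.normSq (v.1 * l * ((γ • z : ℍ) : ℂ) + v.2) / (l * (γ • z).im) := by
      unfold qf
      congr 1
      rw [Complex.normSq_apply]
      simp
      ring
    have h2 : (v.1 * l * ((γ • z : ℍ) : ℂ) + v.2) =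
        (((φ v).1 : ℂ) * z + (φ v).2) / ((c : ℂ) * z + d) := by
      rw [hcoe, eq_div_iff hden, add_mul, mul_assoc, div_mul_cancel₀ _ hden]
      simp only [φ]
      push_cast
      ring
    have h3 : Complex.normSq (((φ v).1 : ℂ) * z + (φ v).2) = qf z.re z.im (φ v) * z.im := by
      unfold qf
      rw [div_mul_cancel₀ _ hzim.ne', Complex.normSq_apply]
      simp
      ring
    rw [h1, h2, Complex.normSq_div, h3, him]
    field_simp
  unfold Th
  refine le_trans (le_of_eq (tsum_congr fun v => ?_))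
    (tsum_comp_le_tsum_of_inj (Th_summable (t := t / l) (x := z.re) (by positivity) z.im_pos)
      (fun v => (Real.exp_pos _).le) hφ)
  simp only [Function.comp]
  rw [hq]
  congr 2
  ring

namespace Tt

/-- the term of the transformed sum -/
noncomputable def gt (t x y : ℝ) (v : ℤ × ℤ) : ℂ :=
  Complex.exp (-(Real.pi * y * (t * v.1 ^ 2 + v.2 ^ 2 / t)) -
    2 * Real.pi * Complex.I * (v.1 * v.2 * x))

theorem gt_summable {t x y : ℝ} (ht : 0 < t) (hy : 0 < y) : Summable (gt t x y) := by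
  have hm : 0 < min t (1 / t) := lt_min ht (by positivity)
  refine Summable.of_norm_bounded
    (gauss_summable (c := Real.pi * y * min t (1 / t)) (by positivity)) fun v => ?_
  have h1 : gt t x y v = Complex.exp (((-(Real.pi * y * (t * (v.1 : ℝ) ^ 2 + (v.2 : ℝ) ^ 2 / t)) : ℝ) : ℂ) +
      ((-(2 * Real.pi * (v.1 * v.2 * x)) : ℝ) : ℂ) * Complex.I) := by
    unfold gt
    congr 1
    push_cast
    ring
  rw [h1, Complex.norm_exp]
  simp only [Complex.add_re, Complex.ofReal_re, Complex.re_ofReal_mul, Complex.I_re, mul_zero,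
    add_zero]
  rw [Real.exp_le_exp, neg_le_neg_iff, mul_assoc]
  refine mul_le_mul_of_nonneg_left ?_ (by positivity)
  unfold nn
  have h2 : min t (1 / t) * (v.1 : ℝ) ^ 2 ≤ t * (v.1 : ℝ) ^ 2 :=
    mul_le_mul_of_nonneg_right (min_le_left _ _) (sq_nonneg _)
  have h3 : min t (1 / t) * (v.2 : ℝ) ^ 2 ≤ 1 / t * (v.2 : ℝ) ^ 2 :=
    mul_le_mul_of_nonneg_right (min_le_right _ _) (sq_nonneg _)
  have h4 : 1 / t * (v.2 : ℝ) ^ 2 = (v.2 : ℝ) ^ 2 / t := by ring
  rw [mul_add]
  linarith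

theorem gt_swap {t x y : ℝ} : ∑' v, gt (1 / t) x y v = ∑' v, gt t x y v := by
  rw [← (Equiv.prodComm ℤ ℤ).tsum_eq]
  refine tsum_congr fun v => ?_
  unfold gt
  congr 1
  simp only [Equiv.prodComm_apply, Prod.fst_swap, Prod.snd_swap, Complex.ofReal_div,
    Complex.ofReal_one]
  simp only [one_mul, inv_inv, div_eq_mul_inv]
  ring

theorem slice {t x y : ℝ} (ht : 0 < t) (hy : 0 < y) (m : ℤ) :
    ∑' n : ℤ, ((Real.exp (-(Real.pi * t * qf x y (m, n))) : ℝ) : ℂ) =
      ((y / t : ℝ) : ℂ) ^ (1 / 2 : ℂ) * ∑' n : ℤ, gt t x y (m, n) := by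
  have htc : (t : ℂ) ≠ 0 := by exact_mod_cast ht.ne'
  have hyc : (y : ℂ) ≠ 0 := by exact_mod_cast hy.ne'
  have ha : (0 : ℝ) < ((y / t : ℝ) : ℂ).re := by
    rw [Complex.ofReal_re]
    positivity
  have hane : ((y / t : ℝ) : ℂ) ^ (1 / 2 : ℂ) ≠ 0 := by
    rw [Complex.cpow_ne_zero_iff]
    left
    exact_mod_cast (div_pos hy ht).ne'
  have h := Complex.tsum_exp_neg_quadratic ha (-(Complex.I * m * x))
  have h1 : ∀ n : ℤ, ((Real.exp (-(Real.pi * t * qf x y (m, n))) : ℝ) : ℂ) =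
      Complex.exp (-(Real.pi * t * m ^ 2 * y)) *
        Complex.exp (-Real.pi / ((y / t : ℝ) : ℂ) * (n + Complex.I * (-(Complex.I * m * x))) ^ 2) := by
    intro n
    rw [← Complex.exp_add, Complex.ofReal_exp]
    congr 1
    have hI : Complex.I * (-(Complex.I * m * x)) = m * x := by
      linear_combination (-(m * x : ℂ)) * Complex.I_mul_I
    rw [hI]
    unfold qf
    push_cast
    field_simp
    ring
  have h2 : ∀ n : ℤ, gt t x y (m, n) = Complex.exp (-(Real.pi * t * m ^ 2 * y)) *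
      Complex.exp (-Real.pi * ((y / t : ℝ) : ℂ) * n ^ 2 + 2 * Real.pi * (-(Complex.I * m * x)) * n) := by
    intro n
    rw [← Complex.exp_add]
    unfold gt
    congr 1
    push_cast
    field_simp
    ring
  rw [tsum_congr h1, tsum_congr h2, tsum_mul_left, tsum_mul_left, h]
  field_simp

theorem Th_eq {t x y : ℝ} (ht : 0 < t) (hy : 0 < y) :
    (Th t x y : ℂ) = ((y / t : ℝ) : ℂ) ^ (1 / 2 : ℂ) * ∑' v, gt t x y v := by
  have h1 : Summable fun v : ℤ × ℤ => ((Real.exp (-(Real.pi * t * qf x y v)) : ℝ) : ℂ) :=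
    Complex.summable_ofReal.2 (Th_summable ht hy)
  unfold Th
  rw [Complex.ofReal_tsum, h1.tsum_prod, (gt_summable ht hy).tsum_prod, ← tsum_mul_left]
  exact tsum_congr fun m => slice ht hy m

end Tt

theorem Th_inv {t x y : ℝ} (ht : 0 < t) (hy : 0 < y) : Th (1 / t) x y = t * Th t x y := by
  have h1 := Th_eq (x := x) (one_div_pos.2 ht) hy
  have h2 := Th_eq (x := x) ht hy
  rw [gt_swap] at h1
  have h3 : ((y / (1 / t) : ℝ) : ℂ) ^ (1 / 2 : ℂ) = t * ((y / t : ℝ) : ℂ) ^ (1 / 2 : ℂ) := by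
    have e1 : ((1 / 2 : ℂ)) = ((1 / 2 : ℝ) : ℂ) := by push_cast; rfl
    rw [e1, ← Complex.ofReal_cpow (by positivity), ← Complex.ofReal_cpow (by positivity),
      ← Complex.ofReal_mul]
    congr 1
    rw [← Real.sqrt_eq_rpow, ← Real.sqrt_eq_rpow]
    rw [show y / (1 / t) = t ^ 2 * (y / t) by field_simp, Real.sqrt_mul (by positivity),
      Real.sqrt_sq ht.le]
  apply Complex.ofReal_injective
  rw [Complex.ofReal_mul, h1, h2, h3]
  ring

end Pool.Agent.Work.MP_2b9663_nt.Mo
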